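import Mathlib

/-!
# An abstract momentum system

`W` is a complex inner product space (in the application: the complex test functions of an open set
`Ω` of the cylinder, with the `L²` inner product), `D1, D2` are the momentum operators `-i∂_x`,
`-i∂_y`, `z p f = ∫ e^{-i ξ_p·x} f` are the Fourier coefficients, `(x p, y p) = ξ_p` the frequencies,
`V` is the area of `Ω`.
-/

namespace Pool.Agent.Work.MP_33c50c_an.SH

/-- Momentum system. -/
structure Sys (W : Type) [NormedAddCommGroup W] [InnerProductSpace ℂ W] (ι : Type) where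
  /-- first momentum operator -/
  D1 : W →ₗ[ℂ] W
  /-- second momentum operator -/
  D2 : W →ₗ[ℂ] W
  /-- Fourier coefficients -/
  z : ι → W →ₗ[ℂ] ℂ
  /-- first frequency -/
  x : ι → ℝ
  /-- second frequency -/
  y : ι → ℝ
  /-- the constant of Parseval's identity -/
  C : ℝ
  /-- the area -/
  V : ℝ
  hC : 0 < C
  hV : 0 ≤ V
  z1 : ∀ p f, z p (D1 f) = (x p : ℂ) * z p f
  z2 : ∀ p f, z p (D2 f) = (y p : ℂ) * z p f
  pars : ∀ f, HasSum (fun p => ‖z p f‖ ^ 2) (C * ‖f‖ ^ 2)
  bess : ∀ p f, ‖z p f‖ ^ 2 ≤ V * ‖f‖ ^ 2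
  fin : ∀ r : ℝ, {p : ι | x p ^ 2 + y p ^ 2 < r}.Finite

variable {W : Type} [NormedAddCommGroup W] [InnerProductSpace ℂ W] {ι : Type}

/-- the multiplication by the character of frequency `-(a, b)`. -/
structure Shift (S : Sys W ι) (a b : ℝ) where
  /-- the operator -/
  T : W →ₗ[ℂ] W
  iso : ∀ f g, inner ℂ (T f) (T g) = inner ℂ f g
  t1 : ∀ f, S.D1 (T f) = T (S.D1 f) - (a : ℂ) • T f
  t2 : ∀ f, S.D2 (T f) = T (S.D2 f) - (b : ℂ) • T f

/-- the energy. -/
noncomputable def en (S : Sys W ι) (f : W) : ℝ := ‖S.D1 f‖ ^ 2 + ‖S.D2 f‖ ^ 2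

/-- the mean momenta. -/
noncomputable def M1 (S : Sys W ι) (f : W) : ℝ := (inner ℂ f (S.D1 f)).re

/-- the mean momenta. -/
noncomputable def M2 (S : Sys W ι) (f : W) : ℝ := (inner ℂ f (S.D2 f)).re

/-- the projection of the character `p` on the span of the orthonormal system `f`. -/
noncomputable def ww {N : ℕ} (S : Sys W ι) (f : Fin N → W) (p : ι) : W :=
  ∑ i, (starRingEnd ℂ (S.z p (f i))) • f i

/-- the trace of `λ - H` on the system `f`. -/
noncomputable def rz {N : ℕ} (S : Sys W ι) (lam : ℝ) (f : Fin N → W) : ℝ :=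
  ∑ i, (lam - en S (f i))

/-- `R` is an upper bound of the traces of `λ - H` on the orthonormal systems. -/
def Ub (S : Sys W ι) (lam R : ℝ) : Prop :=
  ∀ (N : ℕ) (f : Fin N → W), Orthonormal ℂ f → rz S lam f ≤ R

end Pool.Agent.Work.MP_33c50c_an.SH
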