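import Mathlib
import Pool.Agent.Work.MP_33c50c_an.SH.Defs

/-!
# Statements of the block SH
-/

namespace Pool.Agent.Work.MP_33c50c_an.SH

open scoped ComplexOrder

/-- Polarised Parseval identity. -/
def PolP : Prop := ∀ (W : Type) [NormedAddCommGroup W] [InnerProductSpace ℂ W] (ι : Type)
  (S : Sys W ι) (f g : W),
  HasSum (fun p => (starRingEnd ℂ) (S.z p f) * S.z p g) ((S.C : ℂ) * inner ℂ f g)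

/-- The momentum operators are symmetric. -/
def SymS : Prop := ∀ (W : Type) [NormedAddCommGroup W] [InnerProductSpace ℂ W] (ι : Type)
  (S : Sys W ι) (f g : W),
  inner ℂ (S.D1 f) g = inner ℂ f (S.D1 g) ∧ inner ℂ (S.D2 f) g = inner ℂ f (S.D2 g)

/-- The traces are bounded above. -/
def Bdd : Prop := ∀ (W : Type) [NormedAddCommGroup W] [InnerProductSpace ℂ W] (ι : Type)
  (S : Sys W ι) (lam : ℝ), ∃ B : ℝ, Ub S lam B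

/-- The trace of `A (λ - H)` for a density matrix `A`. -/
def Gen : Prop := ∀ (W : Type) [NormedAddCommGroup W] [InnerProductSpace ℂ W] (ι : Type)
  (S : Sys W ι) (lam R : ℝ), Ub S lam R → ∀ (N : ℕ) (f : Fin N → W), Orthonormal ℂ f →
  ∀ (A : Matrix (Fin N) (Fin N) ℂ), A.PosSemidef → (1 - A).PosSemidef →
  (∑ i, ∑ j, A i j * ((lam : ℂ) * (if i = j then 1 else 0) -
    (inner ℂ (S.D1 (f i)) (S.D1 (f j)) + inner ℂ (S.D2 (f i)) (S.D2 (f j))))).re ≤ R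

/-- A nearly optimal system has at least `k` elements. -/
def Near : Prop := ∀ (W : Type) [NormedAddCommGroup W] [InnerProductSpace ℂ W] (ι : Type)
  (S : Sys W ι) (lam lam0 ε : ℝ), 0 < ε → ε < lam - lam0 → (∃ B : ℝ, Ub S lam B) →
  ∀ (k : ℕ) (l : Fin k → W), Orthonormal ℂ l →
  (∀ c : Fin k → ℂ, en S (∑ i, c i • l i) ≤ lam0 * ‖∑ i, c i • l i‖ ^ 2) →
  ∃ (R : ℝ) (N : ℕ) (f : Fin N → W), Ub S lam R ∧ Orthonormal ℂ f ∧ R - ε ≤ rz S lam f ∧ k ≤ N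

/-- The energy on the span of a nearly optimal system. -/
def EnLe : Prop := ∀ (W : Type) [NormedAddCommGroup W] [InnerProductSpace ℂ W] (ι : Type)
  (S : Sys W ι) (lam R ε : ℝ), Ub S lam R → ∀ (N : ℕ) (f : Fin N → W), Orthonormal ℂ f →
  R - ε ≤ rz S lam f → ∀ c : Fin N → ℂ,
  en S (∑ i, c i • f i) ≤ (lam + ε) * ‖∑ i, c i • f i‖ ^ 2

/-- Sums over the frequencies. -/
def SumsP : Prop := ∀ (W : Type) [NormedAddCommGroup W] [InnerProductSpace ℂ W] (ι : Type)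
  (S : Sys W ι) (N : ℕ) (f : Fin N → W), Orthonormal ℂ f →
  HasSum (fun p => ‖ww S f p‖ ^ 2) (S.C * N) ∧
  HasSum (fun p => (S.x p ^ 2 + S.y p ^ 2) * ‖ww S f p‖ ^ 2) (S.C * ∑ i, en S (f i)) ∧
  HasSum (fun p => en S (ww S f p)) (S.C * ∑ i, en S (f i)) ∧
  ∀ p, S.z p (ww S f p) = ((‖ww S f p‖ ^ 2 : ℝ) : ℂ)

/-- The shift inequality. -/
def ShI : Prop := ∀ (W : Type) [NormedAddCommGroup W] [InnerProductSpace ℂ W] (ι : Type)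
  (S : Sys W ι) (a b : ℝ) (_T : Shift S a b) (lam R : ℝ), Ub S lam R →
  ∀ (N : ℕ) (f : Fin N → W), Orthonormal ℂ f → ∀ θ : ι → ℝ, (∀ p, 0 ≤ θ p ∧ θ p ≤ 1) →
  Summable (fun p => θ p * (lam * ‖ww S f p‖ ^ 2 - en S (ww S f p) +
    2 * (a * M1 S (ww S f p) + b * M2 S (ww S f p)) - (a ^ 2 + b ^ 2) * ‖ww S f p‖ ^ 2)) ∧
  ∑' p, θ p * (lam * ‖ww S f p‖ ^ 2 - en S (ww S f p) +
    2 * (a * M1 S (ww S f p) + b * M2 S (ww S f p)) - (a ^ 2 + b ^ 2) * ‖ww S f p‖ ^ 2) ≤ S.C * R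

/-- Bessel's inequality with the function and its derivatives. -/
def Pnt : Prop := ∀ (W : Type) [NormedAddCommGroup W] [InnerProductSpace ℂ W] (ι : Type)
  (S : Sys W ι) (N : ℕ) (f : Fin N → W), Orthonormal ℂ f → ∀ (p : ι) (al be1 be2 : ℝ),
  0 ≤ S.V - 2 * (al + be1 * S.x p + be2 * S.y p) * ‖ww S f p‖ ^ 2 + al ^ 2 * ‖ww S f p‖ ^ 2 +
    2 * al * (be1 * M1 S (ww S f p) + be2 * M2 S (ww S f p)) +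
    (be1 ^ 2 + be2 ^ 2) * en S (ww S f p)

/-- The abstract theorem: a dual certificate bounds the number of low eigenvalues. -/
def CoreG : Prop := ∀ (W : Type) [NormedAddCommGroup W] [InnerProductSpace ℂ W] (ι : Type)
  (S : Sys W ι) (lam : ℝ), 0 < lam → ∀ (J : ℕ) (a b : Fin J → ℝ)
  (_T : ∀ j, Shift S (a j) (b j)) (om : Fin J → ℝ), (∀ j, 0 ≤ om j) →
  ∀ (τ B : ℝ), 0 ≤ τ → ∀ (D al b1 b2 : ι → ℝ) (θ : Fin J → ι → ℝ), (∀ p, 0 ≤ D p) →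
  Summable D → (∀ p, D p * (lam * (b1 p ^ 2 + b2 p ^ 2)) ≤ B) →
  (∀ j p, 0 ≤ θ j p ∧ θ j p ≤ 1) →
  (∀ p, (∑ j, om j) - τ ≤ D p * (lam * (b1 p ^ 2 + b2 p ^ 2)) + ∑ j, om j * θ j p) →
  (∀ p, 1 + τ * (1 - (S.x p ^ 2 + S.y p ^ 2) / lam) +
      ∑ j, om j * θ j p * ((a j ^ 2 + b j ^ 2) / lam) ≤
    D p * (2 * al p + 2 * (b1 p * S.x p + b2 p * S.y p) - al p ^ 2 -
      lam * (b1 p ^ 2 + b2 p ^ 2))) →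
  (∀ p, lam * (D p * al p * b1 p) = ∑ j, om j * θ j p * a j) →
  (∀ p, lam * (D p * al p * b2 p) = ∑ j, om j * θ j p * b j) →
  ∀ (k : ℕ) (l : Fin k → W) (lam0 : ℝ), lam0 < lam → Orthonormal ℂ l →
  (∀ c : Fin k → ℂ, en S (∑ i, c i • l i) ≤ lam0 * ‖∑ i, c i • l i‖ ^ 2) →
  (k : ℝ) ≤ S.V / S.C * ∑' p, D p

/-- The multipliers of a cell. -/
def CellL : Prop := ∀ (τ ω D al b1 b2 x0 y0 : ℝ), 0 ≤ τ → τ ≤ ω → 0 < ω → 0 ≤ D → 0 ≤ al →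
  0 ≤ b1 → 0 ≤ b2 → 0 ≤ x0 → 0 ≤ y0 →
  1 + τ * (1 - x0 ^ 2 - y0 ^ 2) + (ω - τ) / 9 ≤
    D * (2 * al + 2 * (b1 * x0 + b2 * y0) - al ^ 2 - b1 ^ 2 - b2 ^ 2 + (b1 ^ 2 + b2 ^ 2) / 9) →
  1 + τ * (1 - x0 ^ 2 - y0 ^ 2) ≤
    D * (2 * al + 2 * (b1 * x0 + b2 * y0) - al ^ 2 - b1 ^ 2 - b2 ^ 2 - al * (b1 + b2) / 3) →
  3 * D * al * (b1 + b2) ≤ τ + D * (b1 ^ 2 + b2 ^ 2) →
  12 * D * al * b1 ≤ ω → 12 * D * al * b2 ≤ ω →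
  ∃ r1 l1 r2 l2 : ℝ, (0 ≤ r1 ∧ r1 ≤ 1) ∧ (0 ≤ l1 ∧ l1 ≤ 1) ∧ (0 ≤ r2 ∧ r2 ≤ 1) ∧
    (0 ≤ l2 ∧ l2 ≤ 1) ∧ ω - τ ≤ D * (b1 ^ 2 + b2 ^ 2) + ω / 4 * (r1 + l1 + r2 + l2) ∧
    12 * D * al * b1 = ω * (r1 - l1) ∧ 12 * D * al * b2 = ω * (r2 - l2) ∧
    ∀ x y : ℝ, x0 ≤ x → y0 ≤ y → 1 + τ * (1 - x ^ 2 - y ^ 2) +
      1 / 9 * (ω / 4 * (r1 + l1 + r2 + l2)) ≤
      D * (2 * al + 2 * (b1 * x + b2 * y) - al ^ 2 - b1 ^ 2 - b2 ^ 2)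

/-- A table of multipliers for the cells of the quadrant. -/
structure Tab (τ ω B : ℝ) where
  /-- cells per unit length -/
  G : ℕ
  /-- number of rows -/
  N : ℕ
  /-- the value -/
  D : ℕ → ℕ → ℝ
  /-- multiplier -/
  al : ℕ → ℕ → ℝ
  /-- multiplier -/
  b1 : ℕ → ℕ → ℝ
  /-- multiplier -/
  b2 : ℕ → ℕ → ℝ
  hG : 0 < G
  hD : ∀ i j : ℕ, 0 ≤ D i j
  hal : ∀ i j : ℕ, 0 ≤ al i j
  hb1 : ∀ i j : ℕ, 0 ≤ b1 i j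
  hb2 : ∀ i j : ℕ, 0 ≤ b2 i j
  hB : ∀ i j : ℕ, D i j * (b1 i j ^ 2 + b2 i j ^ 2) ≤ B
  hz : ∀ i j : ℕ, N ≤ i ∨ N ≤ j → D i j = 0
  hm : ∀ i : ℕ, ∑ j ∈ Finset.range N, D (i + 1) j ≤ ∑ j ∈ Finset.range N, D i j
  c1 : ∀ i j : ℕ, 1 + τ * (1 - ((i : ℝ) / G) ^ 2 - ((j : ℝ) / G) ^ 2) + (ω - τ) / 9 ≤
    D i j * (2 * al i j + 2 * (b1 i j * ((i : ℝ) / G) + b2 i j * ((j : ℝ) / G)) - al i j ^ 2 -
      b1 i j ^ 2 - b2 i j ^ 2 + (b1 i j ^ 2 + b2 i j ^ 2) / 9)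
  c2 : ∀ i j : ℕ, 1 + τ * (1 - ((i : ℝ) / G) ^ 2 - ((j : ℝ) / G) ^ 2) ≤
    D i j * (2 * al i j + 2 * (b1 i j * ((i : ℝ) / G) + b2 i j * ((j : ℝ) / G)) - al i j ^ 2 -
      b1 i j ^ 2 - b2 i j ^ 2 - al i j * (b1 i j + b2 i j) / 3)
  c3 : ∀ i j : ℕ, 3 * D i j * al i j * (b1 i j + b2 i j) ≤ τ + D i j * (b1 i j ^ 2 + b2 i j ^ 2)
  c4 : ∀ i j : ℕ, 12 * D i j * al i j * b1 i j ≤ ω
  c5 : ∀ i j : ℕ, 12 * D i j * al i j * b2 i j ≤ ω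

/-- The sum of a table over the frequencies. -/
def Latt : Prop := ∀ (G m K N : ℕ), 0 < G → 0 < m → 0 < K → G ∣ K → ∀ D : ℕ → ℕ → ℝ,
  (∀ i j, 0 ≤ D i j) →
  (∀ i, ∑ j ∈ Finset.range N, D (i + 1) j ≤ ∑ j ∈ Finset.range N, D i j) →
  (∀ i j, N ≤ i ∨ N ≤ j → D i j = 0) →
  Summable (fun p : ℤ × ℤ => D (p.1.natAbs * G / m) (p.2.natAbs * G / (m * K))) ∧
  ∑' p : ℤ × ℤ, D (p.1.natAbs * G / m) (p.2.natAbs * G / (m * K)) ≤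
    (2 * m * K / G : ℝ) * ((∑ j ∈ Finset.range N, D 0 j) +
      (2 * m / G : ℝ) * ∑ i ∈ Finset.range N, ∑ j ∈ Finset.range N, D i j)

/-- A table gives a certificate. -/
def TabC : Prop := ∀ (τ ω B : ℝ), 0 ≤ τ → τ ≤ ω → 0 < ω → ∀ (t : Tab τ ω B) (n K : ℕ), 0 < n →
  0 < K → ∃ al b1 b2 r1 l1 r2 l2 : ℤ × ℤ → ℝ, ∃ D : ℤ × ℤ → ℝ,
  (∀ p, D p = t.D (p.1.natAbs * t.G / (3 * n)) (p.2.natAbs * t.G / (3 * n * K))) ∧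
  (∀ p, D p * (b1 p ^ 2 + b2 p ^ 2) ≤ B) ∧
  (∀ p, 0 ≤ r1 p ∧ r1 p ≤ 1) ∧ (∀ p, 0 ≤ l1 p ∧ l1 p ≤ 1) ∧
  (∀ p, 0 ≤ r2 p ∧ r2 p ≤ 1) ∧ (∀ p, 0 ≤ l2 p ∧ l2 p ≤ 1) ∧
  (∀ p, ω - τ ≤ D p * (b1 p ^ 2 + b2 p ^ 2) + ω / 4 * (r1 p + l1 p + r2 p + l2 p)) ∧
  (∀ p, 1 + τ * (1 - ((p.1 : ℝ) / (3 * n)) ^ 2 - ((p.2 : ℝ) / K / (3 * n)) ^ 2) +
      1 / 9 * (ω / 4 * (r1 p + l1 p + r2 p + l2 p)) ≤
    D p * (2 * al p + 2 * (b1 p * ((p.1 : ℝ) / (3 * n)) + b2 p * ((p.2 : ℝ) / K / (3 * n))) -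
      al p ^ 2 - b1 p ^ 2 - b2 p ^ 2)) ∧
  (∀ p, 12 * D p * al p * b1 p = ω * (r1 p - l1 p)) ∧
  (∀ p, 12 * D p * al p * b2 p = ω * (r2 p - l2 p))

end Pool.Agent.Work.MP_33c50c_an.SH
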