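import Mathlib
import Pool.Agent.Work.MP_33c50c_an.SH.Stmts

/-!
# The traces are bounded above
-/

set_option autoImplicit false

namespace Pool.Agent.Work.MP_33c50c_an.SH

namespace BddX

theorem le_V {W : Type} [NormedAddCommGroup W] [InnerProductSpace ℂ W] {ι : Type} (S : Sys W ι)
    {p : ι} {g : W} (h : S.z p g = ((‖g‖ ^ 2 : ℝ) : ℂ)) : ‖g‖ ^ 2 ≤ S.V := by
  have h1 := S.bess p g
  have h0 : 0 ≤ ‖g‖ ^ 2 := sq_nonneg _
  rw [h, Complex.norm_real, Real.norm_eq_abs, abs_of_nonneg h0] at h1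
  rcases h0.eq_or_lt with h2 | h2
  · rw [← h2]
    exact S.hV
  · rw [sq (‖g‖ ^ 2)] at h1
    exact le_of_mul_le_mul_right h1 h2

end BddX

open BddX in
theorem p_Bdd (h : SumsP) : Bdd := by
  intro W _ _ ι S lam
  classical
  obtain ⟨F, hF⟩ : ∃ F, F = (S.fin lam).toFinset := ⟨_, rfl⟩
  obtain ⟨g, hg⟩ : ∃ g : ι → ℝ, g = fun p => if p ∈ F then |lam| * S.V else 0 := ⟨_, rfl⟩
  have hgs : HasSum g (∑ p ∈ F, g p) := hasSum_sum_of_ne_finset_zero fun p hp => by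
    rw [hg]
    exact if_neg hp
  refine ⟨1 / S.C * ∑ p ∈ F, g p, fun N f hf => ?_⟩
  obtain ⟨h1, h2, -, h4⟩ := h W ι S N f hf
  have h5 : HasSum (fun p => (lam - (S.x p ^ 2 + S.y p ^ 2)) * ‖ww S f p‖ ^ 2)
      (lam * (S.C * N) - S.C * ∑ i, en S (f i)) := by
    have e : (fun p => (lam - (S.x p ^ 2 + S.y p ^ 2)) * ‖ww S f p‖ ^ 2) =
        fun p => lam * ‖ww S f p‖ ^ 2 - (S.x p ^ 2 + S.y p ^ 2) * ‖ww S f p‖ ^ 2 := by
      funext p
      ring
    rw [e]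
    exact (h1.mul_left lam).sub h2
  have h7 : lam * (S.C * N) - S.C * ∑ i, en S (f i) = S.C * rz S lam f := by
    unfold rz
    rw [Finset.sum_sub_distrib, Finset.sum_const, Finset.card_univ, Fintype.card_fin, nsmul_eq_mul]
    ring
  rw [h7] at h5
  have h8 : S.C * rz S lam f ≤ ∑ p ∈ F, g p := by
    refine hasSum_le (fun p => ?_) h5 hgs
    have h9 : ‖ww S f p‖ ^ 2 ≤ S.V := le_V S (h4 p)
    have h10 : 0 ≤ ‖ww S f p‖ ^ 2 := sq_nonneg _
    have h11 : 0 ≤ S.x p ^ 2 + S.y p ^ 2 := by positivity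
    rw [hg]
    by_cases hp : p ∈ F
    · show _ ≤ if p ∈ F then |lam| * S.V else 0
      rw [if_pos hp]
      have h12 : lam - (S.x p ^ 2 + S.y p ^ 2) ≤ |lam| := by
        have := le_abs_self lam
        linarith
      calc _ ≤ |lam| * ‖ww S f p‖ ^ 2 := mul_le_mul_of_nonneg_right h12 h10
        _ ≤ _ := mul_le_mul_of_nonneg_left h9 (abs_nonneg lam)
    · show _ ≤ if p ∈ F then |lam| * S.V else 0
      rw [if_neg hp]
      rw [hF, Set.Finite.mem_toFinset, Set.mem_setOf_eq, not_lt] at hp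
      exact mul_nonpos_of_nonpos_of_nonneg (by linarith) h10
  rw [one_div, inv_mul_eq_div, le_div_iff₀ S.hC]
  linarith

end Pool.Agent.Work.MP_33c50c_an.SH
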