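import Mathlib
import Pool.Agent.Work.MP_33c50c_an.SH.Stmts

namespace Pool.Agent.Work.MP_33c50c_an.SH

theorem p_CellL : CellL := by
  intro τ ω D al b1 b2 x0 y0 hτ hτω hω hD hal hb1 hb2 hx0 hy0 h1 h2 h3 h4 h5
  set T1 := 12 * D * al * b1 / ω with hT1
  set T2 := 12 * D * al * b2 / ω with hT2
  have e1 : ω * T1 = 12 * D * al * b1 := by rw [hT1]; field_simp
  have e2 : ω * T2 = 12 * D * al * b2 := by rw [hT2]; field_simp
  have t10 : 0 ≤ T1 := by rw [hT1]; positivity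
  have t20 : 0 ≤ T2 := by rw [hT2]; positivity
  have t11 : T1 ≤ 1 := by rw [hT1, div_le_one hω]; exact h4
  have t21 : T2 ≤ 1 := by rw [hT2, div_le_one hω]; exact h5
  set u := max (ω - τ - D * (b1 ^ 2 + b2 ^ 2)) (ω / 4 * (T1 + T2)) with hu
  have hu1 : ω - τ - D * (b1 ^ 2 + b2 ^ 2) ≤ u := le_max_left _ _
  have hu2 : ω / 4 * (T1 + T2) ≤ u := le_max_right _ _
  have hu3 : u ≤ ω - ω / 4 * (T1 + T2) := by
    apply max_le
    · have : ω / 4 * (T1 + T2) = 3 * D * al * (b1 + b2) := by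
        have : ω / 4 * (T1 + T2) = (ω * T1 + ω * T2) / 4 := by ring
        rw [this, e1, e2]; ring
      rw [this]; linarith
    · have := mul_le_mul_of_nonneg_left (show T1 + T2 ≤ 2 by linarith) hω.le
      linarith
  obtain ⟨μ, hμ0, hμ1, hμ⟩ : ∃ μ : ℝ, 0 ≤ μ ∧ μ ≤ 1 ∧
      ω / 4 * (T1 + T2 + 2 * μ * (2 - T1 - T2)) = u := by
    rcases lt_or_ge (T1 + T2) 2 with hT | hT
    · have hp : 0 < ω / 2 * (2 - T1 - T2) := by
        have : 0 < 2 - T1 - T2 := by linarith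
        positivity
      refine ⟨(u - ω / 4 * (T1 + T2)) / (ω / 2 * (2 - T1 - T2)), ?_, ?_, ?_⟩
      · exact div_nonneg (by linarith) hp.le
      · rw [div_le_one hp]
        linarith
      · have hq : 2 - T1 - T2 ≠ 0 := by
          have : 0 < 2 - T1 - T2 := by linarith
          exact this.ne'
        have hω' := hω.ne'
        have e : ω / 4 * (T1 + T2 + 2 * ((u - ω / 4 * (T1 + T2)) / (ω / 2 * (2 - T1 - T2))) *
            (2 - T1 - T2)) = ω / 4 * (T1 + T2) +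
            ((u - ω / 4 * (T1 + T2)) / (ω / 2 * (2 - T1 - T2))) * (ω / 2 * (2 - T1 - T2)) := by
          ring
        rw [e, div_mul_cancel₀ _ hp.ne']
        ring
    · refine ⟨0, le_rfl, zero_le_one, ?_⟩
      have : T1 + T2 = 2 := by linarith
      have h7 : ω / 4 * (T1 + T2) = ω - ω / 4 * (T1 + T2) := by rw [this]; ring
      have h8 : u = ω / 4 * (T1 + T2) := le_antisymm (by rw [h7]; exact hu3) hu2
      rw [h8]; ring
  have a1 : 0 ≤ μ * (1 - T1) := mul_nonneg hμ0 (by linarith)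
  have a2 : μ * (1 - T1) ≤ 1 - T1 := mul_le_of_le_one_left (by linarith) hμ1
  have a3 : 0 ≤ μ * (1 - T2) := mul_nonneg hμ0 (by linarith)
  have a4 : μ * (1 - T2) ≤ 1 - T2 := mul_le_of_le_one_left (by linarith) hμ1
  have hsum : ω / 4 * ((T1 + μ * (1 - T1)) + μ * (1 - T1) + (T2 + μ * (1 - T2)) + μ * (1 - T2)) =
      u := by rw [← hμ]; ring
  refine ⟨T1 + μ * (1 - T1), μ * (1 - T1), T2 + μ * (1 - T2), μ * (1 - T2), ⟨?_, ?_⟩, ⟨?_, ?_⟩,
    ⟨?_, ?_⟩, ⟨?_, ?_⟩, ?_, ?_, ?_, ?_⟩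
  · linarith
  · linarith
  · linarith
  · linarith
  · linarith
  · linarith
  · linarith
  · linarith
  · rw [hsum]; linarith
  · rw [← e1]; ring
  · rw [← e2]; ring
  · intro x y hx hy
    rw [hsum]
    have hm : D * (2 * al + 2 * (b1 * x0 + b2 * y0) - al ^ 2 - b1 ^ 2 - b2 ^ 2) ≤
        D * (2 * al + 2 * (b1 * x + b2 * y) - al ^ 2 - b1 ^ 2 - b2 ^ 2) := by
      apply mul_le_mul_of_nonneg_left _ hD
      linarith [mul_le_mul_of_nonneg_left hx hb1, mul_le_mul_of_nonneg_left hy hb2]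
    have hs : τ * (1 - x ^ 2 - y ^ 2) ≤ τ * (1 - x0 ^ 2 - y0 ^ 2) := by
      apply mul_le_mul_of_nonneg_left _ hτ
      have q1 := pow_le_pow_left₀ hx0 hx 2
      have q2 := pow_le_pow_left₀ hy0 hy 2
      linarith
    have hc : 1 + τ * (1 - x0 ^ 2 - y0 ^ 2) + 1 / 9 * u ≤
        D * (2 * al + 2 * (b1 * x0 + b2 * y0) - al ^ 2 - b1 ^ 2 - b2 ^ 2) := by
      rcases max_choice (ω - τ - D * (b1 ^ 2 + b2 ^ 2)) (ω / 4 * (T1 + T2)) with h | h
      · rw [hu, h]; linarith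
      · rw [hu, h]
        have : ω / 4 * (T1 + T2) = 3 * D * al * (b1 + b2) := by
          have : ω / 4 * (T1 + T2) = (ω * T1 + ω * T2) / 4 := by ring
          rw [this, e1, e2]; ring
        rw [this]; linarith
    linarith

end Pool.Agent.Work.MP_33c50c_an.SH
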