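import Mathlib
import Pool.Agent.Work.MP_33c50c_an.SH.Stmts

/-!
# The abstract theorem: a dual certificate bounds the number of low eigenvalues
-/

set_option autoImplicit false

namespace Pool.Agent.Work.MP_33c50c_an.SH

open Finset

namespace CoreGX

/-- the pointwise inequality -/
lemma point {J : ℕ} {lam V P Q m1 m2 x y D al b1 b2 τ ε B Kc : ℝ} {a b om θ : Fin J → ℝ}
    (hlam : 0 < lam) (hP : 0 ≤ P) (hD : 0 ≤ D) (hε : 0 < ε) (hτ : 0 ≤ τ)
    (hom : ∀ j, 0 ≤ om j) (hθ : ∀ j, 0 ≤ θ j ∧ θ j ≤ 1)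
    (hQ : Q ≤ (lam + ε) * P)
    (hB : D * (lam * (b1 ^ 2 + b2 ^ 2)) ≤ B)
    (hKc : Kc = max B 0 + (∑ j, om j) + τ)
    (h1 : (∑ j, om j) - τ ≤ D * (lam * (b1 ^ 2 + b2 ^ 2)) + ∑ j, om j * θ j)
    (h2 : 1 + τ * (1 - (x ^ 2 + y ^ 2) / lam) + ∑ j, om j * θ j * ((a j ^ 2 + b j ^ 2) / lam) ≤
      D * (2 * al + 2 * (b1 * x + b2 * y) - al ^ 2 - lam * (b1 ^ 2 + b2 ^ 2)))
    (h3 : lam * (D * al * b1) = ∑ j, om j * θ j * a j)
    (h4 : lam * (D * al * b2) = ∑ j, om j * θ j * b j)
    (h5 : 0 ≤ V - 2 * (al + b1 * x + b2 * y) * P + al ^ 2 * P +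
      2 * al * (b1 * m1 + b2 * m2) + (b1 ^ 2 + b2 ^ 2) * Q) :
    (1 + (∑ j, om j) - ε / lam * Kc) * P + (-(τ / lam)) * ((x ^ 2 + y ^ 2) * P) +
      (-(((∑ j, om j) - τ) / lam)) * Q -
      ∑ j, (om j / lam) * (θ j * (lam * P - Q + 2 * (a j * m1 + b j * m2) -
        (a j ^ 2 + b j ^ 2) * P)) ≤ V * D := by
  set Om : ℝ := ∑ j, om j with hOm
  have hOm0 : 0 ≤ Om := Finset.sum_nonneg fun j _ => hom j
  set Th : ℝ := ∑ j, om j * θ j with hTh
  have hTh0 : 0 ≤ Th := Finset.sum_nonneg fun j _ => mul_nonneg (hom j) (hθ j).1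
  have hThOm : Th ≤ Om := Finset.sum_le_sum fun j _ => by
    have := mul_le_mul_of_nonneg_left (hθ j).2 (hom j)
    linarith
  set Sg : ℝ := ∑ j, om j * θ j * ((a j ^ 2 + b j ^ 2) / lam) with hSg
  have hlam' : lam ≠ 0 := hlam.ne'
  -- the sum over `j`
  have hsum : ∑ j, (om j / lam) * (θ j * (lam * P - Q + 2 * (a j * m1 + b j * m2) -
        (a j ^ 2 + b j ^ 2) * P))
      = Th * (P - Q / lam) + 2 * m1 * (D * al * b1) + 2 * m2 * (D * al * b2) - Sg * P := by
    have e1 : D * al * b1 = (∑ j, om j * θ j * a j) / lam := by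
      rw [← h3]; field_simp
    have e2 : D * al * b2 = (∑ j, om j * θ j * b j) / lam := by
      rw [← h4]; field_simp
    rw [e1, e2, hTh, hSg, Finset.sum_mul, Finset.sum_div, Finset.sum_div, Finset.mul_sum,
      Finset.mul_sum, Finset.sum_mul, ← Finset.sum_add_distrib, ← Finset.sum_add_distrib,
      ← Finset.sum_sub_distrib]
    refine Finset.sum_congr rfl fun j _ => ?_
    field_simp
    ring
  rw [hsum]
  -- the coefficient of `P - Q / lam`
  set q : ℝ := P - Q / lam with hq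
  have hq1 : -(ε / lam * P) ≤ q := by
    have : Q / lam ≤ (lam + ε) * P / lam := div_le_div_of_nonneg_right hQ hlam.le
    have e : (lam + ε) * P / lam = P + ε / lam * P := by field_simp
    rw [hq]; linarith
  have hQq : Q = lam * (P - q) := by rw [hq]; field_simp; ring
  set c : ℝ := D * (lam * (b1 ^ 2 + b2 ^ 2)) + Th - (Om - τ) with hc
  have hc0 : 0 ≤ c := by rw [hc]; linarith
  have hcK : c ≤ Kc := by
    rw [hc, hKc]
    have := le_max_left B 0
    linarith
  have hcq : -(ε / lam * Kc * P) ≤ c * q := by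
    have h6 := mul_le_mul_of_nonneg_left hq1 hc0
    have h7 : ε / lam * P * c ≤ ε / lam * P * Kc := by
      apply mul_le_mul_of_nonneg_left hcK
      have := div_pos hε hlam
      positivity
    nlinarith [h6, h7]
  have hDV := mul_nonneg hD h5
  have h2P := mul_le_mul_of_nonneg_right h2 hP
  have hc' : c * q = D * (lam * (b1 ^ 2 + b2 ^ 2)) * q + Th * q - (Om - τ) * q := by
    rw [hc]; ring
  have e5 : (-(τ / lam)) * ((x ^ 2 + y ^ 2) * P) = - (τ * ((x ^ 2 + y ^ 2) / lam)) * P := by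
    ring
  have e6 : (-((Om - τ) / lam)) * Q = - (Om - τ) * (P - q) := by
    rw [hQq]; field_simp
  rw [e5, e6]
  rw [hQq] at hDV
  nlinarith [hDV, h2P, hcq, hc']

end CoreGX

open CoreGX in
theorem p_CoreG (h1 : Bdd) (h2 : Near) (h3 : EnLe) (h4 : SumsP) (h5 : ShI) (h6 : Pnt) :
    CoreG := by
  intro W _ _ ι S lam hlam J a b T om hom τ B hτ D al b1 b2 θ hD hsD hB hθ hc1 hcP hM1 hM2 k l
    lam0 hlam0 hl hen
  set Om : ℝ := ∑ j, om j with hOm
  have hOm0 : 0 ≤ Om := Finset.sum_nonneg fun j _ => hom j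
  set Kc : ℝ := max B 0 + Om + τ with hKc
  have hKc0 : 0 ≤ Kc := by
    have := le_max_right B 0
    linarith
  have hC := S.hC
  -- the claim for every small `ε`
  have main : ∀ ε : ℝ, 0 < ε → ε < lam - lam0 → ε / lam * Kc ≤ 1 →
      (k : ℝ) * (1 - ε / lam * Kc) ≤ S.V / S.C * (∑' p, D p) + Om * ε / lam := by
    intro ε hε hε1 hε2
    obtain ⟨R, N, f, hR, hf, hRf, hkN⟩ := h2 W ι S lam lam0 ε hε hε1 (h1 W ι S lam) k l hl hen
    obtain ⟨s1, s2, s3, -⟩ := h4 W ι S N f hf
    have hE : rz S lam f = lam * N - ∑ i, en S (f i) := by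
      unfold rz
      rw [Finset.sum_sub_distrib, Finset.sum_const, Finset.card_univ, Fintype.card_fin,
        nsmul_eq_mul]
      ring
    have hsh := fun j => h5 W ι S (a j) (b j) (T j) lam R hR N f hf (θ j) (fun p => hθ j p)
    have hpt := fun p => point (J := J) (a := a) (b := b) (om := om) (θ := fun j => θ j p)
      (x := S.x p) (y := S.y p) (m1 := M1 S (ww S f p)) (m2 := M2 S (ww S f p)) (Kc := Kc)
      hlam (sq_nonneg ‖ww S f p‖) (hD p) hε hτ hom (fun j => hθ j p)
      (h3 W ι S lam R ε hR N f hf hRf (fun i => (starRingEnd ℂ) (S.z p (f i)))) (hB p) hKc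
      (hc1 p) (hcP p) (hM1 p) (hM2 p) (h6 W ι S N f hf p (al p) (b1 p) (b2 p))
    have hs4 := hasSum_sum (s := (Finset.univ : Finset (Fin J)))
      (fun j _ => ((hsh j).1.hasSum.mul_left (om j / lam)))
    have hsL := (((s1.mul_left (1 + Om - ε / lam * Kc)).add (s2.mul_left (-(τ / lam)))).add
      (s3.mul_left (-((Om - τ) / lam)))).sub hs4
    have hsR := hsD.hasSum.mul_left S.V
    have hle := hasSum_le hpt hsL hsR
    have hle2 : ∑ j, om j / lam * ∑' p, θ j p * (lam * ‖ww S f p‖ ^ 2 - en S (ww S f p) +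
        2 * (a j * M1 S (ww S f p) + b j * M2 S (ww S f p)) -
          (a j ^ 2 + b j ^ 2) * ‖ww S f p‖ ^ 2) ≤ Om / lam * (S.C * R) := by
      rw [hOm, Finset.sum_div, Finset.sum_mul]
      exact Finset.sum_le_sum fun j _ =>
        mul_le_mul_of_nonneg_left (hsh j).2 (div_nonneg (hom j) hlam.le)
    have hN : S.C * ((N : ℝ) * (1 - ε / lam * Kc)) ≤
        S.V * (∑' p, D p) + S.C * (Om * ε / lam) := by
      have e1 : ∑ i, en S (f i) = lam * N - rz S lam f := by rw [hE]; ring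
      rw [e1] at hle
      have hlam' : lam ≠ 0 := hlam.ne'
      have e2 : (1 + Om - ε / lam * Kc) * (S.C * N) + -(τ / lam) * (S.C * (lam * N - rz S lam f)) +
          -((Om - τ) / lam) * (S.C * (lam * N - rz S lam f)) =
          S.C * ((N : ℝ) * (1 - ε / lam * Kc)) + Om / lam * (S.C * rz S lam f) := by
        field_simp
        ring
      have h7 : Om / lam * (S.C * R) - Om / lam * (S.C * rz S lam f) ≤ S.C * (Om * ε / lam) := by
        have h8 : 0 ≤ Om / lam * S.C := mul_nonneg (div_nonneg hOm0 hlam.le) hC.le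
        have h9 := mul_le_mul_of_nonneg_left (show R - rz S lam f ≤ ε by linarith) h8
        have e3 : S.C * (Om * ε / lam) = Om / lam * S.C * ε := by ring
        rw [e3]
        linarith
      rw [e2] at hle
      linarith
    have hN' : (N : ℝ) * (1 - ε / lam * Kc) ≤ S.V / S.C * (∑' p, D p) + Om * ε / lam := by
      have e4 : S.C * (S.V / S.C * (∑' p, D p) + Om * ε / lam) =
          S.V * (∑' p, D p) + S.C * (Om * ε / lam) := by
        have := hC.ne'
        field_simp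
      rw [← e4] at hN
      exact le_of_mul_le_mul_left hN hC
    have hkN' : (k : ℝ) ≤ N := by exact_mod_cast hkN
    exact (mul_le_mul_of_nonneg_right hkN' (by linarith)).trans hN'
  by_contra hcon
  push Not at hcon
  set X : ℝ := S.V / S.C * ∑' p, D p with hX
  set M : ℝ := (Om + k * Kc) / lam with hM
  have hM0 : 0 ≤ M := by positivity
  set ε : ℝ := min ((lam - lam0) / 2) (min (lam / (Kc + 1)) (((k : ℝ) - X) / (M + 1))) with hεd
  have hε0 : 0 < ε := by
    refine lt_min (by linarith) (lt_min (by positivity) (div_pos (by linarith) (by positivity)))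
  have hε1 : ε ≤ (lam - lam0) / 2 := min_le_left _ _
  have hε2 : ε ≤ lam / (Kc + 1) := (min_le_right _ _).trans (min_le_left _ _)
  have hε3 : ε ≤ ((k : ℝ) - X) / (M + 1) := (min_le_right _ _).trans (min_le_right _ _)
  have h7 : ε / lam * Kc ≤ 1 := by
    rw [le_div_iff₀ (by positivity)] at hε2
    rw [div_mul_eq_mul_div, div_le_one hlam]
    nlinarith
  have h8 := main ε hε0 (by linarith) h7
  have h9 : (k : ℝ) ≤ X + ε * M := by
    have : ε * M = Om * ε / lam + k * (ε / lam * Kc) := by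
      rw [hM]; field_simp
    rw [this]
    linarith
  rw [le_div_iff₀ (by positivity)] at hε3
  have : ε * (M + 1) = ε * M + ε := by ring
  linarith

end Pool.Agent.Work.MP_33c50c_an.SH
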