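import Mathlib
import Pool.Agent.Work.MP_33c50c_an.SH.Stmts

/-!
# The energy on the span of a nearly optimal system
-/

namespace Pool.Agent.Work.MP_33c50c_an.SH

open scoped ComplexOrder
open Matrix

namespace EnLeX

variable {W : Type} [NormedAddCommGroup W] [InnerProductSpace ℂ W] {ι : Type}

/-- the projection on the line of `conj c` -/
noncomputable def BB {N : ℕ} (c : Fin N → ℂ) (n : ℝ) : Matrix (Fin N) (Fin N) ℂ :=
  fun i j => (starRingEnd ℂ) (c i) * c j / n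

theorem BB_sq {N : ℕ} (c : Fin N → ℂ) (n : ℝ) (hn : n ≠ 0) (hc : ∑ i, ‖c i‖ ^ 2 = n) :
    BB c n * BB c n = BB c n := by
  have hn' : (n : ℂ) ≠ 0 := by exact_mod_cast hn
  have hs : ∑ k, c k * (starRingEnd ℂ) (c k) = (n : ℂ) := by
    rw [← hc]
    push_cast
    exact Finset.sum_congr rfl fun k _ => Complex.mul_conj' (c k)
  ext i j
  rw [Matrix.mul_apply]
  have e : ∀ k, BB c n i k * BB c n k j =
      (starRingEnd ℂ) (c i) * c j / n / n * (c k * (starRingEnd ℂ) (c k)) := by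
    intro k
    unfold BB
    ring
  rw [Finset.sum_congr rfl fun k _ => e k, ← Finset.mul_sum, hs]
  unfold BB
  field_simp

theorem BB_star {N : ℕ} (c : Fin N → ℂ) (n : ℝ) : (BB c n)ᴴ = BB c n := by
  ext i j
  rw [Matrix.conjTranspose_apply]
  unfold BB
  simp [mul_comm]

theorem BB_pos {N : ℕ} (c : Fin N → ℂ) (n : ℝ) (hn : n ≠ 0) (hc : ∑ i, ‖c i‖ ^ 2 = n) :
    (BB c n).PosSemidef ∧ (1 - BB c n).PosSemidef := by
  have h1 := BB_sq c n hn hc
  have h2 := BB_star c n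
  constructor
  · have h := Matrix.posSemidef_conjTranspose_mul_self (BB c n)
    rwa [h2, h1] at h
  · have h := Matrix.posSemidef_conjTranspose_mul_self (1 - BB c n)
    rw [Matrix.conjTranspose_sub, Matrix.conjTranspose_one, h2, sub_mul, mul_sub, mul_sub, h1,
      one_mul, one_mul, mul_one, sub_self, sub_zero] at h
    exact h

theorem inner_sum_sum {N : ℕ} (c : Fin N → ℂ) (g : Fin N → W) :
    inner ℂ (∑ i, c i • g i) (∑ j, c j • g j) =
      ∑ i, ∑ j, (starRingEnd ℂ) (c i) * c j * inner ℂ (g i) (g j) := by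
  rw [sum_inner]
  refine Finset.sum_congr rfl fun i _ => ?_
  rw [inner_sum]
  refine Finset.sum_congr rfl fun j _ => ?_
  rw [inner_smul_left, inner_smul_right]
  ring

end EnLeX

open EnLeX in
theorem p_EnLe (h : Gen) : EnLe := by
  intro W _ _ ι S lam R ε hU N f hf hR c
  set v : W := ∑ i, c i • f i with hv
  have hnorm : ∑ i, ‖c i‖ ^ 2 = ‖v‖ ^ 2 := by
    have e : ((‖v‖ ^ 2 : ℝ) : ℂ) = ((∑ i, ‖c i‖ ^ 2 : ℝ) : ℂ) := by
      have e1 : inner ℂ v v = ((‖v‖ ^ 2 : ℝ) : ℂ) := by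
        rw [inner_self_eq_norm_sq_to_K]
        push_cast
        rfl
      rw [← e1, hv, inner_sum_sum]
      push_cast
      refine Finset.sum_congr rfl fun i _ => ?_
      rw [Finset.sum_eq_single i]
      · rw [inner_self_eq_norm_sq_to_K, hf.1 i]
        rw [mul_comm, mul_comm ((starRingEnd ℂ) (c i))]
        simp [Complex.mul_conj']
      · intro j _ hj
        rw [hf.2 (Ne.symm hj), mul_zero]
      · intro hi
        exact absurd (Finset.mem_univ i) hi
    exact_mod_cast e.symm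
  rcases eq_or_ne v 0 with h0 | h0
  · rw [h0]
    unfold en
    simp
  have hn : ‖v‖ ^ 2 ≠ 0 := pow_ne_zero 2 (norm_ne_zero_iff.2 h0)
  have hnC : ((‖v‖ ^ 2 : ℝ) : ℂ) ≠ 0 := by exact_mod_cast hn
  obtain ⟨hB1, hB2⟩ := BB_pos c (‖v‖ ^ 2) hn hnorm
  have key := h W ι S lam R hU N f hf (1 - BB c (‖v‖ ^ 2)) hB2 (by rwa [sub_sub_cancel])
  set HH : Fin N → Fin N → ℂ := fun i j =>
    inner ℂ (S.D1 (f i)) (S.D1 (f j)) + inner ℂ (S.D2 (f i)) (S.D2 (f j)) with hHH
  have hD : ∑ i, ∑ j, (starRingEnd ℂ) (c i) * c j * HH i j = ((en S v : ℝ) : ℂ) := by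
    have e1 : inner ℂ (S.D1 v) (S.D1 v) + inner ℂ (S.D2 v) (S.D2 v) = ((en S v : ℝ) : ℂ) := by
      rw [inner_self_eq_norm_sq_to_K, inner_self_eq_norm_sq_to_K]
      unfold en
      push_cast
      rfl
    rw [← e1]
    have d1 : S.D1 v = ∑ i, c i • S.D1 (f i) := by rw [hv, map_sum]; simp
    have d2 : S.D2 v = ∑ i, c i • S.D2 (f i) := by rw [hv, map_sum]; simp
    rw [d1, d2, inner_sum_sum, inner_sum_sum, ← Finset.sum_add_distrib]
    refine Finset.sum_congr rfl fun i _ => ?_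
    rw [← Finset.sum_add_distrib]
    refine Finset.sum_congr rfl fun j _ => ?_
    rw [hHH]
    ring
  have hsum : ∑ i, ∑ j, (1 - BB c (‖v‖ ^ 2)) i j * ((lam : ℂ) * (if i = j then 1 else 0) -
      HH i j) = ((rz S lam f : ℝ) : ℂ) - (lam : ℂ) + ((en S v / ‖v‖ ^ 2 : ℝ) : ℂ) := by
    have s1 : ∀ i j, (1 - BB c (‖v‖ ^ 2)) i j * ((lam : ℂ) * (if i = j then 1 else 0) - HH i j) =
        (if i = j then ((lam : ℂ) - HH i i) else 0) -
          (if i = j then (lam : ℂ) * (c i * (starRingEnd ℂ) (c i)) / ((‖v‖ ^ 2 : ℝ) : ℂ) else 0) +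
          (starRingEnd ℂ) (c i) * c j * HH i j / ((‖v‖ ^ 2 : ℝ) : ℂ) := by
      intro i j
      rw [Matrix.sub_apply, Matrix.one_apply]
      unfold BB
      by_cases hij : i = j
      · subst hij
        simp only [if_true]
        ring
      · simp only [if_neg hij]
        ring
    have s2 : ∑ i, c i * (starRingEnd ℂ) (c i) = ((‖v‖ ^ 2 : ℝ) : ℂ) := by
      rw [← hnorm]
      push_cast
      exact Finset.sum_congr rfl fun k _ => Complex.mul_conj' (c k)
    simp only [s1, Finset.sum_add_distrib, Finset.sum_sub_distrib, Finset.sum_ite_eq,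
      Finset.mem_univ, if_true]
    have s3 : ∑ i, (lam : ℂ) * (c i * (starRingEnd ℂ) (c i)) / ((‖v‖ ^ 2 : ℝ) : ℂ) = lam := by
      rw [← Finset.sum_div, ← Finset.mul_sum, s2, mul_div_assoc, div_self hnC, mul_one]
    have s4 : ∑ i, ∑ j, (starRingEnd ℂ) (c i) * c j * HH i j / ((‖v‖ ^ 2 : ℝ) : ℂ) =
        ((en S v / ‖v‖ ^ 2 : ℝ) : ℂ) := by
      simp only [← Finset.sum_div]
      rw [hD]
      push_cast
      rfl
    have s5 : ∑ i, ((lam : ℂ) - HH i i) = ((rz S lam f : ℝ) : ℂ) := by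
      unfold rz
      push_cast
      refine Finset.sum_congr rfl fun i _ => ?_
      rw [hHH]
      simp only []
      rw [inner_self_eq_norm_sq_to_K, inner_self_eq_norm_sq_to_K]
      unfold en
      push_cast
      rfl
    rw [s3, s4, ← s5, Finset.sum_sub_distrib]
  rw [hsum] at key
  have key2 : rz S lam f - lam + en S v / ‖v‖ ^ 2 ≤ R := by
    have e : (((rz S lam f : ℝ) : ℂ) - (lam : ℂ) + ((en S v / ‖v‖ ^ 2 : ℝ) : ℂ)).re =
        rz S lam f - lam + en S v / ‖v‖ ^ 2 := by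
      rw [Complex.add_re, Complex.sub_re, Complex.ofReal_re, Complex.ofReal_re, Complex.ofReal_re]
    rwa [e] at key
  have hpos : 0 < ‖v‖ ^ 2 := by positivity
  have h3 : en S v / ‖v‖ ^ 2 ≤ lam + ε := by linarith
  rwa [div_le_iff₀ hpos] at h3

end Pool.Agent.Work.MP_33c50c_an.SH
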