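import Mathlib
import Pool.Agent.Work.MP_33c50c_an.SH.Stmts

/-!
# The trace of a density matrix
-/

set_option autoImplicit false

namespace Pool.Agent.Work.MP_33c50c_an.SH

open scoped ComplexOrder

namespace GenX

open Matrix

/-- The spectral decomposition of a density matrix. -/
theorem spec {N : ℕ} (A : Matrix (Fin N) (Fin N) ℂ) (hA : A.PosSemidef)
    (hA1 : (1 - A).PosSemidef) :
    ∃ (U : Matrix (Fin N) (Fin N) ℂ) (g : Fin N → ℝ), star U * U = 1 ∧
      (∀ l, 0 ≤ g l ∧ g l ≤ 1) ∧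
      ∀ i j, A i j = ∑ l, (g l : ℂ) * (U i l * (starRingEnd ℂ) (U j l)) := by
  have hH := hA.isHermitian
  refine ⟨hH.eigenvectorUnitary, hH.eigenvalues, Unitary.coe_star_mul_self _, fun l =>
    ⟨hA.eigenvalues_nonneg l, ?_⟩, ?_⟩
  · have h1 := hA1.dotProduct_mulVec_nonneg (⇑(hH.eigenvectorBasis l))
    rw [sub_mulVec, one_mulVec, hH.mulVec_eigenvectorBasis, dotProduct_sub, dotProduct_smul,
      dotProduct_comm, ← EuclideanSpace.inner_eq_star_dotProduct,
      inner_self_eq_norm_sq_to_K, hH.eigenvectorBasis.orthonormal.1 l] at h1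
    have h2 : (0 : ℂ) ≤ ((1 - hH.eigenvalues l : ℝ) : ℂ) := by
      convert h1 using 1
      simp
    have h3 : 0 ≤ 1 - hH.eigenvalues l := Complex.zero_le_real.1 h2
    linarith
  · intro i j
    have h1 := congrFun (congrFun hH.spectral_theorem i) j
    rw [Unitary.conjStarAlgAut_apply, mul_apply] at h1
    rw [h1]
    refine Finset.sum_congr rfl fun l _ => ?_
    rw [mul_diagonal, star_apply]
    simp only [Function.comp_apply, Complex.coe_algebraMap, RCLike.star_def]
    show _ * (hH.eigenvalues l : ℂ) * _ = _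
    ring

variable {W : Type} [NormedAddCommGroup W] [InnerProductSpace ℂ W]

theorem inn {N : ℕ} (U : Matrix (Fin N) (Fin N) ℂ) (f : Fin N → W) (D : W →ₗ[ℂ] W)
    (l m : Fin N) :
    inner ℂ (D (∑ i, (starRingEnd ℂ) (U i l) • f i)) (D (∑ i, (starRingEnd ℂ) (U i m) • f i)) =
      ∑ i, ∑ j, U i l * (starRingEnd ℂ) (U j m) * inner ℂ (D (f i)) (D (f j)) := by
  rw [map_sum, map_sum, sum_inner]
  refine Finset.sum_congr rfl fun i _ => ?_
  rw [inner_sum]
  refine Finset.sum_congr rfl fun j _ => ?_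
  rw [map_smul, map_smul, inner_smul_left, inner_smul_right, Complex.conj_conj]
  ring

theorem ortho {N : ℕ} (U : Matrix (Fin N) (Fin N) ℂ) (hU : star U * U = 1) (f : Fin N → W)
    (hf : Orthonormal ℂ f) : Orthonormal ℂ (fun l => ∑ i, (starRingEnd ℂ) (U i l) • f i) := by
  rw [orthonormal_iff_ite]
  intro l m
  have h1 := inn U f LinearMap.id l m
  simp only [LinearMap.id_coe, id_eq] at h1
  rw [h1]
  have h2 : ∀ i, ∑ j, U i l * (starRingEnd ℂ) (U j m) * inner ℂ (f i) (f j) =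
      U i l * (starRingEnd ℂ) (U i m) := by
    intro i
    rw [Finset.sum_eq_single i]
    · rw [orthonormal_iff_ite.1 hf i i, if_pos rfl, mul_one]
    · intro j _ hj
      rw [orthonormal_iff_ite.1 hf i j, if_neg (Ne.symm hj), mul_zero]
    · intro h
      exact absurd (Finset.mem_univ i) h
  simp only [h2]
  have h3 := congrFun (congrFun hU m) l
  rw [mul_apply, one_apply] at h3
  rw [show (if l = m then (1 : ℂ) else 0) = if m = l then 1 else 0 by simp [eq_comm], ← h3]
  refine Finset.sum_congr rfl fun i _ => ?_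
  rw [star_apply, RCLike.star_def]
  ring

theorem quad {N : ℕ} (A U : Matrix (Fin N) (Fin N) ℂ) (g : Fin N → ℝ)
    (hAU : ∀ i j, A i j = ∑ l, (g l : ℂ) * (U i l * (starRingEnd ℂ) (U j l))) (f : Fin N → W)
    (D : W →ₗ[ℂ] W) : ∑ i, ∑ j, A i j * inner ℂ (D (f i)) (D (f j)) =
      ((∑ l, g l * ‖D (∑ i, (starRingEnd ℂ) (U i l) • f i)‖ ^ 2 : ℝ) : ℂ) := by
  have h1 : ∀ l, ((g l * ‖D (∑ i, (starRingEnd ℂ) (U i l) • f i)‖ ^ 2 : ℝ) : ℂ) =
      ∑ i, ∑ j, (g l : ℂ) * (U i l * (starRingEnd ℂ) (U j l)) * inner ℂ (D (f i)) (D (f j)) := by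
    intro l
    have h2 := inn U f D l l
    rw [inner_self_eq_norm_sq_to_K] at h2
    push_cast
    have h3 : ((‖D (∑ i, (starRingEnd ℂ) (U i l) • f i)‖ : ℝ) : ℂ) ^ 2 =
        ∑ i, ∑ j, U i l * (starRingEnd ℂ) (U j l) * inner ℂ (D (f i)) (D (f j)) := h2
    rw [h3, Finset.mul_sum]
    refine Finset.sum_congr rfl fun i _ => ?_
    rw [Finset.mul_sum]
    refine Finset.sum_congr rfl fun j _ => ?_
    ring
  symm
  rw [Complex.ofReal_sum, Finset.sum_congr rfl fun l _ => h1 l, Finset.sum_comm]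
  refine Finset.sum_congr rfl fun i _ => ?_
  rw [Finset.sum_comm]
  refine Finset.sum_congr rfl fun j _ => ?_
  rw [hAU, Finset.sum_mul]

end GenX

open GenX in
theorem p_Gen : Gen := by
  intro W _ _ ι S lam R hR N f hf A hA hA1
  obtain ⟨U, g, hU, hg, hAU⟩ := spec A hA hA1
  have hh := ortho U hU f hf
  set h : Fin N → W := fun l => ∑ i, (starRingEnd ℂ) (U i l) • f i with hhdef
  have e1 : ∑ i, ∑ j, A i j * ((lam : ℂ) * (if i = j then 1 else 0) -
      (inner ℂ (S.D1 (f i)) (S.D1 (f j)) + inner ℂ (S.D2 (f i)) (S.D2 (f j)))) =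
      ((∑ l, g l * (lam - en S (h l)) : ℝ) : ℂ) := by
    have q0 := quad A U g hAU f LinearMap.id
    have q1 := quad A U g hAU f S.D1
    have q2 := quad A U g hAU f S.D2
    have h0 : ∑ i, ∑ j, A i j * ((lam : ℂ) * (if i = j then 1 else 0) -
        (inner ℂ (S.D1 (f i)) (S.D1 (f j)) + inner ℂ (S.D2 (f i)) (S.D2 (f j)))) =
        (lam : ℂ) * (∑ i, ∑ j, A i j * inner ℂ (LinearMap.id (R := ℂ) (f i))
          (LinearMap.id (R := ℂ) (f j))) -
        ((∑ i, ∑ j, A i j * inner ℂ (S.D1 (f i)) (S.D1 (f j))) +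
          ∑ i, ∑ j, A i j * inner ℂ (S.D2 (f i)) (S.D2 (f j))) := by
      rw [Finset.mul_sum, ← Finset.sum_add_distrib, ← Finset.sum_sub_distrib]
      refine Finset.sum_congr rfl fun i _ => ?_
      rw [Finset.mul_sum, ← Finset.sum_add_distrib, ← Finset.sum_sub_distrib]
      refine Finset.sum_congr rfl fun j _ => ?_
      rw [LinearMap.id_apply, LinearMap.id_apply, orthonormal_iff_ite.1 hf i j]
      ring
    rw [h0, q0, q1, q2]
    rw [← Complex.ofReal_mul, ← Complex.ofReal_add, ← Complex.ofReal_sub]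
    congr 1
    rw [Finset.mul_sum, ← Finset.sum_add_distrib, ← Finset.sum_sub_distrib]
    refine Finset.sum_congr rfl fun l _ => ?_
    have h5 : ‖(LinearMap.id (R := ℂ) (M := W)) (h l)‖ = 1 := hh.1 l
    show lam * (g l * ‖(LinearMap.id (R := ℂ) (M := W)) (h l)‖ ^ 2) -
      (g l * ‖S.D1 (h l)‖ ^ 2 + g l * ‖S.D2 (h l)‖ ^ 2) = g l * (lam - en S (h l))
    rw [h5]
    unfold en
    ring
  rw [e1, Complex.ofReal_re]
  classical
  set T : Finset (Fin N) := Finset.univ.filter (fun l => en S (h l) ≤ lam) with hT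
  have e2 : ∑ l, g l * (lam - en S (h l)) ≤ ∑ l ∈ T, (lam - en S (h l)) := by
    rw [hT, Finset.sum_filter]
    refine Finset.sum_le_sum fun l _ => ?_
    obtain ⟨g0, g1⟩ := hg l
    split_ifs with hl
    · have : 0 ≤ lam - en S (h l) := by linarith
      nlinarith
    · have : lam - en S (h l) < 0 := by linarith
      nlinarith
  have e3 : ∑ l ∈ T, (lam - en S (h l)) = rz S lam (fun i : Fin T.card =>
      h (T.equivFin.symm i)) := by
    unfold rz
    rw [← Finset.sum_coe_sort T (fun l => lam - en S (h l))]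
    exact (Equiv.sum_comp T.equivFin.symm (fun x : T => lam - en S (h x))).symm
  have e4 : Orthonormal ℂ (fun i : Fin T.card => h (T.equivFin.symm i)) := by
    apply hh.comp (fun i : Fin T.card => ((T.equivFin.symm i : T) : Fin N))
    intro a b hab
    exact T.equivFin.symm.injective (Subtype.ext hab)
  calc ∑ l, g l * (lam - en S (h l)) ≤ ∑ l ∈ T, (lam - en S (h l)) := e2
    _ = rz S lam (fun i : Fin T.card => h (T.equivFin.symm i)) := e3
    _ ≤ R := hR _ _ e4

end Pool.Agent.Work.MP_33c50c_an.SH
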