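import Mathlib
import Pool.Agent.Work.MP_33c50c_an.SH.Stmts

/-!
# The sum of a table over the frequencies
-/

namespace Pool.Agent.Work.MP_33c50c_an.SH

namespace LattX

/-- sums over symmetric intervals -/
theorem sum_sym (h : ℕ → ℝ) (A : ℕ) :
    ∑ a ∈ Finset.Icc (-(A : ℤ)) A, h a.natAbs = h 0 + 2 * ∑ c ∈ Finset.range A, h (c + 1) := by
  induction A with
  | zero => simp
  | succ A ih =>
    have e : Finset.Icc (-((A + 1 : ℕ) : ℤ)) ((A + 1 : ℕ) : ℤ) =
        insert ((A + 1 : ℕ) : ℤ) (insert (-((A + 1 : ℕ) : ℤ)) (Finset.Icc (-(A : ℤ)) A)) := by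
      ext x
      simp only [Finset.mem_Icc, Finset.mem_insert, Nat.cast_add, Nat.cast_one]
      omega
    rw [e, Finset.sum_insert, Finset.sum_insert, ih, Finset.sum_range_succ]
    · have h1 : (((A + 1 : ℕ) : ℤ)).natAbs = A + 1 := Int.natAbs_natCast _
      have h2 : (-((A + 1 : ℕ) : ℤ)).natAbs = A + 1 := by rw [Int.natAbs_neg, h1]
      rw [h1, h2]
      ring
    · simp only [Finset.mem_Icc, Nat.cast_add, Nat.cast_one]
      omega
    · simp only [Finset.mem_Icc, Finset.mem_insert, Nat.cast_add, Nat.cast_one]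
      omega

/-- blocks -/
theorem sum_blk (f : ℕ → ℝ) (A G : ℕ) :
    ∑ t ∈ Finset.range (A * G), f t = ∑ c ∈ Finset.range A, ∑ x ∈ Finset.range G, f (c * G + x) := by
  induction A with
  | zero => simp
  | succ A ih => rw [Nat.succ_mul, Finset.sum_range_add, ih, Finset.sum_range_succ]

/-- sums of `g (t / M)` -/
theorem sum_div (g : ℕ → ℝ) (A M : ℕ) (hM : 0 < M) :
    ∑ t ∈ Finset.range (A * M), g (t / M) = M * ∑ c ∈ Finset.range A, g c := by
  rw [sum_blk, Finset.mul_sum]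
  refine Finset.sum_congr rfl fun c _ => ?_
  have h : ∀ x ∈ Finset.range M, g ((c * M + x) / M) = g c := by
    intro x hx
    have hx' := Finset.mem_range.1 hx
    congr 1
    rw [Nat.add_comm, Nat.add_mul_div_right _ _ hM, Nat.div_eq_of_lt hx', zero_add]
  rw [Finset.sum_congr rfl h, Finset.sum_const, Finset.card_range, nsmul_eq_mul]

/-- the sum over the second index -/
theorem snd (g : ℕ → ℝ) (N M : ℕ) (hM : 0 < M) (hg : ∀ j, 0 ≤ g j) (hN : ∀ j, N ≤ j → g j = 0) :
    ∑ b ∈ Finset.Icc (-((N * M : ℕ) : ℤ)) ((N * M : ℕ) : ℤ), g (b.natAbs / M) ≤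
      2 * M * ∑ j ∈ Finset.range N, g j := by
  rw [sum_sym (fun c => g (c / M))]
  have h1 : ∑ c ∈ Finset.range (N * M), g ((c + 1) / M) + g (0 / M) =
      ∑ c ∈ Finset.range (N * M), g (c / M) + g (N * M / M) := by
    rw [← Finset.sum_range_succ' (fun c => g (c / M)), ← Finset.sum_range_succ (fun c => g (c / M))]
  rw [Nat.mul_div_cancel _ hM, hN N le_rfl, add_zero, sum_div g N M hM] at h1
  have h2 := hg (0 / M)
  nlinarith

/-- the sum over the first index -/
theorem fst (g : ℕ → ℝ) (N m G : ℕ) (hm : 0 < m) (hG : 0 < G) (hg' : ∀ i, g (i + 1) ≤ g i)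
    (hN : ∀ j, N ≤ j → g j = 0) :
    ∑ a ∈ Finset.Icc (-((N * m : ℕ) : ℤ)) ((N * m : ℕ) : ℤ), g (a.natAbs * G / m) ≤
      g 0 + 2 * m / G * ∑ i ∈ Finset.range N, g i := by
  rw [sum_sym (fun c => g (c * G / m))]
  have hanti : Antitone g := antitone_nat_of_succ_le hg'
  have h1 : (G : ℝ) * ∑ c ∈ Finset.range (N * m), g ((c + 1) * G / m) ≤
      ∑ t ∈ Finset.range (N * m * G), g (t / m) := by
    rw [sum_blk (fun t => g (t / m)) (N * m) G, Finset.mul_sum]
    refine Finset.sum_le_sum fun c _ => ?_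
    have : (G : ℝ) * g ((c + 1) * G / m) = ∑ x ∈ Finset.range G, g ((c + 1) * G / m) := by
      rw [Finset.sum_const, Finset.card_range, nsmul_eq_mul]
    rw [this]
    refine Finset.sum_le_sum fun x hx => hanti ?_
    have hx' := Finset.mem_range.1 hx
    refine Nat.div_le_div_right ?_
    rw [Nat.succ_mul]
    omega
  have h2 : ∑ t ∈ Finset.range (N * m * G), g (t / m) = m * ∑ i ∈ Finset.range N, g i := by
    rw [show N * m * G = N * G * m by ring, sum_div g (N * G) m hm]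
    congr 1
    symm
    refine Finset.sum_subset (Finset.range_mono (Nat.le_mul_of_pos_right N hG)) fun i _ hi => ?_
    exact hN i (by simpa using hi)
  rw [h2] at h1
  have hG' : (0 : ℝ) < G := by exact_mod_cast hG
  have h3 : ∑ c ∈ Finset.range (N * m), g ((c + 1) * G / m) ≤
      m / G * ∑ i ∈ Finset.range N, g i := by
    rw [div_mul_eq_mul_div, le_div_iff₀ hG', mul_comm]
    exact h1
  have h4 : g (0 * G / m) = g 0 := by simp
  have h5 : (2 * m / G : ℝ) * ∑ i ∈ Finset.range N, g i =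
      2 * (m / G * ∑ i ∈ Finset.range N, g i) := by ring
  rw [h4, h5]
  linarith

end LattX

open LattX in
theorem p_Latt : Latt := by
  intro G m K N hG hm hK hGK D hD0 hD1 hDN
  obtain ⟨L, rfl⟩ := hGK
  have hL : 0 < L := Nat.pos_of_mul_pos_left hK |> fun h => by
    rcases Nat.eq_zero_or_pos L with h0 | h0
    · rw [h0, Nat.mul_zero] at hK
      exact absurd hK (lt_irrefl _)
    · exact h0
  set M := m * L with hMdef
  have hM : 0 < M := Nat.mul_pos hm hL
  have hdiv : ∀ b : ℕ, b * G / (m * (G * L)) = b / M := by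
    intro b
    rw [show m * (G * L) = M * G by rw [hMdef]; ring]
    exact Nat.mul_div_mul_right _ _ hG
  simp only [hdiv]
  set F : ℤ × ℤ → ℝ := fun p => D (p.1.natAbs * G / m) (p.2.natAbs / M) with hF
  set S : Finset (ℤ × ℤ) := Finset.Icc (-((N * m : ℕ) : ℤ)) ((N * m : ℕ) : ℤ) ×ˢ
    Finset.Icc (-((N * M : ℕ) : ℤ)) ((N * M : ℕ) : ℤ) with hS
  have hsupp : ∀ p ∉ S, F p = 0 := by
    rintro ⟨a, b⟩ hp
    apply hDN
    by_contra hcon
    push Not at hcon
    obtain ⟨h1, h2⟩ := hcon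
    apply hp
    rw [hS, Finset.mem_product, Finset.mem_Icc, Finset.mem_Icc]
    dsimp only at h1 h2 ⊢
    rw [Nat.div_lt_iff_lt_mul hm] at h1
    rw [Nat.div_lt_iff_lt_mul hM] at h2
    have h3 : a.natAbs ≤ a.natAbs * G := Nat.le_mul_of_pos_right _ hG
    have h4 : a.natAbs < N * m := by omega
    omega
  have hsum : HasSum F (∑ p ∈ S, F p) := hasSum_sum_of_ne_finset_zero hsupp
  refine ⟨hsum.summable, ?_⟩
  rw [hsum.tsum_eq, hS, Finset.sum_product]
  have hstep : ∀ a ∈ Finset.Icc (-((N * m : ℕ) : ℤ)) ((N * m : ℕ) : ℤ),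
      ∑ b ∈ Finset.Icc (-((N * M : ℕ) : ℤ)) ((N * M : ℕ) : ℤ), F (a, b) ≤
        2 * M * ∑ j ∈ Finset.range N, D (a.natAbs * G / m) j := fun a _ =>
    snd (fun j => D (a.natAbs * G / m) j) N M hM (fun j => hD0 _ j)
      (fun j hj => hDN _ j (Or.inr hj))
  refine (Finset.sum_le_sum hstep).trans ?_
  rw [← Finset.mul_sum]
  have h := fst (fun i => ∑ j ∈ Finset.range N, D i j) N m G hm hG
    hD1
    (fun i hi => Finset.sum_eq_zero fun j _ => hDN i j (Or.inl hi))
  have hG' : (G : ℝ) ≠ 0 := by exact_mod_cast hG.ne'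
  have e : (2 * m * ((G * L : ℕ) : ℝ) / G : ℝ) = 2 * M := by
    rw [hMdef]
    push_cast
    field_simp
  rw [e]
  exact mul_le_mul_of_nonneg_left h (by positivity)

end Pool.Agent.Work.MP_33c50c_an.SH
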