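import Mathlib
import Pool.Agent.Work.MP_33c50c_an.SH.Stmts

/-!
# A nearly optimal system has at least `k` elements
-/

namespace Pool.Agent.Work.MP_33c50c_an.SH

open scoped ComplexOrder

namespace NearX

variable {W : Type} [NormedAddCommGroup W] [InnerProductSpace ℂ W] {ι : Type}

theorem cons_orth {N : ℕ} {f : Fin N → W} (hf : Orthonormal ℂ f) {u : W} (hu : ‖u‖ = 1)
    (h : ∀ i, inner ℂ (f i) u = 0) :
    Orthonormal ℂ (Fin.cons (α := fun _ => W) u f : Fin (N + 1) → W) := by
  refine ⟨fun i => ?_, fun i j hij => ?_⟩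
  · refine Fin.cases ?_ (fun i => ?_) i
    · simpa using hu
    · simpa using hf.1 i
  · revert hij
    refine Fin.cases ?_ (fun i => ?_) i
    · refine Fin.cases ?_ (fun j => ?_) j
      · intro hij; exact absurd rfl hij
      · intro _
        show inner ℂ u (f j) = 0
        rw [← inner_conj_symm, h j, map_zero]
    · refine Fin.cases ?_ (fun j => ?_) j
      · intro _
        exact h i
      · intro hij
        have hne : i ≠ j := fun h' => hij (congrArg Fin.succ h')
        exact hf.2 hne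

theorem cons_rz {N : ℕ} (S : Sys W ι) (lam : ℝ) (f : Fin N → W) (u : W) :
    rz S lam (Fin.cons (α := fun _ => W) u f : Fin (N + 1) → W) = (lam - en S u) + rz S lam f := by
  unfold rz
  rw [Fin.sum_univ_succ]
  rfl

/-- a unit vector in the span of `l` which is orthogonal to `f` -/
theorem exists_vec {N k : ℕ} (hNk : N < k) (f : Fin N → W) (l : Fin k → W)
    (hl : Orthonormal ℂ l) : ∃ c : Fin k → ℂ, ‖∑ i, c i • l i‖ = 1 ∧
      ∀ i, inner ℂ (f i) (∑ j, c j • l j) = 0 := by
  let L : (Fin k → ℂ) →ₗ[ℂ] (Fin N → ℂ) :=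
    { toFun := fun c i => inner ℂ (f i) (∑ j, c j • l j)
      map_add' := by
        intro c c'
        funext i
        simp only [Pi.add_apply, add_smul, Finset.sum_add_distrib, inner_add_right]
      map_smul' := by
        intro t c
        funext i
        simp only [Pi.smul_apply, smul_eq_mul, RingHom.id_apply, mul_smul, ← Finset.smul_sum,
          inner_smul_right] }
  have hker : LinearMap.ker L ≠ ⊥ := by
    apply LinearMap.ker_ne_bot_of_finrank_lt
    simpa using hNk
  obtain ⟨c, hc, hc0⟩ := Submodule.exists_mem_ne_zero_of_ne_bot hker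
  rw [LinearMap.mem_ker] at hc
  have hL : ∀ i, inner ℂ (f i) (∑ j, c j • l j) = 0 := fun i => congrFun hc i
  set v : W := ∑ j, c j • l j with hv
  have hv0 : v ≠ 0 := by
    intro h0
    apply hc0
    have := Fintype.linearIndependent_iff.1 hl.linearIndependent c h0
    funext i
    exact this i
  have hn : ‖v‖ ≠ 0 := norm_ne_zero_iff.2 hv0
  refine ⟨fun j => ((‖v‖⁻¹ : ℝ) : ℂ) * c j, ?_, fun i => ?_⟩
  · have e : ∑ j, (((‖v‖⁻¹ : ℝ) : ℂ) * c j) • l j = ((‖v‖⁻¹ : ℝ) : ℂ) • v := by
      rw [hv, Finset.smul_sum]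
      exact Finset.sum_congr rfl fun j _ => mul_smul _ _ _
    rw [e, norm_smul, Complex.norm_real, norm_inv, norm_norm, inv_mul_cancel₀ hn]
  · have e : ∑ j, (((‖v‖⁻¹ : ℝ) : ℂ) * c j) • l j = ((‖v‖⁻¹ : ℝ) : ℂ) • v := by
      rw [hv, Finset.smul_sum]
      exact Finset.sum_congr rfl fun j _ => mul_smul _ _ _
    rw [e, inner_smul_right, hL i, mul_zero]

end NearX

open NearX in
theorem p_Near : Near := by
  intro W _ _ ι S lam lam0 ε hε hε' hB k l hl hen
  obtain ⟨B, hB⟩ := hB
  let A : Set ℝ := {r | ∃ (N : ℕ) (f : Fin N → W), Orthonormal ℂ f ∧ r = rz S lam f}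
  have hne : A.Nonempty := by
    refine ⟨_, 0, Fin.elim0, ⟨fun i => i.elim0, fun i => i.elim0⟩, rfl⟩
  have hbd : BddAbove A := by
    refine ⟨B, ?_⟩
    rintro r ⟨N, f, hf, rfl⟩
    exact hB N f hf
  have hUb : Ub S lam (sSup A) := fun N f hf => le_csSup hbd ⟨N, f, hf, rfl⟩
  obtain ⟨r, ⟨N, f, hf, rfl⟩, hr⟩ := exists_lt_of_lt_csSup hne
    (show sSup A - ε < sSup A by linarith)
  refine ⟨sSup A, N, f, hUb, hf, hr.le, ?_⟩
  by_contra hlt
  push Not at hlt
  obtain ⟨c, hc1, hc2⟩ := exists_vec hlt f l hl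
  have h1 := hUb (N + 1) _ (cons_orth hf hc1 hc2)
  rw [cons_rz] at h1
  have h2 := hen c
  rw [hc1, one_pow, mul_one] at h2
  linarith

end Pool.Agent.Work.MP_33c50c_an.SH
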