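import Mathlib
import Pool.Agent.Work.MP_33c50c_an.SH.Stmts

/-!
# Bessel's inequality with the function and its derivatives
-/

set_option linter.unusedVariables false

namespace Pool.Agent.Work.MP_33c50c_an.SH

namespace PntX

theorem arith (V G t : ℝ) (hV : 0 ≤ V) (hG : 0 ≤ G) (h : t ^ 2 ≤ V * G) : 2 * t ≤ V + G := by
  by_contra hc
  have h1 : 0 < 2 * t - (V + G) := by linarith [not_le.1 hc]
  have h2 : 0 < 2 * t + (V + G) := by linarith [not_le.1 hc]
  nlinarith [mul_pos h1 h2, sq_nonneg (V - G)]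

theorem arith2 (a b u v n : ℝ) (hn : 0 ≤ n) (h : n ≤ |a| * u + |b| * v) :
    n ^ 2 ≤ (a ^ 2 + b ^ 2) * (u ^ 2 + v ^ 2) := by
  have h1 : n ^ 2 ≤ (|a| * u + |b| * v) ^ 2 := pow_le_pow_left₀ hn h 2
  nlinarith [sq_nonneg (|a| * v - |b| * u), sq_abs a, sq_abs b]

end PntX

theorem p_Pnt (h : SumsP) (h' : SymS) : Pnt := by
  intro W _ _ ι S N f hf p al be1 be2
  obtain ⟨-, -, -, hz⟩ := h W ι S N f hf
  have hz0 := hz p
  set w := ww S f p with hw
  set P : ℝ := ‖w‖ ^ 2 with hP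
  set q : ℝ := al + be1 * S.x p + be2 * S.y p with hq
  let y : W := (be1 : ℂ) • S.D1 w + (be2 : ℂ) • S.D2 w
  have e1 : S.z p ((al : ℂ) • w + y) = ((q * P : ℝ) : ℂ) := by
    rw [map_add, map_smul, map_add, map_smul, map_smul, S.z1, S.z2, hz0, smul_eq_mul, smul_eq_mul,
      smul_eq_mul, hq]
    push_cast
    ring
  have e2 := S.bess p ((al : ℂ) • w + y)
  rw [e1, Complex.norm_real, Real.norm_eq_abs, sq_abs] at e2
  have e3 := PntX.arith S.V (‖(al : ℂ) • w + y‖ ^ 2) (q * P) S.hV (sq_nonneg _) e2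
  have e4 : ‖(al : ℂ) • w + y‖ ^ 2 = al ^ 2 * P + 2 * (al * (be1 * M1 S w + be2 * M2 S w)) +
      ‖y‖ ^ 2 := by
    rw [norm_add_sq (𝕜 := ℂ), inner_smul_left, inner_add_right, inner_smul_right,
      inner_smul_right, Complex.conj_ofReal, norm_smul, Complex.norm_real, Real.norm_eq_abs,
      mul_pow, sq_abs]
    unfold M1 M2
    simp only [Complex.mul_re, Complex.add_re, Complex.ofReal_re, Complex.ofReal_im, zero_mul,
      sub_zero, RCLike.re_to_complex]
    rfl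
  have e5 : ‖y‖ ^ 2 ≤ (be1 ^ 2 + be2 ^ 2) * en S w := by
    unfold en
    apply PntX.arith2 _ _ _ _ _ (norm_nonneg _)
    refine (norm_add_le _ _).trans (le_of_eq ?_)
    rw [norm_smul, norm_smul, Complex.norm_real, Complex.norm_real, Real.norm_eq_abs,
      Real.norm_eq_abs]
  nlinarith [e3, e4, e5]

end Pool.Agent.Work.MP_33c50c_an.SH
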