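import Mathlib
import Pool.Agent.Work.MP_33c50c_an.SH.Stmts

/-!
# Polarised Parseval identity
-/

namespace Pool.Agent.Work.MP_33c50c_an.SH

namespace PolPX

theorem re_sum {W : Type} [NormedAddCommGroup W] [InnerProductSpace ℂ W] {ι : Type}
    (S : Sys W ι) (f g : W) :
    HasSum (fun p => ((starRingEnd ℂ) (S.z p f) * S.z p g).re) (S.C * (inner ℂ f g).re) := by
  have h1 := S.pars (f + g)
  have h2 := S.pars f
  have h3 := S.pars g
  have h4 := ((h1.sub h2).sub h3).mul_left (1 / 2)
  have e1 : (fun p => 1 / 2 * (‖S.z p (f + g)‖ ^ 2 - ‖S.z p f‖ ^ 2 - ‖S.z p g‖ ^ 2)) =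
      fun p => ((starRingEnd ℂ) (S.z p f) * S.z p g).re := by
    funext p
    rw [map_add]
    have h5 : ∀ a b : ℂ, ‖a + b‖ ^ 2 = ‖a‖ ^ 2 + ‖b‖ ^ 2 + 2 * ((starRingEnd ℂ) a * b).re := by
      intro a b
      rw [← Complex.normSq_eq_norm_sq, ← Complex.normSq_eq_norm_sq, ← Complex.normSq_eq_norm_sq,
        Complex.normSq_apply, Complex.normSq_apply, Complex.normSq_apply]
      simp only [Complex.add_re, Complex.add_im, Complex.mul_re, Complex.conj_re, Complex.conj_im]
      ring
    rw [h5]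
    ring
  have e2 : 1 / 2 * (S.C * ‖f + g‖ ^ 2 - S.C * ‖f‖ ^ 2 - S.C * ‖g‖ ^ 2) =
      S.C * (inner ℂ f g).re := by
    have h6 := norm_add_sq (𝕜 := ℂ) f g
    have h7 : RCLike.re (inner ℂ f g) = (inner ℂ f g).re := rfl
    rw [h7] at h6
    rw [h6]
    ring
  rw [e1, e2] at h4
  exact h4

end PolPX

theorem p_PolP : PolP := by
  intro W _ _ ι S f g
  rw [Complex.hasSum_iff]
  constructor
  · have h := PolPX.re_sum S f g
    have e : ((S.C : ℂ) * inner ℂ f g).re = S.C * (inner ℂ f g).re := by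
      simp [Complex.mul_re]
    rw [e]
    exact h
  · have h := PolPX.re_sum S f (-(Complex.I • g))
    have e1 : (fun p => ((starRingEnd ℂ) (S.z p f) * S.z p (-(Complex.I • g))).re) =
        fun p => ((starRingEnd ℂ) (S.z p f) * S.z p g).im := by
      funext p
      rw [map_neg, map_smul, smul_eq_mul]
      simp only [Complex.mul_re, Complex.mul_im, Complex.neg_re, Complex.neg_im, Complex.I_re,
        Complex.I_im, Complex.conj_re, Complex.conj_im]
      ring
    have e2 : S.C * (inner ℂ f (-(Complex.I • g))).re = ((S.C : ℂ) * inner ℂ f g).im := by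
      rw [inner_neg_right, inner_smul_right]
      simp [Complex.mul_im]
    rw [e1, e2] at h
    exact h

end Pool.Agent.Work.MP_33c50c_an.SH
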