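import Mathlib
import Pool.Agent.Work.MP_33c50c_an.BLY.Wf
import Pool.Agent.Work.MP_33c50c_an.BLY.Core
import Pool.Agent.Work.MP_33c50c_an.SH.Defs

/-!
# The complex test functions on the cylinder
-/

namespace Pool.Agent.Work.MP_33c50c_an.SH

open MeasureTheory Set BLY
open scoped ENNReal ContDiff ComplexConjugate

/-- The complex test functions of `Ω`, supported in `|y| < π K`. -/
def tfSub (Ω : Set Cyl) (K : ℝ) : Submodule ℂ (Cyl → ℂ) where
  carrier := {f | ContDiff ℝ ∞ (lft f) ∧ HasCompactSupport f ∧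
    tsupport f ⊆ Ω ∩ {p : Cyl | |p.2| < Real.pi * K}}
  zero_mem' := by
    refine ⟨contDiff_const, HasCompactSupport.zero, ?_⟩
    have : tsupport (0 : Cyl → ℂ) = ∅ := by
      rw [tsupport_eq_empty_iff]
    rw [this]; exact empty_subset _
  add_mem' := by
    rintro f g ⟨h1, h2, h3⟩ ⟨g1, g2, g3⟩
    refine ⟨h1.add g1, h2.add g2, ?_⟩
    exact (tsupport_add f g).trans (union_subset h3 g3)
  smul_mem' := by
    rintro c f ⟨h1, h2, h3⟩
    refine ⟨contDiff_const.mul h1, h2.smul_left (f := fun _ => c), ?_⟩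
    exact (tsupport_smul_subset_right (fun _ => c) f).trans h3

/-- The type of the test functions. -/
def TF (Ω : Set Cyl) (K : ℝ) : Type := tfSub Ω K

noncomputable instance (Ω : Set Cyl) (K : ℝ) : AddCommGroup (TF Ω K) :=
  inferInstanceAs (AddCommGroup (tfSub Ω K))

noncomputable instance (Ω : Set Cyl) (K : ℝ) : Module ℂ (TF Ω K) :=
  inferInstanceAs (Module ℂ (tfSub Ω K))

variable {Ω : Set Cyl} {K : ℝ}

/-- the function. -/
def TF.fn (f : TF Ω K) : Cyl → ℂ := f.1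

lemma TF.ext' {f g : TF Ω K} (h : f.fn = g.fn) : f = g := Subtype.ext h

lemma TF.fn_add (f g : TF Ω K) : (f + g).fn = f.fn + g.fn := rfl

lemma TF.fn_smul (c : ℂ) (f : TF Ω K) : (c • f).fn = c • f.fn := rfl

lemma TF.fn_sub (f g : TF Ω K) : (f - g).fn = f.fn - g.fn := rfl

lemma TF.smooth (f : TF Ω K) : ContDiff ℝ ∞ (lft f.fn) := f.2.1

lemma TF.c1 (f : TF Ω K) : ContDiff ℝ 1 (lft f.fn) := f.2.1.of_le (by exact_mod_cast le_top)

lemma TF.cs (f : TF Ω K) : HasCompactSupport f.fn := f.2.2.1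

lemma TF.sub (f : TF Ω K) : tsupport f.fn ⊆ Ω ∩ {p : Cyl | |p.2| < Real.pi * K} := f.2.2.2

lemma TF.cont (f : TF Ω K) : Continuous f.fn := cont_f _ f.c1

lemma TF.int (f g : TF Ω K) : Integrable (fun p => conj (f.fn p) * g.fn p) (volume : Measure Cyl) :=
  ((Complex.continuous_conj.comp f.cont).mul g.cont).integrable_of_hasCompactSupport g.cs.mul_left

lemma int_ofReal (g : Cyl → ℝ) : ∫ p, ((g p : ℝ) : ℂ) = ((∫ p, g p : ℝ) : ℂ) := integral_ofReal

/-- The `L²` inner product. -/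
noncomputable instance core (Ω : Set Cyl) (K : ℝ) : InnerProductSpace.Core ℂ (TF Ω K) where
  inner f g := ∫ p, conj (f.fn p) * g.fn p
  conj_inner_symm f g := by
    show conj (∫ p, conj (g.fn p) * f.fn p) = ∫ p, conj (f.fn p) * g.fn p
    rw [← integral_conj]
    congr 1; ext p
    rw [map_mul, Complex.conj_conj, mul_comm]
  re_inner_nonneg f := by
    show 0 ≤ RCLike.re (∫ p, conj (f.fn p) * f.fn p)
    have e : ∀ p, conj (f.fn p) * f.fn p = ((‖f.fn p‖ ^ 2 : ℝ) : ℂ) := by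
      intro p; rw [mul_comm, Complex.mul_conj, Complex.normSq_eq_norm_sq]
    simp_rw [e]
    rw [int_ofReal]
    show 0 ≤ (((∫ p, ‖f.fn p‖ ^ 2 : ℝ) : ℂ)).re
    rw [Complex.ofReal_re]
    exact integral_nonneg (fun p => sq_nonneg _)
  add_left f g h := by
    show ∫ p, conj ((f + g).fn p) * h.fn p = (∫ p, conj (f.fn p) * h.fn p) + ∫ p, conj (g.fn p) * h.fn p
    rw [← integral_add (f.int h) (g.int h)]
    congr 1; ext p
    rw [TF.fn_add, Pi.add_apply, map_add, add_mul]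
  smul_left f g c := by
    show ∫ p, conj ((c • f).fn p) * g.fn p = conj c * ∫ p, conj (f.fn p) * g.fn p
    rw [← integral_const_mul]
    congr 1; ext p
    rw [TF.fn_smul, Pi.smul_apply, smul_eq_mul, map_mul, mul_assoc]
  definite f h := by
    have e : ∀ p, conj (f.fn p) * f.fn p = ((‖f.fn p‖ ^ 2 : ℝ) : ℂ) := by
      intro p; rw [mul_comm, Complex.mul_conj, Complex.normSq_eq_norm_sq]
    have h' : ∫ p, conj (f.fn p) * f.fn p = 0 := h
    simp_rw [e] at h'
    rw [int_ofReal] at h'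
    have h2 : ∫ p, ‖f.fn p‖ ^ 2 = 0 := by exact_mod_cast h'
    apply TF.ext'
    by_contra hne
    obtain ⟨x, hx⟩ := Function.ne_iff.mp hne
    have hpos : 0 < ∫ p, ‖f.fn p‖ ^ 2 := by
      apply Continuous.integral_pos_of_hasCompactSupport_nonneg_nonzero (x := x)
        (f.cont.norm.pow 2)
      · apply HasCompactSupport.of_support_subset_isCompact f.cs
        intro p hp
        apply subset_tsupport
        intro h
        apply hp
        show ‖f.fn p‖ ^ 2 = 0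
        rw [h]; simp
      · intro p; exact sq_nonneg _
      · have : f.fn x ≠ 0 := hx
        exact pow_ne_zero 2 (norm_ne_zero_iff.mpr this)
    linarith

noncomputable instance (Ω : Set Cyl) (K : ℝ) : NormedAddCommGroup (TF Ω K) :=
  InnerProductSpace.Core.toNormedAddCommGroup (cd := core Ω K)

noncomputable instance (Ω : Set Cyl) (K : ℝ) : InnerProductSpace ℂ (TF Ω K) :=
  InnerProductSpace.ofCore (core Ω K).toCore

lemma TF.inner_def (f g : TF Ω K) : inner ℂ f g = ∫ p, conj (f.fn p) * g.fn p := rfl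

lemma TF.norm_sq (f : TF Ω K) : ‖f‖ ^ 2 = ∫ p, ‖f.fn p‖ ^ 2 := by
  have h := inner_self_eq_norm_sq_to_K (𝕜 := ℂ) f
  rw [TF.inner_def] at h
  have e : ∀ p, conj (f.fn p) * f.fn p = ((‖f.fn p‖ ^ 2 : ℝ) : ℂ) := by
    intro p; rw [mul_comm, Complex.mul_conj, Complex.normSq_eq_norm_sq]
  simp_rw [e] at h
  rw [int_ofReal] at h
  have h2 : ((∫ p, ‖f.fn p‖ ^ 2 : ℝ) : ℂ) = ((‖f‖ ^ 2 : ℝ) : ℂ) := by
    rw [h]; push_cast; rfl
  exact (Complex.ofReal_injective h2).symm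

/-- smoothness of the derivatives. -/
lemma smooth_dX {f : Cyl → ℂ} (hf : ContDiff ℝ ∞ (lft f)) : ContDiff ℝ ∞ (lft (dX f)) := by
  have h1 : ContDiff ℝ 1 (lft f) := hf.of_le (by exact_mod_cast le_top)
  have h : lft (dX f) = fun q : ℝ × ℝ => fderiv ℝ (lft f) q (1, 0) := by
    ext q
    show dX f (pt q.1 q.2) = _
    rw [dX_pt, (hasDeriv_x' f h1 q.1 q.2).deriv]
  rw [h]
  exact (hf.fderiv_right (m := ∞) (by norm_num)).clm_apply contDiff_const

lemma smooth_dY {f : Cyl → ℂ} (hf : ContDiff ℝ ∞ (lft f)) : ContDiff ℝ ∞ (lft (dY f)) := by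
  have h1 : ContDiff ℝ 1 (lft f) := hf.of_le (by exact_mod_cast le_top)
  have h : lft (dY f) = fun q : ℝ × ℝ => fderiv ℝ (lft f) q (0, 1) := by
    ext q
    show dY f (pt q.1 q.2) = _
    rw [dY_pt, (hasDeriv_y' f h1 q.1 q.2).deriv]
  rw [h]
  exact (hf.fderiv_right (m := ∞) (by norm_num)).clm_apply contDiff_const

lemma ts_dX (f : Cyl → ℂ) : tsupport (dX f) ⊆ tsupport f := by
  apply closure_minimal _ (isClosed_tsupport f)
  intro p hp
  exact dX_ne f p hp

lemma ts_dY (f : Cyl → ℂ) : tsupport (dY f) ⊆ tsupport f := by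
  apply closure_minimal _ (isClosed_tsupport f)
  intro p hp
  exact dY_ne f p hp

lemma mem_dX {f : Cyl → ℂ} (h : f ∈ tfSub Ω K) : dX f ∈ tfSub Ω K :=
  ⟨smooth_dX h.1, compact_dX f h.2.1, (ts_dX f).trans h.2.2⟩

lemma mem_dY {f : Cyl → ℂ} (h : f ∈ tfSub Ω K) : dY f ∈ tfSub Ω K :=
  ⟨smooth_dY h.1, compact_dY f h.2.1, (ts_dY f).trans h.2.2⟩

lemma dX_add' {f g : Cyl → ℂ} (hf : ContDiff ℝ 1 (lft f)) (hg : ContDiff ℝ 1 (lft g)) (p : Cyl) :
    dX (f + g) p = dX f p + dX g p := by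
  obtain ⟨x, hx⟩ := pt_surj p
  rw [← hx, dX_pt]
  exact ((hasDeriv_x f hf x p.2).add (hasDeriv_x g hg x p.2)).deriv

lemma dY_add' {f g : Cyl → ℂ} (hf : ContDiff ℝ 1 (lft f)) (hg : ContDiff ℝ 1 (lft g)) (p : Cyl) :
    dY (f + g) p = dY f p + dY g p := by
  obtain ⟨x, hx⟩ := pt_surj p
  rw [← hx, dY_pt]
  exact ((hasDeriv_y f hf x p.2).add (hasDeriv_y g hg x p.2)).deriv

lemma dX_smul' {f : Cyl → ℂ} (c : ℂ) (hf : ContDiff ℝ 1 (lft f)) (p : Cyl) :
    dX (c • f) p = c * dX f p := by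
  obtain ⟨x, hx⟩ := pt_surj p
  rw [← hx, dX_pt]
  exact ((hasDeriv_x f hf x p.2).const_mul c).deriv

lemma dY_smul' {f : Cyl → ℂ} (c : ℂ) (hf : ContDiff ℝ 1 (lft f)) (p : Cyl) :
    dY (c • f) p = c * dY f p := by
  obtain ⟨x, hx⟩ := pt_surj p
  rw [← hx, dY_pt]
  exact ((hasDeriv_y f hf x p.2).const_mul c).deriv

/-- the momentum operator `-i ∂_x`. -/
noncomputable def tD1 (Ω : Set Cyl) (K : ℝ) : TF Ω K →ₗ[ℂ] TF Ω K where
  toFun f := ⟨(-Complex.I) • dX f.fn, (tfSub Ω K).smul_mem _ (mem_dX f.2)⟩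
  map_add' f g := by
    apply Subtype.ext
    funext p
    show -Complex.I * dX (f.fn + g.fn) p = -Complex.I * dX f.fn p + -Complex.I * dX g.fn p
    rw [dX_add' f.c1 g.c1]; ring
  map_smul' c f := by
    apply Subtype.ext
    funext p
    show -Complex.I * dX (c • f.fn) p = c * (-Complex.I * dX f.fn p)
    rw [dX_smul' c f.c1]; ring

/-- the momentum operator `-i ∂_y`. -/
noncomputable def tD2 (Ω : Set Cyl) (K : ℝ) : TF Ω K →ₗ[ℂ] TF Ω K where
  toFun f := ⟨(-Complex.I) • dY f.fn, (tfSub Ω K).smul_mem _ (mem_dY f.2)⟩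
  map_add' f g := by
    apply Subtype.ext
    funext p
    show -Complex.I * dY (f.fn + g.fn) p = -Complex.I * dY f.fn p + -Complex.I * dY g.fn p
    rw [dY_add' f.c1 g.c1]; ring
  map_smul' c f := by
    apply Subtype.ext
    funext p
    show -Complex.I * dY (c • f.fn) p = c * (-Complex.I * dY f.fn p)
    rw [dY_smul' c f.c1]; ring

lemma tD1_fn (f : TF Ω K) (p : Cyl) : (tD1 Ω K f).fn p = -Complex.I * dX f.fn p := rfl

lemma tD2_fn (f : TF Ω K) (p : Cyl) : (tD2 Ω K f).fn p = -Complex.I * dY f.fn p := rfl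

/-- the Fourier coefficient. -/
noncomputable def tz (Ω : Set Cyl) (K : ℝ) (p : ℤ × ℤ) : TF Ω K →ₗ[ℂ] ℂ where
  toFun f := cf K f.fn p
  map_add' f g := by
    show ∫ q, chr p.1 ((p.2:ℝ) / K) q * (f.fn + g.fn) q =
      (∫ q, chr p.1 ((p.2:ℝ) / K) q * f.fn q) + ∫ q, chr p.1 ((p.2:ℝ) / K) q * g.fn q
    rw [← integral_add]
    · congr 1; ext q; rw [Pi.add_apply]; ring
    · exact ((chr_continuous _ _).mul f.cont).integrable_of_hasCompactSupport f.cs.mul_left
    · exact ((chr_continuous _ _).mul g.cont).integrable_of_hasCompactSupport g.cs.mul_left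
  map_smul' c f := by
    show ∫ q, chr p.1 ((p.2:ℝ) / K) q * (c • f.fn) q = c * ∫ q, chr p.1 ((p.2:ℝ) / K) q * f.fn q
    rw [← integral_const_mul]
    congr 1; ext q; rw [Pi.smul_apply, smul_eq_mul]; ring

end Pool.Agent.Work.MP_33c50c_an.SH
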