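import Mathlib
import Pool.Agent.Work.MP_33c50c_an.SH.Tf

/-!
# The momentum system of the test functions
-/

namespace Pool.Agent.Work.MP_33c50c_an.SH

open MeasureTheory Set BLY
open scoped ENNReal ContDiff ComplexConjugate

variable {Ω : Set Cyl} {K : ℝ}

lemma TF.out (f : TF Ω K) (p : Cyl) (hp : Real.pi * K ≤ |p.2|) : p ∉ tsupport f.fn := by
  intro h
  have := (f.sub h).2
  simp only [mem_setOf_eq] at this
  linarith

lemma tz_1 (hK : 0 < K) (p : ℤ × ℤ) (f : TF Ω K) :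
    tz Ω K p (tD1 Ω K f) = ((p.1 : ℝ) : ℂ) * tz Ω K p f := by
  have h := cf_dX K hK f.fn f.c1 f.cs f.out p
  have e : tz Ω K p (tD1 Ω K f) = -Complex.I * cf K (dX f.fn) p := by
    show ∫ q, chr p.1 ((p.2:ℝ) / K) q * (-Complex.I * dX f.fn q) = _
    unfold cf
    rw [← integral_const_mul]
    congr 1; ext q; ring
  rw [e, h]
  show -Complex.I * (Complex.I * p.1 * cf K f.fn p) = ((p.1 : ℝ) : ℂ) * cf K f.fn p
  have := Complex.I_mul_I
  push_cast
  linear_combination (-(p.1:ℂ) * cf K f.fn p) * this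

lemma tz_2 (hK : 0 < K) (p : ℤ × ℤ) (f : TF Ω K) :
    tz Ω K p (tD2 Ω K f) = (((p.2 : ℝ) / K : ℝ) : ℂ) * tz Ω K p f := by
  have h := cf_dY K hK f.fn f.c1 f.cs f.out p
  have e : tz Ω K p (tD2 Ω K f) = -Complex.I * cf K (dY f.fn) p := by
    show ∫ q, chr p.1 ((p.2:ℝ) / K) q * (-Complex.I * dY f.fn q) = _
    unfold cf
    rw [← integral_const_mul]
    congr 1; ext q; ring
  rw [e, h]
  show -Complex.I * (Complex.I * ((p.2:ℝ) / K : ℝ) * cf K f.fn p) = (((p.2 : ℝ) / K : ℝ) : ℂ) * cf K f.fn p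
  have := Complex.I_mul_I
  linear_combination (-(((p.2 : ℝ) / K : ℝ) : ℂ) * cf K f.fn p) * this

lemma tz_bess (hfin : volume Ω ≠ ⊤) (p : ℤ × ℤ) (f : TF Ω K) :
    ‖tz Ω K p f‖ ^ 2 ≤ (volume Ω).toReal * ‖f‖ ^ 2 := by
  rw [TF.norm_sq]
  set t := tsupport f.fn with ht
  have htm : MeasurableSet t := (isClosed_tsupport _).measurableSet
  have htΩ : t ⊆ Ω := fun q hq => (f.sub hq).1
  have htf : volume t ≠ ⊤ := ne_top_of_le_ne_top hfin (measure_mono htΩ)
  have i1 : Integrable (fun q => ‖f.fn q‖) (volume : Measure Cyl) :=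
    (f.cont.integrable_of_hasCompactSupport f.cs).norm
  have i2 : Integrable (fun q => ‖f.fn q‖ ^ 2) (volume : Measure Cyl) :=
    integrable_sq_norm f.fn f.cont f.cs
  set I1 := ∫ q, ‖f.fn q‖ with hI1
  set I2 := ∫ q, ‖f.fn q‖ ^ 2 with hI2
  have h1 : ‖tz Ω K p f‖ ≤ I1 := by
    show ‖∫ q, chr p.1 ((p.2:ℝ) / K) q * f.fn q‖ ≤ _
    refine (norm_integral_le_integral_norm _).trans (le_of_eq ?_)
    congr 1; ext q
    rw [norm_mul, chr_norm, one_mul]
  have hI10 : 0 ≤ I1 := integral_nonneg (fun _ => norm_nonneg _)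
  have hI20 : 0 ≤ I2 := integral_nonneg (fun _ => sq_nonneg _)
  set v := (volume t).toReal with hv
  have hv0 : 0 ≤ v := ENNReal.toReal_nonneg
  have hvV : v ≤ (volume Ω).toReal := ENNReal.toReal_mono hfin (measure_mono htΩ)
  have ht1 : ∫ q in t, ‖f.fn q‖ = I1 := by
    apply setIntegral_eq_integral_of_forall_compl_eq_zero
    intro q hq
    rw [image_eq_zero_of_notMem_tsupport hq, norm_zero]
  have ht2 : ∫ q in t, ‖f.fn q‖ ^ 2 = I2 := by
    apply setIntegral_eq_integral_of_forall_compl_eq_zero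
    intro q hq
    rw [image_eq_zero_of_notMem_tsupport hq, norm_zero]; simp
  have key : ∀ c : ℝ, 0 ≤ I2 - 2 * c * I1 + c ^ 2 * v := by
    intro c
    have h2 : 0 ≤ ∫ q in t, (‖f.fn q‖ - c) ^ 2 := integral_nonneg (fun _ => sq_nonneg _)
    have e : ∀ q, (‖f.fn q‖ - c) ^ 2 = ‖f.fn q‖ ^ 2 - 2 * c * ‖f.fn q‖ + c ^ 2 := fun q => by ring
    simp_rw [e] at h2
    rw [integral_add, integral_sub, integral_const_mul, setIntegral_const, ht1, ht2] at h2
    · rw [smul_eq_mul, mul_comm (volume.real t)] at h2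
      exact h2
    · exact i2.integrableOn
    · exact i1.integrableOn.const_mul _
    · exact i2.integrableOn.sub (i1.integrableOn.const_mul _)
    · exact integrableOn_const htf
  have hcs : I1 ^ 2 ≤ v * I2 := by
    rcases eq_or_lt_of_le hv0 with h0 | h0
    · by_contra hneg
      rw [not_le, ← h0, zero_mul] at hneg
      have hI1p : 0 < I1 := by
        rcases eq_or_lt_of_le hI10 with h | h
        · rw [← h] at hneg; norm_num at hneg
        · exact h
      have := key ((I2 + 1) / I1)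
      rw [← h0] at this
      have e : 2 * ((I2 + 1) / I1) * I1 = 2 * (I2 + 1) := by field_simp
      rw [e] at this
      nlinarith
    · have := key (I1 / v)
      have e : I2 - 2 * (I1 / v) * I1 + (I1 / v) ^ 2 * v = I2 - I1 ^ 2 / v := by
        field_simp; ring
      rw [e] at this
      have h3 : I1 ^ 2 / v ≤ I2 := by linarith
      rw [div_le_iff₀ h0] at h3
      linarith
  calc ‖tz Ω K p f‖ ^ 2 ≤ I1 ^ 2 := pow_le_pow_left₀ (norm_nonneg _) h1 2
    _ ≤ v * I2 := hcs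
    _ ≤ (volume Ω).toReal * I2 := mul_le_mul_of_nonneg_right hvV hI20

/-- the momentum system. -/
noncomputable def sysT (Ω : Set Cyl) (K : ℝ) (hK : 0 < K) (hfin : volume Ω ≠ ⊤) :
    Sys (TF Ω K) (ℤ × ℤ) where
  D1 := tD1 Ω K
  D2 := tD2 Ω K
  z := tz Ω K
  x p := (p.1 : ℝ)
  y p := (p.2 : ℝ) / K
  C := 4 * Real.pi ^ 2 * K
  V := (volume Ω).toReal
  hC := by positivity
  hV := ENNReal.toReal_nonneg
  z1 := tz_1 hK
  z2 := tz_2 hK
  pars f := by
    rw [TF.norm_sq]
    exact parseval K hK f.fn f.cont f.cs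
      (fun p hp => image_eq_zero_of_notMem_tsupport (f.out p hp))
  bess := tz_bess hfin
  fin r := qq_finite K hK r

lemma ph_smooth (ξ : ℝ) : ContDiff ℝ ∞ (ph ξ) := by
  unfold ph
  have h1 : ContDiff ℝ ∞ fun y : ℝ => ((ξ * y : ℝ) : ℂ) :=
    Complex.ofRealCLM.contDiff.comp (contDiff_const.mul contDiff_id)
  exact ((contDiff_const.mul h1).neg).cexp

lemma chr_smooth (n : ℤ) (ξ : ℝ) : ContDiff ℝ ∞ (lft (chr n ξ)) := by
  have : lft (chr n ξ) = fun q : ℝ × ℝ => ph n q.1 * ph ξ q.2 := by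
    ext q; exact chr_pt n ξ q.1 q.2
  rw [this]
  exact ((ph_smooth n).comp contDiff_fst).mul ((ph_smooth ξ).comp contDiff_snd)

/-- multiplication by a character. -/
noncomputable def tT (Ω : Set Cyl) (K : ℝ) (n : ℤ) (ξ : ℝ) : TF Ω K →ₗ[ℂ] TF Ω K where
  toFun f := ⟨fun p => chr n ξ p * f.fn p, by
    refine ⟨(chr_smooth n ξ).mul f.smooth, f.cs.mul_left, ?_⟩
    refine (closure_mono ?_).trans f.sub
    intro p hp hf
    exact hp (by show chr n ξ p * f.fn p = 0; rw [hf, mul_zero])⟩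
  map_add' f g := by
    apply Subtype.ext
    funext p
    show chr n ξ p * (f.fn p + g.fn p) = chr n ξ p * f.fn p + chr n ξ p * g.fn p
    ring
  map_smul' c f := by
    apply Subtype.ext
    funext p
    show chr n ξ p * (c * f.fn p) = c * (chr n ξ p * f.fn p)
    ring

/-- the shifts. -/
noncomputable def shT (Ω : Set Cyl) (K : ℝ) (hK : 0 < K) (hfin : volume Ω ≠ ⊤) (n : ℤ) (ξ : ℝ) :
    Shift (sysT Ω K hK hfin) n ξ where
  T := tT Ω K n ξ
  iso f g := by
    rw [TF.inner_def, TF.inner_def]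
    congr 1; ext p
    show conj (chr n ξ p * f.fn p) * (chr n ξ p * g.fn p) = conj (f.fn p) * g.fn p
    have h : conj (chr n ξ p) * chr n ξ p = 1 := by
      rw [mul_comm, Complex.mul_conj, Complex.normSq_eq_norm_sq, chr_norm]; simp
    rw [map_mul]
    linear_combination (conj (f.fn p) * g.fn p) * h
  t1 f := by
    apply TF.ext'
    funext p
    show -Complex.I * dX (fun p => chr n ξ p * f.fn p) p =
      chr n ξ p * (-Complex.I * dX f.fn p) - ((n:ℝ):ℂ) * (chr n ξ p * f.fn p)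
    rw [chr_dX n ξ f.fn f.c1]
    have := Complex.I_mul_I
    push_cast
    linear_combination (chr n ξ p * f.fn p * n) * this
  t2 f := by
    apply TF.ext'
    funext p
    show -Complex.I * dY (fun p => chr n ξ p * f.fn p) p =
      chr n ξ p * (-Complex.I * dY f.fn p) - ((ξ:ℝ):ℂ) * (chr n ξ p * f.fn p)
    rw [chr_dY n ξ f.fn f.c1]
    have := Complex.I_mul_I
    linear_combination (chr n ξ p * f.fn p * ξ) * this

end Pool.Agent.Work.MP_33c50c_an.SH
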