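import Mathlib
import Pool.Agent.Work.MP_33c50c_an.SH.SysT
import Pool.Agent.Work.MP_33c50c_an.BLY.Main

/-!
# From a real space of test functions to a complex orthonormal system
-/

namespace Pool.Agent.Work.MP_33c50c_an.SH

open MeasureTheory Set BLY
open scoped ENNReal ContDiff ComplexConjugate

lemma select1 (Ω : Set Cyl) (L : Submodule ℝ (Cyl → ℝ)) (k : ℕ)
    (hL : ∀ u ∈ L, IsTest Ω u) (hdim : Module.finrank ℝ L = k) (m : ℕ) (hm : m ≤ k) :
    ∃ u : ℕ → Cyl → ℝ, (∀ i < m, u i ∈ L) ∧
      ∀ i < m, ∀ j < m, ∫ p, u i p * u j p = if i = j then 1 else 0 := by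
  induction m with
  | zero => exact ⟨fun _ => 0, by simp, by simp⟩
  | succ m ih =>
    obtain ⟨u, hu1, hu2⟩ := ih (by omega)
    have hut : ∀ i < m, IsTest Ω (u i) := fun i hi => hL _ (hu1 i hi)
    let Φ : L →ₗ[ℝ] (Fin m → ℝ) :=
      { toFun := fun v i => ∫ p, (v : Cyl → ℝ) p * u i p
        map_add' := by
          intro v w
          ext i
          have h1 := test_prod (hL _ v.2) (hut i i.2)
          have h2 := test_prod (hL _ w.2) (hut i i.2)
          show ∫ p, ((v : Cyl → ℝ) + (w : Cyl → ℝ)) p * u i p =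
            (∫ p, (v : Cyl → ℝ) p * u i p) + ∫ p, (w : Cyl → ℝ) p * u i p
          rw [← integral_add h1 h2]
          congr 1; ext p
          simp only [Pi.add_apply]; ring
        map_smul' := by
          intro c v
          ext i
          show ∫ p, (c • (v : Cyl → ℝ)) p * u i p = c * ∫ p, (v : Cyl → ℝ) p * u i p
          rw [← integral_const_mul]
          congr 1; ext p
          simp only [Pi.smul_apply, smul_eq_mul]; ring }
    haveI : FiniteDimensional ℝ L := Module.finite_of_finrank_pos (by omega)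
    have hker := LinearMap.ker_ne_bot_of_finrank_lt (f := Φ) (by
      rw [hdim, Module.finrank_pi]; simp; omega)
    obtain ⟨v, hv, hv0⟩ := (Submodule.ne_bot_iff _).mp hker
    have hvne : (v : Cyl → ℝ) ≠ 0 := fun h => hv0 (Subtype.ext h)
    have hvt := hL _ v.2
    have hmp := mass_pos' hvt hvne
    have hvi : ∀ i < m, ∫ p, (v : Cyl → ℝ) p * u i p = 0 := by
      intro i hi
      have h1 : Φ v = 0 := hv
      exact congrFun h1 ⟨i, hi⟩
    set c := (Real.sqrt (mass (v : Cyl → ℝ)))⁻¹ with hc
    have hc2 : c * c * mass (v : Cyl → ℝ) = 1 := by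
      rw [hc, ← mul_inv, Real.mul_self_sqrt hmp.le, inv_mul_cancel₀ hmp.ne']
    refine ⟨fun i => if i = m then c • (v : Cyl → ℝ) else u i, ?_, ?_⟩
    · intro i hi
      by_cases h : i = m
      · simp only [h, if_true]; exact L.smul_mem c v.2
      · simp only [h, if_false]; exact hu1 i (by omega)
    · intro i hi j hj
      by_cases h : i = m
      · by_cases h' : j = m
        · simp only [h, h', if_true, Pi.smul_apply, smul_eq_mul]
          rw [← hc2]
          unfold mass
          rw [← integral_const_mul]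
          congr 1; ext p; ring
        · have hjk : j < m := by omega
          have hne : m ≠ j := fun h'' => h' h''.symm
          simp only [h, h', hne, if_true, if_false, Pi.smul_apply, smul_eq_mul]
          have := hvi j hjk
          calc ∫ p, c * (v : Cyl → ℝ) p * u j p = ∫ p, c * ((v : Cyl → ℝ) p * u j p) := by
                congr 1; ext p; ring
            _ = 0 := by rw [integral_const_mul, this, mul_zero]
      · by_cases h' : j = m
        · have hik : i < m := by omega
          simp only [h, h', if_true, if_false, Pi.smul_apply, smul_eq_mul]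
          have := hvi i hik
          calc ∫ p, u i p * (c * (v : Cyl → ℝ) p) = ∫ p, c * ((v : Cyl → ℝ) p * u i p) := by
                congr 1; ext p; ring
            _ = 0 := by rw [integral_const_mul, this, mul_zero]
        · simp only [h, h', if_false]
          exact hu2 i (by omega) j (by omega)

/-- a real test function as a complex one. -/
noncomputable def toTF {Ω : Set Cyl} {K : ℝ} (u : Cyl → ℝ) (hu : IsTest Ω u)
    (h : ∀ p ∈ tsupport u, |p.2| < Real.pi * K) : TF Ω K :=
  ⟨fun p => (u p : ℂ), Complex.ofRealCLM.contDiff.comp hu.1,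
    hu.2.1.comp_left (g := fun x : ℝ => (x : ℂ)) (by simp), by
      have h1 : tsupport (fun p => (u p : ℂ)) ⊆ tsupport u := by
        apply closure_minimal _ (isClosed_tsupport u)
        intro q hq
        apply subset_tsupport
        intro h'
        apply hq
        show ((u q : ℝ) : ℂ) = 0
        rw [h']; simp
      intro p hp
      exact ⟨hu.2.2 (h1 hp), h p (h1 hp)⟩⟩

lemma sum_fn {Ω : Set Cyl} {K : ℝ} {k : ℕ} (l : Fin k → TF Ω K) (c : Fin k → ℂ) (p : Cyl) :
    (∑ i, c i • l i).fn p = ∑ i, c i * (l i).fn p := by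
  have : ∀ s : Finset (Fin k), (∑ i ∈ s, c i • l i).fn p = ∑ i ∈ s, c i * (l i).fn p := by
    intro s
    induction s using Finset.induction_on with
    | empty => simp; rfl
    | insert a s ha ih =>
      rw [Finset.sum_insert ha, Finset.sum_insert ha, TF.fn_add, Pi.add_apply, ih]
      rfl
  exact this Finset.univ

/-- the complex orthonormal system. -/
theorem realC (Ω : Set Cyl) (hfin : volume Ω ≠ ⊤) (L : Submodule ℝ (Cyl → ℝ)) (k : ℕ)
    (hL : ∀ u ∈ L, IsTest Ω u) (hdim : Module.finrank ℝ L = k) (lam0 : ℝ)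
    (he : ∀ u ∈ L, energy u ≤ lam0 * mass u) :
    ∃ K0 : ℕ, ∀ K : ℕ, K0 ≤ K → ∀ hK : (0:ℝ) < K, ∃ l : Fin k → TF Ω K, Orthonormal ℂ l ∧
      ∀ c : Fin k → ℂ, en (sysT Ω K hK hfin) (∑ i, c i • l i) ≤ lam0 * ‖∑ i, c i • l i‖ ^ 2 := by
  obtain ⟨u, hu1, hu2⟩ := select1 Ω L k hL hdim k le_rfl
  have hut : ∀ i : Fin k, IsTest Ω (u i) := fun i => hL _ (hu1 i i.2)
  obtain ⟨B, hB⟩ : ∃ B : ℝ, ∀ p ∈ ⋃ i : Fin k, tsupport (u i), |p.2| ≤ B := by
    obtain ⟨B, hB⟩ := ((isCompact_iUnion (fun i : Fin k => (hut i).2.1)).image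
      continuous_snd).isBounded.exists_norm_le
    exact ⟨B, fun p hp => hB p.2 ⟨p, hp, rfl⟩⟩
  refine ⟨⌈|B|⌉₊ + 1, fun K hKK hK => ?_⟩
  have hKB : |B| < Real.pi * K := by
    have h1 : (⌈|B|⌉₊ : ℝ) + 1 ≤ K := by exact_mod_cast hKK
    have h2 := Nat.le_ceil |B|
    have h3 := Real.pi_gt_three
    nlinarith
  have hout : ∀ i : Fin k, ∀ p ∈ tsupport (u i), |p.2| < Real.pi * K := by
    intro i p hp
    have := hB p (mem_iUnion_of_mem i hp)
    have := le_abs_self B
    linarith
  refine ⟨fun i => toTF (u i) (hut i) (hout i), ?_, ?_⟩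
  · rw [orthonormal_iff_ite]
    intro i j
    rw [TF.inner_def]
    have e : ∀ p, conj ((toTF (K := K) (u i) (hut i) (hout i)).fn p) *
        (toTF (K := K) (u j) (hut j) (hout j)).fn p = ((u i p * u j p : ℝ) : ℂ) := by
      intro p
      show conj ((u i p : ℝ) : ℂ) * ((u j p : ℝ) : ℂ) = _
      rw [Complex.conj_ofReal]; push_cast; rfl
    simp_rw [e]
    rw [int_ofReal, hu2 i i.2 j j.2]
    by_cases h : i = j
    · simp [h]
    · have : (i:ℕ) ≠ j := fun h' => h (Fin.ext h')
      simp [h, this]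
  · intro c
    set f : TF Ω K := ∑ i, c i • toTF (K := K) (u i) (hut i) (hout i) with hf
    set U : Cyl → ℝ := ∑ i : Fin k, (c i).re • u i with hU
    set V : Cyl → ℝ := ∑ i : Fin k, (c i).im • u i with hV
    have hUL : U ∈ L := L.sum_mem (fun i _ => L.smul_mem _ (hu1 i i.2))
    have hVL : V ∈ L := L.sum_mem (fun i _ => L.smul_mem _ (hu1 i i.2))
    have hUt := hL U hUL
    have hVt := hL V hVL
    have hfe : f.fn = cplx U V := by
      funext p
      rw [hf, sum_fn]
      show ∑ i, c i * ((u i p : ℝ) : ℂ) = ((U p : ℝ) : ℂ) + ((V p : ℝ) : ℂ) * Complex.I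
      rw [hU, hV, Finset.sum_apply, Finset.sum_apply]
      push_cast
      rw [Finset.sum_mul, ← Finset.sum_add_distrib]
      apply Finset.sum_congr rfl
      intro i _
      simp only [Pi.smul_apply, smul_eq_mul]
      push_cast
      conv_lhs => rw [← Complex.re_add_im (c i)]
      ring
    have n0 : ∀ p, ‖f.fn p‖ ^ 2 = U p ^ 2 + V p ^ 2 := by
      intro p
      rw [hfe]
      show ‖((U p : ℝ) : ℂ) + ((V p : ℝ) : ℂ) * Complex.I‖ ^ 2 = _
      rw [← Complex.normSq_eq_norm_sq, Complex.normSq_add_mul_I]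
    have nX : ∀ p, ‖(tD1 Ω K f).fn p‖ ^ 2 = dX U p ^ 2 + dX V p ^ 2 := by
      intro p
      rw [tD1_fn, hfe, dX_cplx U V (test_lft hUt) (test_lft hVt), norm_mul, norm_neg,
        Complex.norm_I, one_mul, ← Complex.normSq_eq_norm_sq, Complex.normSq_add_mul_I]
    have nY : ∀ p, ‖(tD2 Ω K f).fn p‖ ^ 2 = dY U p ^ 2 + dY V p ^ 2 := by
      intro p
      rw [tD2_fn, hfe, dY_cplx U V (test_lft hUt) (test_lft hVt), norm_mul, norm_neg,
        Complex.norm_I, one_mul, ← Complex.normSq_eq_norm_sq, Complex.normSq_add_mul_I]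
    have cU := test_lft hUt
    have cV := test_lft hVt
    have iU := integrable_sq _ (cont_f _ cU) hUt.2.1
    have iV := integrable_sq _ (cont_f _ cV) hVt.2.1
    have iUx := integrable_sq _ (cont_dX _ cU) (compact_dX _ hUt.2.1)
    have iVx := integrable_sq _ (cont_dX _ cV) (compact_dX _ hVt.2.1)
    have iUy := integrable_sq _ (cont_dY _ cU) (compact_dY _ hUt.2.1)
    have iVy := integrable_sq _ (cont_dY _ cV) (compact_dY _ hVt.2.1)
    have e0 : ‖f‖ ^ 2 = mass U + mass V := by
      rw [TF.norm_sq]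
      simp_rw [n0]
      exact integral_add iU iV
    have e1 : en (sysT Ω K hK hfin) f = energy U + energy V := by
      show ‖tD1 Ω K f‖ ^ 2 + ‖tD2 Ω K f‖ ^ 2 = _
      rw [TF.norm_sq, TF.norm_sq]
      simp_rw [nX, nY]
      unfold energy
      rw [integral_add iUx iVx, integral_add iUy iVy, integral_add iUx iUy, integral_add iVx iVy]
      ring
    rw [e0, e1]
    have h1 := he U hUL
    have h2 := he V hVL
    linarith

end Pool.Agent.Work.MP_33c50c_an.SH
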