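import Mathlib
import Pool.Agent.Work.MP_33c50c_an.SH.Stmts

/-!
# Sums over the frequencies
-/

namespace Pool.Agent.Work.MP_33c50c_an.SH

namespace SumsPX

variable {W : Type} [NormedAddCommGroup W] [InnerProductSpace ℂ W] {ι : Type}

theorem normsq (v : W) : ‖v‖ ^ 2 = (inner ℂ v v).re := by
  rw [inner_self_eq_norm_sq_to_K]
  norm_cast

theorem quad (h : PolP) (S : Sys W ι) {N : ℕ} (f g : Fin N → W) (hf : Orthonormal ℂ f) :
    HasSum (fun p => ‖∑ i, (starRingEnd ℂ (S.z p (f i))) • g i‖ ^ 2)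
      (S.C * ∑ i, ‖g i‖ ^ 2) := by
  have h1 : ∀ p, ‖∑ i, (starRingEnd ℂ (S.z p (f i))) • g i‖ ^ 2 =
      (∑ i, ∑ j, (starRingEnd ℂ (S.z p (f j)) * S.z p (f i)) * inner ℂ (g i) (g j)).re := by
    intro p
    rw [normsq, sum_inner]
    congr 1
    refine Finset.sum_congr rfl fun i _ => ?_
    rw [inner_sum]
    refine Finset.sum_congr rfl fun j _ => ?_
    rw [inner_smul_left, inner_smul_right, Complex.conj_conj]
    ring
  have h2 : HasSum (fun p => ∑ i, ∑ j, (starRingEnd ℂ (S.z p (f j)) * S.z p (f i)) *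
      inner ℂ (g i) (g j))
      (∑ i, ∑ j, ((S.C : ℂ) * inner ℂ (f j) (f i)) * inner ℂ (g i) (g j)) :=
    hasSum_sum fun i _ => hasSum_sum fun j _ => (h W ι S (f j) (f i)).mul_right _
  have h3 : (∑ i, ∑ j, ((S.C : ℂ) * inner ℂ (f j) (f i)) * inner ℂ (g i) (g j)).re =
      S.C * ∑ i, ‖g i‖ ^ 2 := by
    rw [Complex.re_sum, Finset.mul_sum]
    refine Finset.sum_congr rfl fun i _ => ?_
    rw [Finset.sum_eq_single i]
    · rw [orthonormal_iff_ite.1 hf i i, if_pos rfl, mul_one, Complex.re_ofReal_mul, normsq]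
    · intro j _ hj
      rw [orthonormal_iff_ite.1 hf j i, if_neg hj, mul_zero, zero_mul]
    · intro hi
      exact absurd (Finset.mem_univ i) hi
  have h4 := Complex.hasSum_re h2
  rw [h3] at h4
  simpa only [h1] using h4

theorem nw (S : Sys W ι) {N : ℕ} (f : Fin N → W) (hf : Orthonormal ℂ f) (p : ι) :
    ‖ww S f p‖ ^ 2 = ∑ i, ‖S.z p (f i)‖ ^ 2 := by
  rw [normsq, ww, hf.inner_sum, Complex.re_sum]
  refine Finset.sum_congr rfl fun i _ => ?_
  rw [Complex.conj_conj, Complex.mul_conj, Complex.ofReal_re, Complex.normSq_eq_norm_sq]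

end SumsPX

open SumsPX

theorem p_SumsP (h : PolP) : SumsP := by
  intro W _ _ ι S N f hf
  refine ⟨?_, ?_, ?_, ?_⟩
  · have h1 : HasSum (fun p => ∑ i, ‖S.z p (f i)‖ ^ 2) (∑ i, S.C * ‖f i‖ ^ 2) :=
      hasSum_sum fun i _ => S.pars (f i)
    have h2 : ∑ i, S.C * ‖f i‖ ^ 2 = S.C * N := by
      simp only [hf.1, one_pow, mul_one, Finset.sum_const, Finset.card_univ, Fintype.card_fin,
        nsmul_eq_mul]
      ring
    rw [h2] at h1
    simpa only [nw S f hf] using h1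
  · have h1 : HasSum (fun p => ∑ i, (‖S.z p (S.D1 (f i))‖ ^ 2 + ‖S.z p (S.D2 (f i))‖ ^ 2))
        (∑ i, (S.C * ‖S.D1 (f i)‖ ^ 2 + S.C * ‖S.D2 (f i)‖ ^ 2)) :=
      hasSum_sum fun i _ => (S.pars (S.D1 (f i))).add (S.pars (S.D2 (f i)))
    have h2 : ∑ i, (S.C * ‖S.D1 (f i)‖ ^ 2 + S.C * ‖S.D2 (f i)‖ ^ 2) =
        S.C * ∑ i, en S (f i) := by
      rw [Finset.mul_sum]
      refine Finset.sum_congr rfl fun i _ => ?_
      rw [en]
      ring
    rw [h2] at h1
    have h3 : ∀ p, (S.x p ^ 2 + S.y p ^ 2) * ‖ww S f p‖ ^ 2 =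
        ∑ i, (‖S.z p (S.D1 (f i))‖ ^ 2 + ‖S.z p (S.D2 (f i))‖ ^ 2) := by
      intro p
      rw [nw S f hf, Finset.mul_sum]
      refine Finset.sum_congr rfl fun i _ => ?_
      rw [S.z1, S.z2, norm_mul, norm_mul, Complex.norm_real, Complex.norm_real, mul_pow, mul_pow,
        Real.norm_eq_abs, Real.norm_eq_abs, sq_abs, sq_abs]
      ring
    simpa only [h3] using h1
  · have h1 := (quad h S f (fun i => S.D1 (f i)) hf).add (quad h S f (fun i => S.D2 (f i)) hf)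
    have h2 : S.C * ∑ i, ‖S.D1 (f i)‖ ^ 2 + S.C * ∑ i, ‖S.D2 (f i)‖ ^ 2 =
        S.C * ∑ i, en S (f i) := by
      rw [← mul_add, ← Finset.sum_add_distrib]
      rfl
    rw [h2] at h1
    have h3 : ∀ p, en S (ww S f p) = ‖∑ i, (starRingEnd ℂ (S.z p (f i))) • S.D1 (f i)‖ ^ 2 +
        ‖∑ i, (starRingEnd ℂ (S.z p (f i))) • S.D2 (f i)‖ ^ 2 := by
      intro p
      rw [en, ww, map_sum, map_sum]
      simp only [map_smul]
    simpa only [h3] using h1
  · intro p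
    rw [nw S f hf, ww, map_sum, Complex.ofReal_sum]
    refine Finset.sum_congr rfl fun i _ => ?_
    rw [map_smul, smul_eq_mul, mul_comm, Complex.mul_conj, Complex.normSq_eq_norm_sq]

end Pool.Agent.Work.MP_33c50c_an.SH
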