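import Mathlib
import Pool.Agent.Work.MP_33c50c_an.SH.Stmts

/-!
# The momentum operators are symmetric
-/

namespace Pool.Agent.Work.MP_33c50c_an.SH

namespace SymSX

theorem aux {W : Type} [NormedAddCommGroup W] [InnerProductSpace ℂ W] {ι : Type} (h : PolP)
    (S : Sys W ι) (D : W →ₗ[ℂ] W) (x : ι → ℝ)
    (hz : ∀ p f, S.z p (D f) = (x p : ℂ) * S.z p f) (f g : W) :
    inner ℂ (D f) g = inner ℂ f (D g) := by
  have h1 := h W ι S (D f) g
  have h2 := h W ι S f (D g)
  have he : (fun p => (starRingEnd ℂ) (S.z p (D f)) * S.z p g) =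
      fun p => (starRingEnd ℂ) (S.z p f) * S.z p (D g) := by
    funext p
    rw [hz, hz, map_mul, Complex.conj_ofReal]
    ring
  rw [he] at h1
  have h3 := h1.unique h2
  have hC : (S.C : ℂ) ≠ 0 := by exact_mod_cast S.hC.ne'
  exact mul_left_cancel₀ hC h3

end SymSX

theorem p_SymS (h : PolP) : SymS := by
  intro W _ _ ι S f g
  exact ⟨SymSX.aux h S S.D1 S.x S.z1 f g, SymSX.aux h S S.D2 S.y S.z2 f g⟩

end Pool.Agent.Work.MP_33c50c_an.SH
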