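import Mathlib
import Pool.Agent.Work.MP_33c50c_an.SH.Cell

namespace Pool.Agent.Work.MP_33c50c_an.SH

lemma corner (G n a : ℕ) (hG : 0 < G) (hn : 0 < n) :
    (((a * G / (3 * n) : ℕ) : ℝ)) / G ≤ (a : ℝ) / (3 * n) := by
  have h1 : ((a * G / (3 * n) : ℕ) : ℝ) ≤ ((a * G : ℕ) : ℝ) / ((3 * n : ℕ) : ℝ) := Nat.cast_div_le
  have hG' : (0:ℝ) < G := by exact_mod_cast hG
  have hn' : (0:ℝ) < n := by exact_mod_cast hn
  rw [div_le_iff₀ hG']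
  refine h1.trans (le_of_eq ?_)
  push_cast
  field_simp

lemma tab_pt (τ ω B : ℝ) (hτ : 0 ≤ τ) (hτω : τ ≤ ω) (hω : 0 < ω) (t : Tab τ ω B) (i j : ℕ)
    (x y : ℝ) (hx : (i : ℝ) / t.G ≤ |x|) (hy : (j : ℝ) / t.G ≤ |y|) :
    ∃ al b1 b2 r1 l1 r2 l2 D : ℝ, D = t.D i j ∧ D * (b1 ^ 2 + b2 ^ 2) ≤ B ∧
    (0 ≤ r1 ∧ r1 ≤ 1) ∧ (0 ≤ l1 ∧ l1 ≤ 1) ∧ (0 ≤ r2 ∧ r2 ≤ 1) ∧ (0 ≤ l2 ∧ l2 ≤ 1) ∧
    ω - τ ≤ D * (b1 ^ 2 + b2 ^ 2) + ω / 4 * (r1 + l1 + r2 + l2) ∧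
    1 + τ * (1 - x ^ 2 - y ^ 2) + 1 / 9 * (ω / 4 * (r1 + l1 + r2 + l2)) ≤
      D * (2 * al + 2 * (b1 * x + b2 * y) - al ^ 2 - b1 ^ 2 - b2 ^ 2) ∧
    12 * D * al * b1 = ω * (r1 - l1) ∧ 12 * D * al * b2 = ω * (r2 - l2) := by
  have hG' : (0:ℝ) < t.G := by exact_mod_cast t.hG
  obtain ⟨r1, l1, r2, l2, q1, q2, q3, q4, q5, q6, q7, q8⟩ := p_CellL τ ω (t.D i j) (t.al i j)
    (t.b1 i j) (t.b2 i j) ((i:ℝ) / t.G) ((j:ℝ) / t.G) hτ hτω hω (t.hD i j) (t.hal i j) (t.hb1 i j)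
    (t.hb2 i j) (by positivity) (by positivity) (t.c1 i j) (t.c2 i j) (t.c3 i j) (t.c4 i j)
    (t.c5 i j)
  have q9 := q8 |x| |y| hx hy
  rw [sq_abs, sq_abs] at q9
  have hB := t.hB i j
  rcases le_total 0 x with h | h <;> rcases le_total 0 y with h' | h'
  · rw [abs_of_nonneg h, abs_of_nonneg h'] at q9
    exact ⟨t.al i j, t.b1 i j, t.b2 i j, r1, l1, r2, l2, t.D i j, rfl, hB, q1, q2, q3, q4, q5, q9,
      q6, q7⟩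
  · rw [abs_of_nonneg h, abs_of_nonpos h'] at q9
    refine ⟨t.al i j, t.b1 i j, -t.b2 i j, r1, l1, l2, r2, t.D i j, rfl, ?_, q1, q2, q4, q3, ?_, ?_,
      q6, ?_⟩
    · rw [neg_sq]; exact hB
    · rw [neg_sq]; linarith
    · rw [neg_sq]
      have e1 : r1 + l1 + l2 + r2 = r1 + l1 + r2 + l2 := by ring
      have e2 : t.b1 i j * x + -t.b2 i j * y = t.b1 i j * x + t.b2 i j * -y := by ring
      rw [e1, e2]; exact q9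
    · linarith
  · rw [abs_of_nonpos h, abs_of_nonneg h'] at q9
    refine ⟨t.al i j, -t.b1 i j, t.b2 i j, l1, r1, r2, l2, t.D i j, rfl, ?_, q2, q1, q3, q4, ?_, ?_,
      ?_, q7⟩
    · rw [neg_sq]; exact hB
    · rw [neg_sq]; linarith
    · rw [neg_sq]
      have e1 : l1 + r1 + r2 + l2 = r1 + l1 + r2 + l2 := by ring
      have e2 : -t.b1 i j * x + t.b2 i j * y = t.b1 i j * -x + t.b2 i j * y := by ring
      rw [e1, e2]; exact q9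
    · linarith
  · rw [abs_of_nonpos h, abs_of_nonpos h'] at q9
    refine ⟨t.al i j, -t.b1 i j, -t.b2 i j, l1, r1, l2, r2, t.D i j, rfl, ?_, q2, q1, q4, q3, ?_, ?_,
      ?_, ?_⟩
    · rw [neg_sq, neg_sq]; exact hB
    · rw [neg_sq, neg_sq]; linarith
    · rw [neg_sq, neg_sq]
      have e1 : l1 + r1 + l2 + r2 = r1 + l1 + r2 + l2 := by ring
      have e2 : -t.b1 i j * x + -t.b2 i j * y = t.b1 i j * -x + t.b2 i j * -y := by ring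
      rw [e1, e2]; exact q9
    · linarith
    · linarith

theorem p_TabC : TabC := by
  intro τ ω B hτ hτω hω t n K hn hK
  have hn' : (0:ℝ) < n := by exact_mod_cast hn
  have hK' : (0:ℝ) < K := by exact_mod_cast hK
  have h : ∀ p : ℤ × ℤ, ∃ al b1 b2 r1 l1 r2 l2 D : ℝ,
      D = t.D (p.1.natAbs * t.G / (3 * n)) (p.2.natAbs * t.G / (3 * n * K)) ∧
      D * (b1 ^ 2 + b2 ^ 2) ≤ B ∧
      (0 ≤ r1 ∧ r1 ≤ 1) ∧ (0 ≤ l1 ∧ l1 ≤ 1) ∧ (0 ≤ r2 ∧ r2 ≤ 1) ∧ (0 ≤ l2 ∧ l2 ≤ 1) ∧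
      ω - τ ≤ D * (b1 ^ 2 + b2 ^ 2) + ω / 4 * (r1 + l1 + r2 + l2) ∧
      1 + τ * (1 - ((p.1:ℝ) / (3 * n)) ^ 2 - ((p.2:ℝ) / K / (3 * n)) ^ 2) +
        1 / 9 * (ω / 4 * (r1 + l1 + r2 + l2)) ≤
        D * (2 * al + 2 * (b1 * ((p.1:ℝ) / (3 * n)) + b2 * ((p.2:ℝ) / K / (3 * n))) - al ^ 2 -
          b1 ^ 2 - b2 ^ 2) ∧
      12 * D * al * b1 = ω * (r1 - l1) ∧ 12 * D * al * b2 = ω * (r2 - l2) := by
    intro p
    apply tab_pt τ ω B hτ hτω hω t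
    · refine (corner t.G n p.1.natAbs t.hG hn).trans (le_of_eq ?_)
      rw [abs_div, Nat.cast_natAbs, Int.cast_abs, abs_of_pos (show (0:ℝ) < 3 * n by positivity)]
    · have e : 3 * n * K = 3 * (n * K) := by ring
      rw [e]
      refine (corner t.G (n * K) p.2.natAbs t.hG (Nat.mul_pos hn hK)).trans (le_of_eq ?_)
      rw [abs_div, abs_div, Nat.cast_natAbs, Int.cast_abs,
        abs_of_pos (show (0:ℝ) < 3 * n by positivity), abs_of_pos hK']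
      push_cast
      field_simp
  choose al b1 b2 r1 l1 r2 l2 D h1 h2 h3 h4 h5 h6 h7 h8 h9 h10 using h
  exact ⟨al, b1, b2, r1, l1, r2, l2, D, h1, h2, h3, h4, h5, h6, h7, h8, h9, h10⟩

end Pool.Agent.Work.MP_33c50c_an.SH
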