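import Mathlib
import Pool.Agent.Work.MP_33c50c_an.SH.RealC
import Pool.Agent.Work.MP_33c50c_an.SH.TabC
import Pool.Agent.Work.MP_33c50c_an.SH.PolP
import Pool.Agent.Work.MP_33c50c_an.SH.SymS
import Pool.Agent.Work.MP_33c50c_an.SH.Bdd
import Pool.Agent.Work.MP_33c50c_an.SH.Gen
import Pool.Agent.Work.MP_33c50c_an.SH.Near
import Pool.Agent.Work.MP_33c50c_an.SH.EnLe
import Pool.Agent.Work.MP_33c50c_an.SH.SumsP
import Pool.Agent.Work.MP_33c50c_an.SH.ShI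
import Pool.Agent.Work.MP_33c50c_an.SH.Pnt
import Pool.Agent.Work.MP_33c50c_an.SH.CoreG
import Pool.Agent.Work.MP_33c50c_an.SH.Latt

/-!
# The counting bound
-/

namespace Pool.Agent.Work.MP_33c50c_an.SH

open MeasureTheory Set BLY
open scoped ENNReal ContDiff ComplexConjugate

theorem coreG : CoreG :=
  p_CoreG (p_Bdd (p_SumsP p_PolP)) p_Near (p_EnLe p_Gen) (p_SumsP p_PolP)
    (p_ShI p_PolP p_Gen (p_SumsP p_PolP) (p_SymS p_PolP))
    (p_Pnt (p_SumsP p_PolP) (p_SymS p_PolP))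

/-- from the eigenvalue to a space of test functions. -/
lemma space_of_lt {Ω : Set Cyl} {k : ℕ} {lam : ℝ}
    (h : eigenvalue Ω k < ENNReal.ofReal lam) :
    ∃ (L : Submodule ℝ (Cyl → ℝ)) (lam0 : ℝ), lam0 < lam ∧ (∀ u ∈ L, IsTest Ω u) ∧
      Module.finrank ℝ L = k ∧ ∀ u ∈ L, energy u ≤ lam0 * mass u := by
  unfold eigenvalue at h
  rw [iInf_lt_iff] at h
  obtain ⟨L, h⟩ := h
  rw [iInf_lt_iff] at h
  obtain ⟨⟨hL, hLk⟩, h⟩ := h
  set M := ⨆ (u : Cyl → ℝ) (_ : u ∈ L ∧ u ≠ 0), ENNReal.ofReal (energy u / mass u) with hM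
  have hMtop : M ≠ ⊤ := ne_top_of_lt h
  refine ⟨L, M.toReal, ?_, hL, hLk, ?_⟩
  · rw [← ENNReal.lt_ofReal_iff_toReal_lt hMtop]; exact h
  · intro u hu
    by_cases h0 : u = 0
    · rw [h0]
      have e1 : energy (0 : Cyl → ℝ) = 0 := by unfold energy dX dY; simp
      have e2 : mass (0 : Cyl → ℝ) = 0 := by unfold mass; simp
      rw [e1, e2, mul_zero]
    · have hm := mass_pos' (hL u hu) h0
      have h3 : ENNReal.ofReal (energy u / mass u) ≤ M :=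
        le_iSup₂ (f := fun (u : Cyl → ℝ) (_ : u ∈ L ∧ u ≠ 0) =>
          ENNReal.ofReal (energy u / mass u)) u ⟨hu, h0⟩
      have h4 : energy u / mass u ≤ M.toReal := by
        rw [← ENNReal.ofReal_le_ofReal_iff ENNReal.toReal_nonneg, ENNReal.ofReal_toReal hMtop]
        exact h3
      rw [div_le_iff₀ hm] at h4
      exact h4

/-- the counting bound of a table. -/
theorem count (τ om B : ℝ) (hτ : 0 ≤ τ) (hτom : τ ≤ om) (hom : 0 < om) (t : Tab τ om B) (Ω : Set Cyl)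
    (hfin : volume Ω ≠ ⊤) (k n : ℕ) (hn : 0 < n)
    (h : eigenvalue Ω k < ENNReal.ofReal ((3 * (n:ℝ)) ^ 2)) :
    (k : ℝ) ≤ (volume Ω).toReal * (6 * n / (4 * Real.pi ^ 2 * t.G) *
      ((∑ j ∈ Finset.range t.N, t.D 0 j) +
        6 * n / t.G * ∑ i ∈ Finset.range t.N, ∑ j ∈ Finset.range t.N, t.D i j)) := by
  obtain ⟨L, lam0, hlam, hL, hLk, he⟩ := space_of_lt h
  obtain ⟨K0, hK0⟩ := realC Ω hfin L k hL hLk lam0 he
  set K : ℕ := t.G * (K0 + 1) with hKdef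
  have hG := t.hG
  have hG' : (0:ℝ) < t.G := by exact_mod_cast hG
  have hn' : (0:ℝ) < n := by exact_mod_cast hn
  have hKpos : 0 < K := Nat.mul_pos hG (Nat.succ_pos K0)
  have hKr : (0:ℝ) < K := by exact_mod_cast hKpos
  have hKK : K0 ≤ K := by
    have : 1 * (K0 + 1) ≤ t.G * (K0 + 1) := Nat.mul_le_mul_right _ hG
    omega
  obtain ⟨l, hl, hle⟩ := hK0 K hKK hKr
  obtain ⟨al, b1, b2, r1, l1, r2, l2, D, hD, hDB, h1, h2, h3, h4, h5, h6, h7, h8⟩ :=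
    p_TabC τ om B hτ hτom hom t n K hn hKpos
  have hlat := p_Latt t.G (3 * n) K t.N hG (by omega) hKpos (Dvd.intro _ rfl) t.D t.hD t.hm t.hz
  have hDf : D = fun p : ℤ × ℤ => t.D (p.1.natAbs * t.G / (3 * n))
      (p.2.natAbs * t.G / (3 * n * K)) := funext hD
  have hlam0 : (0:ℝ) < (3 * (n:ℝ)) ^ 2 := by positivity
  have hcore := coreG (TF Ω K) (ℤ × ℤ) (sysT Ω K hKr hfin) ((3 * (n:ℝ)) ^ 2) hlam0 4
    ![((n:ℤ):ℝ), ((-(n:ℤ) : ℤ):ℝ), ((0:ℤ):ℝ), ((0:ℤ):ℝ)] ![0, 0, (n:ℝ), -(n:ℝ)]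
    (fun j => match j with
      | 0 => shT Ω K hKr hfin (n:ℤ) 0
      | 1 => shT Ω K hKr hfin (-(n:ℤ)) 0
      | 2 => shT Ω K hKr hfin 0 (n:ℝ)
      | 3 => shT Ω K hKr hfin 0 (-(n:ℝ)))
    (fun _ => om / 4) (fun _ => by positivity) τ B hτ D al (fun p => b1 p / (3 * n))
    (fun p => b2 p / (3 * n)) ![r1, l1, r2, l2] (fun p => by rw [hD]; exact t.hD _ _)
    (by rw [hDf]; exact hlat.1)
    (by
      intro p
      have e : (3 * (n:ℝ)) ^ 2 * ((b1 p / (3 * n)) ^ 2 + (b2 p / (3 * n)) ^ 2) =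
          b1 p ^ 2 + b2 p ^ 2 := by field_simp
      rw [e]; exact hDB p)
    (by
      intro j p
      fin_cases j
      · exact h1 p
      · exact h2 p
      · exact h3 p
      · exact h4 p)
    (by
      intro p
      have e : (3 * (n:ℝ)) ^ 2 * ((b1 p / (3 * n)) ^ 2 + (b2 p / (3 * n)) ^ 2) =
          b1 p ^ 2 + b2 p ^ 2 := by field_simp
      rw [e]
      simp only [Fin.sum_univ_four]
      have := h5 p
      simp
      linarith)
    (by
      intro p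
      have e : (3 * (n:ℝ)) ^ 2 * ((b1 p / (3 * n)) ^ 2 + (b2 p / (3 * n)) ^ 2) =
          b1 p ^ 2 + b2 p ^ 2 := by field_simp
      rw [e]
      have := h6 p
      have e2 : (((p.1:ℝ)) ^ 2 + ((p.2:ℝ) / K) ^ 2) / (3 * (n:ℝ)) ^ 2 =
          ((p.1:ℝ) / (3 * n)) ^ 2 + ((p.2:ℝ) / K / (3 * n)) ^ 2 := by field_simp
      have e3 : b1 p / (3 * n) * (p.1:ℝ) + b2 p / (3 * n) * ((p.2:ℝ) / K) =
          b1 p * ((p.1:ℝ) / (3 * n)) + b2 p * ((p.2:ℝ) / K / (3 * n)) := by ring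
      have e4 : (n:ℝ) ^ 2 / (3 * (n:ℝ)) ^ 2 = 1 / 9 := by field_simp; norm_num
      show 1 + τ * (1 - (((p.1:ℝ)) ^ 2 + ((p.2:ℝ) / K) ^ 2) / (3 * (n:ℝ)) ^ 2) + _ ≤
        D p * (2 * al p + 2 * (b1 p / (3 * n) * (p.1:ℝ) + b2 p / (3 * n) * ((p.2:ℝ) / K)) -
          al p ^ 2 - (b1 p ^ 2 + b2 p ^ 2))
      rw [e2, e3]
      simp only [Fin.sum_univ_four]
      simp
      rw [e4]
      linarith)
    (by
      intro p
      have := h7 p
      simp only [Fin.sum_univ_four]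
      simp
      have e : (3 * (n:ℝ)) ^ 2 * (D p * al p * (b1 p / (3 * n))) =
          n / 4 * (12 * D p * al p * b1 p) := by field_simp; ring
      rw [e, this]; ring)
    (by
      intro p
      have := h8 p
      simp only [Fin.sum_univ_four]
      simp
      have e : (3 * (n:ℝ)) ^ 2 * (D p * al p * (b2 p / (3 * n))) =
          n / 4 * (12 * D p * al p * b2 p) := by field_simp; ring
      rw [e, this]; ring)
    k l lam0 hlam hl hle
  refine hcore.trans ?_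
  have h9 : ∑' p, D p ≤ (2 * ((3 * n : ℕ) : ℝ) * K / t.G : ℝ) *
      ((∑ j ∈ Finset.range t.N, t.D 0 j) + (2 * ((3 * n : ℕ) : ℝ) / t.G : ℝ) *
        ∑ i ∈ Finset.range t.N, ∑ j ∈ Finset.range t.N, t.D i j) := by
    rw [hDf]; exact hlat.2
  show (volume Ω).toReal / (4 * Real.pi ^ 2 * K) * ∑' p, D p ≤ _
  have hc : 0 ≤ (volume Ω).toReal / (4 * Real.pi ^ 2 * K) := by positivity
  refine (mul_le_mul_of_nonneg_left h9 hc).trans (le_of_eq ?_)
  push_cast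
  have hpi := Real.pi_pos.ne'
  field_simp
  ring

end Pool.Agent.Work.MP_33c50c_an.SH
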