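import Mathlib
import Pool.Agent.Work.MP_33c50c_an.SH.Table

namespace Pool.Agent.Work.MP_33c50c_an.SH

theorem tab_check : tabC 0 tab = true := by decide +kernel

end Pool.Agent.Work.MP_33c50c_an.SH
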