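import Mathlib
import Pool.Agent.Work.MP_33c50c_an.SH.Table

namespace Pool.Agent.Work.MP_33c50c_an.SH

lemma blkc_get (i j A B C : ℕ) : ∀ m : ℕ, blkc i j A B C m = true →
    ∀ k < m, ck i (j + k) A B C = true := by
  intro m
  induction m with
  | zero => intro _ k hk; omega
  | succ m ih =>
    intro h k hk
    unfold blkc at h
    rw [Bool.and_eq_true] at h
    rcases Nat.lt_succ_iff_lt_or_eq.mp hk with h' | h'
    · exact ih h.2 k h'
    · rw [h']; exact h.1

lemma rowC_get (i : ℕ) : ∀ (L : List ℕ) (j : ℕ), rowC i j L = true → ∀ k < 6 * L.length,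
    ck i (j + k) (eA (L.getD (k / 6) 0)) (eB (L.getD (k / 6) 0)) (eC (L.getD (k / 6) 0)) = true := by
  intro L
  induction L with
  | nil => intro j _ k hk; simp at hk
  | cons e t ih =>
    intro j h k hk
    unfold rowC at h
    rw [Bool.and_eq_true] at h
    rcases Nat.lt_or_ge k 6 with h' | h'
    · have : k / 6 = 0 := Nat.div_eq_of_lt h'
      rw [this]
      exact blkc_get i j _ _ _ 6 h.1 k h'
    · have e1 : k / 6 = (k - 6) / 6 + 1 := by omega
      have e2 : j + k = j + 6 + (k - 6) := by omega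
      rw [e1, e2, List.getD_cons_succ]
      exact ih (j + 6) h.2 (k - 6) (by simp at hk; omega)

lemma rowsC_get (i : ℕ) (L : List ℕ) : ∀ m : ℕ, rowsC i L m = true →
    ∀ k < m, rowC (i + k) 0 L = true := by
  intro m
  induction m with
  | zero => intro _ k hk; omega
  | succ m ih =>
    intro h k hk
    unfold rowsC at h
    rw [Bool.and_eq_true] at h
    rcases Nat.lt_succ_iff_lt_or_eq.mp hk with h' | h'
    · exact ih h.2 k h'
    · rw [h']; exact h.1

lemma tabC_get : ∀ (T : List (List ℕ)) (i : ℕ), tabC i T = true → ∀ k < 6 * T.length,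
    rowC (i + k) 0 (T.getD (k / 6) []) = true ∧
    132518 ≤ (i + 6 * (k / 6)) * (i + 6 * (k / 6)) +
      36 * ((T.getD (k / 6) []).length * (T.getD (k / 6) []).length) := by
  intro T
  induction T with
  | nil => intro i _ k hk; simp at hk
  | cons L t ih =>
    intro i h k hk
    unfold tabC at h
    rw [Bool.and_eq_true, Bool.and_eq_true] at h
    obtain ⟨⟨h1, h2⟩, h3⟩ := h
    rcases Nat.lt_or_ge k 6 with h' | h'
    · have : k / 6 = 0 := Nat.div_eq_of_lt h'
      rw [this]
      exact ⟨rowsC_get i L 6 h2 k h', Nat.le_of_ble_eq_true h1⟩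
    · have e1 : k / 6 = (k - 6) / 6 + 1 := by omega
      have e2 : i + k = i + 6 + (k - 6) := by omega
      have e3 : i + 6 * ((k - 6) / 6 + 1) = i + 6 + 6 * ((k - 6) / 6) := by ring
      rw [e1, e2, e3, List.getD_cons_succ]
      exact ih (i + 6) h3 (k - 6) (by simp at hk; omega)

lemma blk_sum (i j A B C : ℕ) : ∀ m : ℕ, blk i j A B C m =
    ∑ k ∈ Finset.range m, dv i (j + k) A B C := by
  intro m
  induction m with
  | zero => rfl
  | succ m ih =>
    rw [Finset.sum_range_succ, ← ih]
    exact Nat.add_comm _ _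

lemma rowS_sum (i : ℕ) : ∀ (L : List ℕ) (j : ℕ), rowS i j L = ∑ k ∈ Finset.range (6 * L.length),
    dv i (j + k) (eA (L.getD (k / 6) 0)) (eB (L.getD (k / 6) 0)) (eC (L.getD (k / 6) 0)) := by
  intro L
  induction L with
  | nil => intro j; simp [rowS]
  | cons e t ih =>
    intro j
    have h6 : 6 * (e :: t).length = 6 + 6 * t.length := by simp; ring
    rw [h6, Finset.sum_range_add]
    unfold rowS
    rw [blk_sum, ih]
    refine congrArg₂ (· + ·) ?_ ?_
    · apply Finset.sum_congr rfl
      intro k hk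
      have : k / 6 = 0 := Nat.div_eq_of_lt (Finset.mem_range.mp hk)
      rw [this]; rfl
    · apply Finset.sum_congr rfl
      intro k _
      have e1 : (6 + k) / 6 = k / 6 + 1 := by omega
      have e2 : j + (6 + k) = j + 6 + k := by omega
      rw [e1, e2, List.getD_cons_succ]

lemma tabS_get : ∀ (T : List (List ℕ)) (i : ℕ), ∀ k < 6 * T.length,
    (tabS i T).getD k 0 = rowS (i + k) 0 (T.getD (k / 6) []) := by
  intro T
  induction T with
  | nil => intro i k hk; simp at hk
  | cons L t ih =>
    intro i k hk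
    unfold tabS
    rcases Nat.lt_or_ge k 6 with h' | h'
    · interval_cases k <;> rfl
    · obtain ⟨m, rfl⟩ : ∃ m, k = m + 6 := ⟨k - 6, by omega⟩
      have e1 : (m + 6) / 6 = m / 6 + 1 := by omega
      have e2 : i + (m + 6) = i + 6 + m := by omega
      rw [e1, e2]
      exact ih (i + 6) m (by simp at hk; omega)

end Pool.Agent.Work.MP_33c50c_an.SH
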