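import Mathlib
import Pool.Agent.Work.MP_33c50c_an.SH.Table

namespace Pool.Agent.Work.MP_33c50c_an.SH

/-- the sums of the rows. -/
def sl : List ℕ := [4046793, 4046428, 4045989, 4045461, 4044841, 4044155, 4042519, 4040863, 4039102, 4037253, 
4035348, 4033329, 4029653, 4026683, 4023620, 4020494, 4017275, 4013983, 4008072, 4004094, 
4000049, 3995928, 3991730, 3987456, 3978387, 3973740, 3969022, 3964219, 3959340, 3954405, 
3945883, 3940642, 3935345, 3929971, 3924513, 3918999, 3909184, 3903421, 3897561, 3891656, 
3885659, 3879627, 3868658, 3862377, 3856031, 3849616, 3843152, 3836615, 3824582, 3817810, 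
3810973, 3804065, 3797108, 3790086, 3776989, 3769742, 3762417, 3755052, 3747623, 3740161, 
3726002, 3718282, 3710509, 3702690, 3694818, 3686895, 3671590, 3663418, 3655178, 3646897, 
3638567, 3630192, 3613576, 3604942, 3596277, 3587557, 3578795, 3570001, 3553120, 3544085, 
3535010, 3525896, 3516751, 3507569, 3488868, 3479415, 3469917, 3460396, 3450843, 3441252, 
3421196, 3411314, 3401401, 3391464, 3381496, 3371487, 3351171, 3340924, 3330646, 3320347, 
3310022, 3299681, 3278242, 3267651, 3257029, 3246401, 3235727, 3225042, 3202665, 3191717, 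
3180749, 3169762, 3158741, 3147688, 3123673, 3112362, 3101027, 3089694, 3078336, 3066967, 
3042638, 3031011, 3019366, 3007722, 2996061, 2984392, 2959306, 2947371, 2935429, 2923476, 
2911535, 2899578, 2873472, 2861269, 2849051, 2836832, 2824634, 2812426, 2785845, 2773320, 
2760817, 2748326, 2735834, 2723353, 2696155, 2683405, 2670687, 2657974, 2645264, 2632573, 
2604908, 2591958, 2579053, 2566169, 2553311, 2540467, 2511958, 2498804, 2485687, 2472599, 
2459539, 2446490, 2417212, 2403876, 2390574, 2377313, 2364082, 2350882, 2321647, 2308133, 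
2294662, 2281245, 2267864, 2254525, 2224878, 2211239, 2197668, 2184160, 2170668, 2157244, 
2127117, 2113324, 2099621, 2085969, 2072385, 2058824, 2028858, 2014983, 2001192, 1987464, 
1973838, 1960240, 1930139, 1916185, 1902320, 1888546, 1874834, 1861195, 1831316, 1817345, 
1803477, 1789710, 1776021, 1762385, 1732242, 1718216, 1704338, 1690553, 1676917, 1663333, 
1633125, 1619174, 1605325, 1591606, 1577950, 1564383, 1534590, 1520776, 1507064, 1493426, 
1479910, 1466477, 1435903, 1422108, 1408417, 1394849, 1381394, 1368029, 1336372, 1322544, 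
1308833, 1295248, 1281771, 1268391, 1227173, 1212053, 1197047, 1182201, 1167671, 1153421, 
1108997, 1093727, 1078670, 1063867, 1049418, 1035359, 1003288, 988681, 974270, 960288, 946703, 
933599, 903537, 889731, 876285, 863250, 850689, 838550, 810406, 797301, 784585, 772486, 760848, 
749518, 723111, 710858, 699127, 687950, 677133, 666447, 641754, 630440, 619689, 609338, 599189, 
589096, 566142, 555851, 545967, 536317, 526743, 517239, 496282, 486834, 477675, 468599, 459595, 
450665, 431764, 423088, 414505, 405996, 397555, 389183, 372383, 364295, 356270, 348327, 340443, 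
332641, 317806, 310257, 302785, 295375, 288037, 280773, 267810, 260799, 253852, 246975, 240181, 
233445, 222325, 215827, 209407, 203057, 196781, 190567, 181256, 175263, 169343, 163507, 157744, 
152053, 144461, 138973, 133556, 128221, 122973, 117814, 111803, 106812, 101898, 97072, 92338, 
87687, 82969, 78483, 74111, 69816, 65606, 61499, 57476, 53561, 49738, 46025, 42401, 38892, 35483, 
32201, 29014, 25955, 23007, 20186, 17494, 14942, 12525, 10262, 8155, 6219, 4465, 2923, 1615, 589, 
5, 0]

theorem tab_sums : tabS 0 tab = sl := by decide +kernel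

end Pool.Agent.Work.MP_33c50c_an.SH
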