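import Mathlib
import Pool.Agent.Work.MP_33c50c_an.SH.Stmts
import Pool.Agent.Work.MP_33c50c_an.SH.TabGet
import Pool.Agent.Work.MP_33c50c_an.SH.TabSums
import Pool.Agent.Work.MP_33c50c_an.SH.TabCheck

namespace Pool.Agent.Work.MP_33c50c_an.SH

/-- the entry of the fine cell. -/
def en6 (i j : ℕ) : ℕ := (tab.getD (i / 6) []).getD (j / 6) 0

/-- the value of the fine cell. -/
def dd (i j : ℕ) : ℕ := dv i j (eA (en6 i j)) (eB (en6 i j)) (eC (en6 i j))

lemma tab_len : tab.length = 61 := rfl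

lemma row_len : ∀ L ∈ tab, L.length ≤ 61 := by decide +kernel

lemma row_len' (I : ℕ) : (tab.getD I []).length ≤ 61 := by
  rcases Nat.lt_or_ge I tab.length with h | h
  · rw [List.getD_eq_getElem _ _ h]
    exact row_len _ (List.getElem_mem h)
  · rw [List.getD_eq_default _ _ h]; simp

lemma ck_or (i j : ℕ) : ck i j (eA (en6 i j)) (eB (en6 i j)) (eC (en6 i j)) = true ∨
    (en6 i j = 0 ∧ 132518 ≤ i * i + j * j) := by
  rcases Nat.lt_or_ge i 366 with hi | hi
  · have h := tabC_get tab 0 tab_check i (by rw [tab_len]; omega)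
    rw [Nat.zero_add, Nat.zero_add] at h
    rcases Nat.lt_or_ge j (6 * (tab.getD (i / 6) []).length) with hj | hj
    · left
      have h2 := rowC_get i _ 0 h.1 j hj
      rw [Nat.zero_add] at h2
      exact h2
    · right
      refine ⟨List.getD_eq_default _ _ (by omega), ?_⟩
      have h3 := h.2
      have h4 : 6 * (i / 6) ≤ i := Nat.mul_div_le i 6
      have h5 := Nat.mul_le_mul h4 h4
      have h6 := Nat.mul_le_mul hj hj
      have h7 : 6 * (tab.getD (i / 6) []).length * (6 * (tab.getD (i / 6) []).length) =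
        36 * ((tab.getD (i / 6) []).length * (tab.getD (i / 6) []).length) := by ring
      omega
  · right
    refine ⟨?_, ?_⟩
    · unfold en6
      rw [List.getD_eq_default tab [] (by rw [tab_len]; omega)]
      rfl
    · have := Nat.mul_le_mul hi hi
      omega

lemma dv_zero (i j : ℕ) : dv i j 0 0 0 = 0 := by
  simp [dv, cdiv, qc]

lemma dd_zero (i j : ℕ) (h : en6 i j = 0) : dd i j = 0 := by
  unfold dd
  rw [h]
  exact dv_zero i j

lemma dd_out (i j : ℕ) (h : 366 ≤ i ∨ 366 ≤ j) : dd i j = 0 := by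
  apply dd_zero
  unfold en6
  rcases h with h | h
  · rw [List.getD_eq_default tab [] (by rw [tab_len]; omega)]
    rfl
  · rw [List.getD_eq_default _ _ (by have := row_len' (i / 6); omega)]

/-- the row sums -/
lemma dd_row (i : ℕ) : ∑ j ∈ Finset.range 366, dd i j = sl.getD i 0 := by
  rcases Nat.lt_or_ge i 366 with hi | hi
  · have h := tabS_get tab 0 i (by rw [tab_len]; omega)
    rw [tab_sums, Nat.zero_add, rowS_sum] at h
    rw [h]
    symm
    have hlen := row_len' (i / 6)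
    have e : ∀ k ∈ Finset.range (6 * (tab.getD (i / 6) []).length),
        dv i (0 + k) (eA ((tab.getD (i / 6) []).getD (k / 6) 0))
          (eB ((tab.getD (i / 6) []).getD (k / 6) 0)) (eC ((tab.getD (i / 6) []).getD (k / 6) 0)) =
        dd i k := by
      intro k _
      rw [Nat.zero_add]; rfl
    rw [Finset.sum_congr rfl e]
    apply Finset.sum_subset (Finset.range_mono (by omega))
    intro k _ hk
    rw [Finset.mem_range, not_lt] at hk
    apply dd_zero
    unfold en6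
    exact List.getD_eq_default _ _ (by omega)
  · rw [List.getD_eq_default sl 0 (by
      have : sl.length = 366 := by decide +kernel
      omega)]
    apply Finset.sum_eq_zero
    intro j _
    exact dd_out i j (Or.inl hi)

lemma sl_mono : ∀ i < 366, sl.getD (i + 1) 0 ≤ sl.getD i 0 := by decide +kernel

lemma sl_total : ∑ i ∈ Finset.range 366, sl.getD i 0 = 745104728 := by decide +kernel

lemma sl_zero : sl.getD 0 0 = 4046793 := rfl

lemma real_i (i j A B C d c : ℕ) (hc : (c : ℝ) = 2400 * A + 10 * (B * i + C * j) - (A * A + (B * B + C * C)))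
    (h : 12500 * (20275200 - 153 * (i * i + j * j)) ≤ d * (9 * c + (B * B + C * C))) :
    1 + (17 / 20 : ℝ) * (1 - ((i : ℝ) / (240:ℕ)) ^ 2 - ((j : ℝ) / (240:ℕ)) ^ 2) + ((9 / 5 : ℝ) - 17 / 20) / 9 ≤
    ((d : ℝ) / 10000) * (2 * ((A : ℝ) / 1200) + 2 * (((B : ℝ) / 1200) * ((i : ℝ) / (240:ℕ)) + ((C : ℝ) / 1200) * ((j : ℝ) / (240:ℕ))) - ((A : ℝ) / 1200) ^ 2 -
      ((B : ℝ) / 1200) ^ 2 - ((C : ℝ) / 1200) ^ 2 + (((B : ℝ) / 1200) ^ 2 + ((C : ℝ) / 1200) ^ 2) / 9) := by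
  have h1 : (12500 : ℝ) * (20275200 - 153 * (i * i + j * j)) ≤ d * (9 * c + (B * B + C * C)) := by
    have h2 : ((12500 * (20275200 - 153 * (i * i + j * j)) : ℕ) : ℝ) ≤
        ((d * (9 * c + (B * B + C * C)) : ℕ) : ℝ) := by exact_mod_cast h
    have h3 : (20275200 : ℝ) - 153 * (i * i + j * j) ≤ ((20275200 - 153 * (i * i + j * j) : ℕ) : ℝ) := by
      have := le_tsub_add (a := 153 * (i * i + j * j)) (b := 20275200)
      have h4 : ((20275200 : ℕ) : ℝ) ≤ ((20275200 - 153 * (i * i + j * j) + 153 * (i * i + j * j) : ℕ) : ℝ) := by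
        exact_mod_cast this
      push_cast at h4 ⊢
      linarith
    push_cast at h2 h3 ⊢
    linarith
  rw [hc] at h1
  push_cast
  nlinarith [h1]

lemma real_ii (i j A B C d c : ℕ) (hc : (c : ℝ) = 2400 * A + 10 * (B * i + C * j) - (A * A + (B * B + C * C)))
    (hc2 : A * (B + C) ≤ 3 * c)
    (h : 37500 * (2131200 - 17 * (i * i + j * j)) ≤ d * (3 * c - A * (B + C))) :
    1 + (17 / 20 : ℝ) * (1 - ((i : ℝ) / (240:ℕ)) ^ 2 - ((j : ℝ) / (240:ℕ)) ^ 2) ≤
    ((d : ℝ) / 10000) * (2 * ((A : ℝ) / 1200) + 2 * (((B : ℝ) / 1200) * ((i : ℝ) / (240:ℕ)) + ((C : ℝ) / 1200) * ((j : ℝ) / (240:ℕ))) - ((A : ℝ) / 1200) ^ 2 -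
      ((B : ℝ) / 1200) ^ 2 - ((C : ℝ) / 1200) ^ 2 - ((A : ℝ) / 1200) * (((B : ℝ) / 1200) + ((C : ℝ) / 1200)) / 3) := by
  have h1 : (37500 : ℝ) * (2131200 - 17 * (i * i + j * j)) ≤ d * (3 * c - A * (B + C)) := by
    have h2 : ((37500 * (2131200 - 17 * (i * i + j * j)) : ℕ) : ℝ) ≤
        ((d * (3 * c - A * (B + C)) : ℕ) : ℝ) := by exact_mod_cast h
    have h3 : (2131200 : ℝ) - 17 * (i * i + j * j) ≤ ((2131200 - 17 * (i * i + j * j) : ℕ) : ℝ) := by
      have := le_tsub_add (a := 17 * (i * i + j * j)) (b := 2131200)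
      have h4 : ((2131200 : ℕ) : ℝ) ≤ ((2131200 - 17 * (i * i + j * j) + 17 * (i * i + j * j) : ℕ) : ℝ) := by
        exact_mod_cast this
      push_cast at h4 ⊢
      linarith
    have h5 : ((3 * c - A * (B + C) : ℕ) : ℝ) = 3 * c - A * (B + C) := by
      rw [Nat.cast_sub hc2]; push_cast; ring
    rw [Nat.cast_mul, Nat.cast_mul, h5] at h2
    push_cast at h2 h3 ⊢
    linarith
  rw [hc] at h1
  push_cast
  nlinarith [h1]

lemma all_real (i j : ℕ) : (1 + (17 / 20 : ℝ) * (1 - ((i : ℝ) / (240:ℕ)) ^ 2 - ((j : ℝ) / (240:ℕ)) ^ 2) +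
      ((9 / 5 : ℝ) - 17 / 20) / 9 ≤
    ((dd i j : ℝ) / 10000) * (2 * ((eA (en6 i j) : ℝ) / 1200) + 2 * (((eB (en6 i j) : ℝ) / 1200) * ((i : ℝ) / (240:ℕ)) + ((eC (en6 i j) : ℝ) / 1200) * ((j : ℝ) / (240:ℕ))) - ((eA (en6 i j) : ℝ) / 1200) ^ 2 -
      ((eB (en6 i j) : ℝ) / 1200) ^ 2 - ((eC (en6 i j) : ℝ) / 1200) ^ 2 + (((eB (en6 i j) : ℝ) / 1200) ^ 2 + ((eC (en6 i j) : ℝ) / 1200) ^ 2) / 9)) ∧
    (1 + (17 / 20 : ℝ) * (1 - ((i : ℝ) / (240:ℕ)) ^ 2 - ((j : ℝ) / (240:ℕ)) ^ 2) ≤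
    ((dd i j : ℝ) / 10000) * (2 * ((eA (en6 i j) : ℝ) / 1200) + 2 * (((eB (en6 i j) : ℝ) / 1200) * ((i : ℝ) / (240:ℕ)) + ((eC (en6 i j) : ℝ) / 1200) * ((j : ℝ) / (240:ℕ))) - ((eA (en6 i j) : ℝ) / 1200) ^ 2 -
      ((eB (en6 i j) : ℝ) / 1200) ^ 2 - ((eC (en6 i j) : ℝ) / 1200) ^ 2 - ((eA (en6 i j) : ℝ) / 1200) * (((eB (en6 i j) : ℝ) / 1200) + ((eC (en6 i j) : ℝ) / 1200)) / 3)) ∧
    3 * ((dd i j : ℝ) / 10000) * ((eA (en6 i j) : ℝ) / 1200) * (((eB (en6 i j) : ℝ) / 1200) + ((eC (en6 i j) : ℝ) / 1200)) ≤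
      17 / 20 + ((dd i j : ℝ) / 10000) * (((eB (en6 i j) : ℝ) / 1200) ^ 2 + ((eC (en6 i j) : ℝ) / 1200) ^ 2) ∧
    12 * ((dd i j : ℝ) / 10000) * ((eA (en6 i j) : ℝ) / 1200) * ((eB (en6 i j) : ℝ) / 1200) ≤ 9 / 5 ∧
    12 * ((dd i j : ℝ) / 10000) * ((eA (en6 i j) : ℝ) / 1200) * ((eC (en6 i j) : ℝ) / 1200) ≤ 9 / 5 ∧
    ((dd i j : ℝ) / 10000) * (((eB (en6 i j) : ℝ) / 1200) ^ 2 + ((eC (en6 i j) : ℝ) / 1200) ^ 2) ≤ 10 := by
  rcases ck_or i j with h | ⟨h0, hs⟩
  · have hdd : dd i j = dv i j (eA (en6 i j)) (eB (en6 i j)) (eC (en6 i j)) := rfl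
    set A := eA (en6 i j)
    set B := eB (en6 i j)
    set C := eC (en6 i j)
    unfold ck at h
    rw [← hdd] at h
    simp only [Bool.and_eq_true] at h
    obtain ⟨k1, k2, k3, k4, k5, k6, k7, k8⟩ := h
    have k1' := Nat.le_of_ble_eq_true k1
    have k2' := Nat.le_of_ble_eq_true k2
    have k3' := Nat.le_of_ble_eq_true k3
    have k4' := Nat.le_of_ble_eq_true k4
    have k5' := Nat.le_of_ble_eq_true k5
    have k6' := Nat.le_of_ble_eq_true k6
    have k7' := Nat.le_of_ble_eq_true k7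
    have k8' := Nat.le_of_ble_eq_true k8
    have hc : ((qc i j A B C : ℕ) : ℝ) =
        2400 * A + 10 * (B * i + C * j) - (A * A + (B * B + C * C)) := by
      unfold qc
      rw [Nat.cast_sub k1']; push_cast; ring
    have r5 : (3 : ℝ) * dd i j * A * (B + C) ≤ 12240000000 + dd i j * (B * B + C * C) := by
      exact_mod_cast k5'
    have r6 : (12 : ℝ) * dd i j * A * B ≤ 25920000000 := by exact_mod_cast k6'
    have r7 : (12 : ℝ) * dd i j * A * C ≤ 25920000000 := by exact_mod_cast k7'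
    have r8 : (dd i j : ℝ) * (B * B + C * C) ≤ 144000000000 := by exact_mod_cast k8'
    refine ⟨real_i i j A B C _ _ hc k3', real_ii i j A B C _ _ hc k2' k4', ?_, ?_, ?_, ?_⟩
    · have e1 : 3 * ((dd i j : ℝ) / 10000) * ((A : ℝ) / 1200) * (((B : ℝ) / 1200) + ((C : ℝ) / 1200)) =
          (3 * dd i j * A * (B + C)) / 14400000000 := by ring
      have e2 : (17 / 20 : ℝ) + ((dd i j : ℝ) / 10000) * (((B : ℝ) / 1200) ^ 2 + ((C : ℝ) / 1200) ^ 2) =
          (12240000000 + dd i j * (B * B + C * C)) / 14400000000 := by ring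
      rw [e1, e2]
      exact div_le_div_of_nonneg_right r5 (by norm_num)
    · have e1 : 12 * ((dd i j : ℝ) / 10000) * ((A : ℝ) / 1200) * ((B : ℝ) / 1200) =
          (12 * dd i j * A * B) / 14400000000 := by ring
      rw [e1, div_le_iff₀ (by norm_num)]; linarith
    · have e1 : 12 * ((dd i j : ℝ) / 10000) * ((A : ℝ) / 1200) * ((C : ℝ) / 1200) =
          (12 * dd i j * A * C) / 14400000000 := by ring
      rw [e1, div_le_iff₀ (by norm_num)]; linarith
    · have e1 : ((dd i j : ℝ) / 10000) * (((B : ℝ) / 1200) ^ 2 + ((C : ℝ) / 1200) ^ 2) =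
          (dd i j * (B * B + C * C)) / 14400000000 := by ring
      rw [e1, div_le_iff₀ (by norm_num)]; linarith
  · rw [dd_zero i j h0, h0]
    have hs' : (132518 : ℝ) ≤ i * i + j * j := by exact_mod_cast hs
    have e0 : eA 0 = 0 := rfl
    have e1 : eB 0 = 0 := rfl
    have e2 : eC 0 = 0 := rfl
    rw [e0, e1, e2]
    push_cast
    refine ⟨?_, ?_, ?_, ?_, ?_, ?_⟩
    · nlinarith
    · nlinarith
    · norm_num
    · norm_num
    · norm_num
    · norm_num

/-- the table of multipliers. -/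
noncomputable def tabT : Tab (17 / 20) (9 / 5) 10 where
  G := 240
  N := 366
  D i j := (dd i j : ℝ) / 10000
  al i j := (eA (en6 i j) : ℝ) / 1200
  b1 i j := (eB (en6 i j) : ℝ) / 1200
  b2 i j := (eC (en6 i j) : ℝ) / 1200
  hG := by norm_num
  hD i j := by positivity
  hal i j := by positivity
  hb1 i j := by positivity
  hb2 i j := by positivity
  hB i j := (all_real i j).2.2.2.2.2
  hz i j h := by rw [dd_out i j h]; simp
  hm i := by
    rw [← Finset.sum_div, ← Finset.sum_div]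
    apply div_le_div_of_nonneg_right _ (by norm_num)
    have h1 := dd_row i
    have h2 := dd_row (i + 1)
    have h3 : sl.getD (i + 1) 0 ≤ sl.getD i 0 := by
      rcases Nat.lt_or_ge i 366 with h | h
      · exact sl_mono i h
      · rw [List.getD_eq_default sl 0 (by
          have : sl.length = 366 := by decide +kernel
          omega)]
        exact Nat.zero_le _
    rw [← h1, ← h2] at h3
    exact_mod_cast h3
  c1 i j := (all_real i j).1
  c2 i j := (all_real i j).2.1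
  c3 i j := (all_real i j).2.2.1
  c4 i j := (all_real i j).2.2.2.1
  c5 i j := (all_real i j).2.2.2.2.1

lemma tabT_S0 : ∑ j ∈ Finset.range tabT.N, tabT.D 0 j = 4046793 / 10000 := by
  show ∑ j ∈ Finset.range 366, (dd 0 j : ℝ) / 10000 = _
  rw [← Finset.sum_div]
  have h1 := dd_row 0
  rw [sl_zero] at h1
  have h2 : ((∑ j ∈ Finset.range 366, dd 0 j : ℕ) : ℝ) = (4046793 : ℕ) := by rw [h1]
  push_cast at h2
  rw [h2]

lemma tabT_S : ∑ i ∈ Finset.range tabT.N, ∑ j ∈ Finset.range tabT.N, tabT.D i j =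
    745104728 / 10000 := by
  show ∑ i ∈ Finset.range 366, ∑ j ∈ Finset.range 366, (dd i j : ℝ) / 10000 = _
  simp_rw [← Finset.sum_div]
  have h0 : ∑ i ∈ Finset.range 366, ∑ j ∈ Finset.range 366, dd i j =
      ∑ i ∈ Finset.range 366, sl.getD i 0 := Finset.sum_congr rfl (fun i _ => dd_row i)
  have h1 := h0.trans sl_total
  have h2 : ((∑ i ∈ Finset.range 366, ∑ j ∈ Finset.range 366, dd i j : ℕ) : ℝ) =
      ((745104728 : ℕ) : ℝ) := congrArg Nat.cast h1
  rw [Nat.cast_sum] at h2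
  simp_rw [Nat.cast_sum] at h2
  rw [h2]
  norm_num

end Pool.Agent.Work.MP_33c50c_an.SH
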