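import Mathlib
import Pool.Agent.Work.MP_33c50c_an.SH.Key
import Pool.Agent.Work.MP_33c50c_an.SH.TabT

/-!
# Polya's inequality up to the factor 3/5
-/

namespace Pool.Agent.Work.MP_33c50c_an.SH

open MeasureTheory Set
open scoped ENNReal

/-- the counting bound. -/
theorem count' (Ω : Set Cyl) (hfin : volume Ω ≠ ⊤) (k n : ℕ) (hn : 0 < n)
    (h : eigenvalue Ω k < ENNReal.ofReal ((3 * (n:ℝ)) ^ 2)) :
    Real.pi ^ 2 * (k : ℝ) ≤ (volume Ω).toReal *
      (93138091 / 72000000 * (3 * (n:ℝ)) ^ 2 + 1348931 / 1600000 * (3 * (n:ℝ))) := by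
  have h1 := count (17 / 20) (9 / 5) 10 (by norm_num) (by norm_num) (by norm_num) tabT Ω hfin k n hn h
  rw [tabT_S0, tabT_S] at h1
  have hG : ((tabT.G : ℕ) : ℝ) = 240 := by
    show ((240 : ℕ) : ℝ) = 240
    norm_num
  rw [hG] at h1
  have hpi := Real.pi_pos
  have h2 : Real.pi ^ 2 * (k:ℝ) ≤ Real.pi ^ 2 * ((volume Ω).toReal *
      (6 * n / (4 * Real.pi ^ 2 * 240) * (4046793 / 10000 + 6 * n / 240 * (745104728 / 10000)))) :=
    mul_le_mul_of_nonneg_left h1 (by positivity)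
  refine h2.trans (le_of_eq ?_)
  field_simp
  ring

/-- with the square root of the eigenvalue. -/
theorem count'' (Ω : Set Cyl) (hfin : volume Ω ≠ ⊤) (k : ℕ) (s : ℝ) (hs : 0 ≤ s)
    (h : eigenvalue Ω k ≤ ENNReal.ofReal (s ^ 2)) :
    Real.pi ^ 2 * (k : ℝ) ≤ (volume Ω).toReal *
      (93138091 / 72000000 * (s + 3) ^ 2 + 1348931 / 1600000 * (s + 3)) := by
  set n : ℕ := ⌊s / 3⌋₊ + 1 with hn
  have h1 : s < 3 * (n:ℝ) := by
    have := Nat.lt_floor_add_one (s / 3)
    rw [hn]; push_cast; linarith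
  have h2 : 3 * (n:ℝ) ≤ s + 3 := by
    have := Nat.floor_le (show 0 ≤ s / 3 by positivity)
    rw [hn]; push_cast; linarith
  have h3 : eigenvalue Ω k < ENNReal.ofReal ((3 * (n:ℝ)) ^ 2) := by
    refine lt_of_le_of_lt h ?_
    rw [ENNReal.ofReal_lt_ofReal_iff (by nlinarith)]
    nlinarith
  have h4 := count' Ω hfin k n (by omega) h3
  refine h4.trans ?_
  apply mul_le_mul_of_nonneg_left _ ENNReal.toReal_nonneg
  have h5 : (3 * (n:ℝ)) ^ 2 ≤ (s + 3) ^ 2 := pow_le_pow_left₀ (by linarith) h2 2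
  linarith

theorem main_small (Ω : Set Cyl) (hvol : volume Ω ≤ ENNReal.ofReal (1 / 50000)) (k : ℕ)
    (hk : 1 ≤ k) : ENNReal.ofReal (12 * Real.pi / 5 * k) / volume Ω ≤ eigenvalue Ω k := by
  have hfin : volume Ω ≠ ⊤ := ne_top_of_le_ne_top ENNReal.ofReal_ne_top hvol
  have hV : (volume Ω).toReal ≤ 1 / 50000 := ENNReal.toReal_le_of_le_ofReal (by norm_num) hvol
  set V := (volume Ω).toReal with hVdef
  have hV0 : 0 ≤ V := ENNReal.toReal_nonneg
  by_cases htop : eigenvalue Ω k = ⊤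
  · rw [htop]; exact le_top
  set lam := (eigenvalue Ω k).toReal with hlam
  have hlam0 : 0 ≤ lam := ENNReal.toReal_nonneg
  set s := Real.sqrt lam with hs
  have hs0 : 0 ≤ s := Real.sqrt_nonneg _
  have hss : s ^ 2 = lam := Real.sq_sqrt hlam0
  have h1 : eigenvalue Ω k ≤ ENNReal.ofReal (s ^ 2) := by
    rw [hss, hlam, ENNReal.ofReal_toReal htop]
  have h2 := count'' Ω hfin k s hs0 h1
  have hk' : (1:ℝ) ≤ k := by exact_mod_cast hk
  have hpi1 := Real.pi_gt_d4
  have hpi2 := Real.pi_lt_d4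
  have hpisq : (9.869 : ℝ) ≤ Real.pi ^ 2 := by nlinarith
  -- `s` is large
  have hs1 : 570 ≤ s := by
    by_contra hlt
    rw [not_le] at hlt
    have h3 : 93138091 / 72000000 * (s + 3) ^ 2 + 1348931 / 1600000 * (s + 3) ≤ 430000 := by
      nlinarith
    have h4 : V * (93138091 / 72000000 * (s + 3) ^ 2 + 1348931 / 1600000 * (s + 3)) ≤
        1 / 50000 * 430000 := by
      apply mul_le_mul hV h3 (by positivity) (by norm_num)
    nlinarith
  have hVpos : 0 < V := by
    rcases eq_or_lt_of_le hV0 with h | h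
    · rw [← hVdef, ← h] at h2
      nlinarith
    · exact h
  have h5 : 12 * (93138091 / 72000000 * (s + 3) ^ 2 + 1348931 / 1600000 * (s + 3)) ≤
      15.707 * s ^ 2 := by nlinarith
  have h6 : 12 * Real.pi / 5 * k ≤ V * lam := by
    have h7 : Real.pi * (12 * Real.pi / 5 * k) ≤ Real.pi * (V * lam) := by
      have h8 : Real.pi * (12 * Real.pi / 5 * k) = 12 / 5 * (Real.pi ^ 2 * k) := by ring
      rw [h8, ← hss]
      have h9 : 12 / 5 * (Real.pi ^ 2 * k) ≤ 12 / 5 * (V *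
        (93138091 / 72000000 * (s + 3) ^ 2 + 1348931 / 1600000 * (s + 3))) :=
        mul_le_mul_of_nonneg_left h2 (by norm_num)
      refine h9.trans ?_
      have h10 : 12 / 5 * (93138091 / 72000000 * (s + 3) ^ 2 + 1348931 / 1600000 * (s + 3)) ≤
          Real.pi * s ^ 2 := by nlinarith [sq_nonneg s]
      calc 12 / 5 * (V * (93138091 / 72000000 * (s + 3) ^ 2 + 1348931 / 1600000 * (s + 3))) =
          V * (12 / 5 * (93138091 / 72000000 * (s + 3) ^ 2 + 1348931 / 1600000 * (s + 3))) := by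
            ring
        _ ≤ V * (Real.pi * s ^ 2) := mul_le_mul_of_nonneg_left h10 hV0
        _ = Real.pi * (V * s ^ 2) := by ring
    exact le_of_mul_le_mul_left h7 Real.pi_pos
  have hvolne : volume Ω ≠ 0 := by
    intro h; rw [hVdef, h] at hVpos; simp at hVpos
  rw [ENNReal.div_le_iff hvolne hfin]
  have e1 : eigenvalue Ω k = ENNReal.ofReal lam := (ENNReal.ofReal_toReal htop).symm
  have e2 : volume Ω = ENNReal.ofReal V := (ENNReal.ofReal_toReal hfin).symm
  rw [e1, e2, ← ENNReal.ofReal_mul hlam0]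
  apply ENNReal.ofReal_le_ofReal
  rw [mul_comm lam V]
  exact h6

theorem main_all (Ω : Set Cyl) (k : ℕ) (s : ℝ) (hs : 0 ≤ s)
    (h : eigenvalue Ω k ≤ ENNReal.ofReal (s ^ 2)) :
    ENNReal.ofReal (12 * Real.pi / 5 * k) ≤ volume Ω * ENNReal.ofReal ((s + 4) ^ 2) := by
  by_cases hfin : volume Ω = ⊤
  · rw [hfin, ENNReal.top_mul]
    · exact le_top
    · have : 0 < (s + 4) ^ 2 := by positivity
      simp only [ne_eq, ENNReal.ofReal_eq_zero, not_le]
      exact this
  set V := (volume Ω).toReal with hVdef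
  have hV0 : 0 ≤ V := ENNReal.toReal_nonneg
  have h2 := count'' Ω hfin k s hs h
  have hpi1 := Real.pi_gt_d4
  have h6 : 12 * Real.pi / 5 * k ≤ V * (s + 4) ^ 2 := by
    have h7 : Real.pi * (12 * Real.pi / 5 * k) ≤ Real.pi * (V * (s + 4) ^ 2) := by
      have h8 : Real.pi * (12 * Real.pi / 5 * k) = 12 / 5 * (Real.pi ^ 2 * k) := by ring
      rw [h8]
      have h9 : 12 / 5 * (Real.pi ^ 2 * k) ≤ 12 / 5 * (V *
        (93138091 / 72000000 * (s + 3) ^ 2 + 1348931 / 1600000 * (s + 3))) :=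
        mul_le_mul_of_nonneg_left h2 (by norm_num)
      refine h9.trans ?_
      have h10 : 12 / 5 * (93138091 / 72000000 * (s + 3) ^ 2 + 1348931 / 1600000 * (s + 3)) ≤
          Real.pi * (s + 4) ^ 2 := by nlinarith [sq_nonneg s]
      calc 12 / 5 * (V * (93138091 / 72000000 * (s + 3) ^ 2 + 1348931 / 1600000 * (s + 3))) =
          V * (12 / 5 * (93138091 / 72000000 * (s + 3) ^ 2 + 1348931 / 1600000 * (s + 3))) := by
            ring
        _ ≤ V * (Real.pi * (s + 4) ^ 2) := mul_le_mul_of_nonneg_left h10 hV0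
        _ = Real.pi * (V * (s + 4) ^ 2) := by ring
    exact le_of_mul_le_mul_left h7 Real.pi_pos
  have e2 : volume Ω = ENNReal.ofReal V := (ENNReal.ofReal_toReal hfin).symm
  rw [e2, ← ENNReal.ofReal_mul hV0]
  exact ENNReal.ofReal_le_ofReal h6

end Pool.Agent.Work.MP_33c50c_an.SH
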