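import Mathlib
import Pool.Agent.Work.MP_33c50c_an.SH.Stmts

/-!
# Item ShI: the shift inequality
-/

set_option autoImplicit false

namespace Pool.Agent.Work.MP_33c50c_an.SH

open scoped ComplexOrder

namespace ShIX

variable {W : Type} [NormedAddCommGroup W] [InnerProductSpace ℂ W] {ι : Type}

/-- the summand of an entry of the density matrix -/
noncomputable def tm {N : ℕ} (S : Sys W ι) (f : Fin N → W) (θ : ι → ℝ) (i j : Fin N) (p : ι) : ℂ :=
  (θ p : ℂ) * (S.z p (f i) * (starRingEnd ℂ) (S.z p (f j)))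

/-- the density matrix -/
noncomputable def mA {N : ℕ} (S : Sys W ι) (f : Fin N → W) (θ : ι → ℝ) :
    Matrix (Fin N) (Fin N) ℂ :=
  fun i j => (1 / (S.C : ℂ)) * ∑' p, tm S f θ i j p

theorem tm_summable {N : ℕ} (S : Sys W ι) (f : Fin N → W) (θ : ι → ℝ)
    (hθ : ∀ p, 0 ≤ θ p ∧ θ p ≤ 1) (i j : Fin N) : Summable (tm S f θ i j) := by
  have h1 := (S.pars (f i)).summable
  have h2 := (S.pars (f j)).summable
  refine Summable.of_norm_bounded (h1.add h2) fun p => ?_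
  unfold tm
  rw [norm_mul, norm_mul, RCLike.norm_conj, Complex.norm_real, Real.norm_eq_abs,
    abs_of_nonneg (hθ p).1]
  have h3 : 0 ≤ ‖S.z p (f i)‖ * ‖S.z p (f j)‖ := by positivity
  have h4 := mul_le_mul_of_nonneg_right (hθ p).2 h3
  nlinarith [sq_nonneg (‖S.z p (f i)‖ - ‖S.z p (f j)‖), sq_nonneg (‖S.z p (f i)‖),
    sq_nonneg (‖S.z p (f j)‖)]

theorem hs {N : ℕ} (S : Sys W ι) (f : Fin N → W) (θ : ι → ℝ)
    (hθ : ∀ p, 0 ≤ θ p ∧ θ p ≤ 1) (c : Fin N → Fin N → ℂ) :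
    HasSum (fun p => ∑ i, ∑ j, c i j * tm S f θ i j p)
      (∑ i, ∑ j, c i j * ((S.C : ℂ) * mA S f θ i j)) := by
  have hC : (S.C : ℂ) ≠ 0 := by
    exact_mod_cast S.hC.ne'
  refine hasSum_sum fun i _ => hasSum_sum fun j _ => ?_
  have h1 := ((tm_summable S f θ hθ i j).hasSum).mul_left (c i j)
  have h2 : (S.C : ℂ) * mA S f θ i j = ∑' p, tm S f θ i j p := by
    unfold mA
    field_simp
  rw [h2]
  exact h1

/-- the vector for a quadratic form -/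
noncomputable def vu {N : ℕ} (f : Fin N → W) (x : Fin N → ℂ) : W :=
  ∑ i, (starRingEnd ℂ) (x i) • f i

theorem quad_pt {N : ℕ} (S : Sys W ι) (f : Fin N → W) (θ : ι → ℝ) (x : Fin N → ℂ) (p : ι) :
    ∑ i, ∑ j, ((starRingEnd ℂ) (x i) * x j) * tm S f θ i j p =
      ((θ p * ‖S.z p (vu f x)‖ ^ 2 : ℝ) : ℂ) := by
  have h1 : S.z p (vu f x) = ∑ i, (starRingEnd ℂ) (x i) * S.z p (f i) := by
    unfold vu
    rw [map_sum]
    exact Finset.sum_congr rfl fun i _ => by rw [map_smul, smul_eq_mul]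
  have h2 : ((‖S.z p (vu f x)‖ ^ 2 : ℝ) : ℂ) =
      S.z p (vu f x) * (starRingEnd ℂ) (S.z p (vu f x)) := by
    rw [Complex.mul_conj, Complex.normSq_eq_norm_sq]
  rw [Complex.ofReal_mul, h2, h1, map_sum, Finset.sum_mul_sum, Finset.mul_sum]
  refine Finset.sum_congr rfl fun i _ => ?_
  rw [Finset.mul_sum]
  refine Finset.sum_congr rfl fun j _ => ?_
  unfold tm
  rw [map_mul, Complex.conj_conj]
  ring

theorem quad_eq {N : ℕ} (S : Sys W ι) (f : Fin N → W) (θ : ι → ℝ)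
    (hθ : ∀ p, 0 ≤ θ p ∧ θ p ≤ 1) (x : Fin N → ℂ) :
    star x ⬝ᵥ (mA S f θ).mulVec x =
      (((∑' p, θ p * ‖S.z p (vu f x)‖ ^ 2) / S.C : ℝ) : ℂ) := by
  have hC : (S.C : ℂ) ≠ 0 := by
    exact_mod_cast S.hC.ne'
  have h1 := hs S f θ hθ (fun i j => (starRingEnd ℂ) (x i) * x j)
  simp only [quad_pt] at h1
  have h2 : Summable (fun p => θ p * ‖S.z p (vu f x)‖ ^ 2) := by
    refine Summable.of_nonneg_of_le (fun p => mul_nonneg (hθ p).1 (sq_nonneg _)) (fun p => ?_)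
      (S.pars (vu f x)).summable
    exact mul_le_of_le_one_left (sq_nonneg _) (hθ p).2
  have h3 := (Complex.hasSum_ofReal.2 h2.hasSum).unique h1
  rw [Complex.ofReal_div, h3]
  field_simp
  rw [Matrix.dotProduct_mulVec]
  unfold dotProduct Matrix.vecMul
  simp only [dotProduct, Finset.sum_mul]
  rw [Finset.sum_comm]
  refine Finset.sum_congr rfl fun i _ => Finset.sum_congr rfl fun j _ => ?_
  simp only [Pi.star_apply, RCLike.star_def]
  ring

theorem tsum_le {N : ℕ} (S : Sys W ι) (f : Fin N → W) (θ : ι → ℝ)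
    (hθ : ∀ p, 0 ≤ θ p ∧ θ p ≤ 1) (x : Fin N → ℂ) :
    0 ≤ (∑' p, θ p * ‖S.z p (vu f x)‖ ^ 2) / S.C ∧
      (∑' p, θ p * ‖S.z p (vu f x)‖ ^ 2) / S.C ≤ ‖vu f x‖ ^ 2 := by
  constructor
  · refine div_nonneg (tsum_nonneg fun p => mul_nonneg (hθ p).1 (sq_nonneg _)) S.hC.le
  · rw [div_le_iff₀ S.hC, mul_comm]
    rw [← (S.pars (vu f x)).tsum_eq]
    have h2 : Summable (fun p => θ p * ‖S.z p (vu f x)‖ ^ 2) := by
      refine Summable.of_nonneg_of_le (fun p => mul_nonneg (hθ p).1 (sq_nonneg _)) (fun p => ?_)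
        (S.pars (vu f x)).summable
      exact mul_le_of_le_one_left (sq_nonneg _) (hθ p).2
    exact h2.tsum_le_tsum (fun p => mul_le_of_le_one_left (sq_nonneg _) (hθ p).2)
      (S.pars (vu f x)).summable

theorem vu_norm {N : ℕ} (f : Fin N → W) (hf : Orthonormal ℂ f) (x : Fin N → ℂ) :
    ((‖vu f x‖ ^ 2 : ℝ) : ℂ) = star x ⬝ᵥ x := by
  have h1 := hf.inner_sum (fun i => (starRingEnd ℂ) (x i)) (fun i => (starRingEnd ℂ) (x i))
    Finset.univ
  have h2 : inner ℂ (vu f x) (vu f x) = ((‖vu f x‖ ^ 2 : ℝ) : ℂ) := by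
    rw [inner_self_eq_norm_sq_to_K]
    norm_cast
  rw [← h2]
  unfold vu
  rw [h1]
  unfold dotProduct
  refine Finset.sum_congr rfl fun i _ => ?_
  rw [Complex.conj_conj, mul_comm]
  rfl

theorem herm {N : ℕ} (S : Sys W ι) (f : Fin N → W) (θ : ι → ℝ) :
    (mA S f θ).IsHermitian := by
  ext i j
  rw [Matrix.conjTranspose_apply]
  unfold mA
  rw [RCLike.star_def, map_mul, map_div₀, map_one, Complex.conj_ofReal, Complex.conj_tsum]
  congr 1
  refine tsum_congr fun p => ?_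
  unfold tm
  rw [map_mul, map_mul, Complex.conj_conj, Complex.conj_ofReal]
  ring

theorem psd {N : ℕ} (S : Sys W ι) (f : Fin N → W) (θ : ι → ℝ)
    (hθ : ∀ p, 0 ≤ θ p ∧ θ p ≤ 1) : (mA S f θ).PosSemidef := by
  refine Matrix.PosSemidef.of_dotProduct_mulVec_nonneg (herm S f θ) fun x => ?_
  rw [quad_eq S f θ hθ]
  exact_mod_cast (tsum_le S f θ hθ x).1

theorem psd' {N : ℕ} (S : Sys W ι) (f : Fin N → W) (hf : Orthonormal ℂ f) (θ : ι → ℝ)
    (hθ : ∀ p, 0 ≤ θ p ∧ θ p ≤ 1) : (1 - mA S f θ).PosSemidef := by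
  refine Matrix.PosSemidef.of_dotProduct_mulVec_nonneg
    (Matrix.isHermitian_one.sub (herm S f θ)) fun x => ?_
  rw [Matrix.sub_mulVec, Matrix.one_mulVec, dotProduct_sub, quad_eq S f θ hθ,
    ← vu_norm f hf x, ← Complex.ofReal_sub]
  exact_mod_cast sub_nonneg.2 (tsum_le S f θ hθ x).2

theorem inner_comb {N : ℕ} (v : Fin N → W) (c : Fin N → ℂ) :
    inner ℂ (∑ i, c i • v i) (∑ i, c i • v i) =
      ∑ i, ∑ j, (starRingEnd ℂ) (c i) * c j * inner ℂ (v i) (v j) := by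
  rw [sum_inner]
  refine Finset.sum_congr rfl fun i _ => ?_
  rw [inner_sum]
  refine Finset.sum_congr rfl fun j _ => ?_
  rw [inner_smul_left, inner_smul_right]
  ring

theorem norm_T {S : Sys W ι} {a b : ℝ} (T : Shift S a b) (v : W) : ‖T.T v‖ ^ 2 = ‖v‖ ^ 2 := by
  have h1 := T.iso v v
  rw [inner_self_eq_norm_sq_to_K, inner_self_eq_norm_sq_to_K] at h1
  exact_mod_cast h1

theorem norm_D (a : ℝ) (v w : W) : ‖v - (a : ℂ) • w‖ ^ 2 =
    ‖v‖ ^ 2 - 2 * (a * (inner ℂ w v).re) + a ^ 2 * ‖w‖ ^ 2 := by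
  have h1 := @norm_sub_sq ℂ W _ _ _ v ((a : ℂ) • w)
  rw [h1, inner_smul_right, norm_smul, mul_pow, Complex.norm_real, Real.norm_eq_abs, sq_abs]
  have h2 : RCLike.re ((a : ℂ) * inner ℂ v w) = a * (inner ℂ w v).re := by
    have h3 : RCLike.re ((a : ℂ) * inner ℂ v w) = a * (inner ℂ v w).re := by
      change ((a : ℂ) * inner ℂ v w).re = _
      rw [Complex.re_ofReal_mul]
    rw [h3]
    congr 1
    have h4 := @inner_re_symm ℂ W _ _ _ v w
    exact h4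
  rw [h2]

theorem pt {N : ℕ} (S : Sys W ι) {a b : ℝ} (T : Shift S a b) (lam : ℝ) (f : Fin N → W)
    (hf : Orthonormal ℂ f) (θ : ι → ℝ) (p : ι) :
    ∑ i, ∑ j, ((lam : ℂ) * (if i = j then 1 else 0) -
      (inner ℂ (S.D1 (T.T (f i))) (S.D1 (T.T (f j))) +
        inner ℂ (S.D2 (T.T (f i))) (S.D2 (T.T (f j))))) * tm S f θ i j p =
      ((θ p * (lam * ‖ww S f p‖ ^ 2 - en S (ww S f p) +
        2 * (a * M1 S (ww S f p) + b * M2 S (ww S f p)) - (a ^ 2 + b ^ 2) * ‖ww S f p‖ ^ 2) : ℝ) :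
        ℂ) := by
  have e1 : S.D1 (T.T (ww S f p)) = ∑ i, (starRingEnd ℂ) (S.z p (f i)) • S.D1 (T.T (f i)) := by
    unfold ww
    rw [map_sum, map_sum]
    exact Finset.sum_congr rfl fun i _ => by rw [map_smul, map_smul]
  have e2 : S.D2 (T.T (ww S f p)) = ∑ i, (starRingEnd ℂ) (S.z p (f i)) • S.D2 (T.T (f i)) := by
    unfold ww
    rw [map_sum, map_sum]
    exact Finset.sum_congr rfl fun i _ => by rw [map_smul, map_smul]
  have n0 : ((‖ww S f p‖ ^ 2 : ℝ) : ℂ) = ∑ i, ∑ j, S.z p (f i) *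
      (starRingEnd ℂ) (S.z p (f j)) * (if i = j then 1 else 0) := by
    have h1 : inner ℂ (ww S f p) (ww S f p) = ((‖ww S f p‖ ^ 2 : ℝ) : ℂ) := by
      rw [inner_self_eq_norm_sq_to_K]
      norm_cast
    rw [← h1]
    unfold ww
    rw [inner_comb]
    refine Finset.sum_congr rfl fun i _ => Finset.sum_congr rfl fun j _ => ?_
    rw [Complex.conj_conj, orthonormal_iff_ite.1 hf i j]
  have n1 : ((‖S.D1 (T.T (ww S f p))‖ ^ 2 : ℝ) : ℂ) = ∑ i, ∑ j, S.z p (f i) *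
      (starRingEnd ℂ) (S.z p (f j)) * inner ℂ (S.D1 (T.T (f i))) (S.D1 (T.T (f j))) := by
    have h1 : inner ℂ (S.D1 (T.T (ww S f p))) (S.D1 (T.T (ww S f p))) =
        ((‖S.D1 (T.T (ww S f p))‖ ^ 2 : ℝ) : ℂ) := by
      rw [inner_self_eq_norm_sq_to_K]
      norm_cast
    rw [← h1, e1, inner_comb]
    refine Finset.sum_congr rfl fun i _ => Finset.sum_congr rfl fun j _ => ?_
    rw [Complex.conj_conj]
  have n2 : ((‖S.D2 (T.T (ww S f p))‖ ^ 2 : ℝ) : ℂ) = ∑ i, ∑ j, S.z p (f i) *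
      (starRingEnd ℂ) (S.z p (f j)) * inner ℂ (S.D2 (T.T (f i))) (S.D2 (T.T (f j))) := by
    have h1 : inner ℂ (S.D2 (T.T (ww S f p))) (S.D2 (T.T (ww S f p))) =
        ((‖S.D2 (T.T (ww S f p))‖ ^ 2 : ℝ) : ℂ) := by
      rw [inner_self_eq_norm_sq_to_K]
      norm_cast
    rw [← h1, e2, inner_comb]
    refine Finset.sum_congr rfl fun i _ => Finset.sum_congr rfl fun j _ => ?_
    rw [Complex.conj_conj]
  have d1 : ‖S.D1 (T.T (ww S f p))‖ ^ 2 = ‖S.D1 (ww S f p)‖ ^ 2 -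
      2 * (a * M1 S (ww S f p)) + a ^ 2 * ‖ww S f p‖ ^ 2 := by
    rw [T.t1, ← map_smul, ← map_sub, norm_T, norm_D]
    rfl
  have d2 : ‖S.D2 (T.T (ww S f p))‖ ^ 2 = ‖S.D2 (ww S f p)‖ ^ 2 -
      2 * (b * M2 S (ww S f p)) + b ^ 2 * ‖ww S f p‖ ^ 2 := by
    rw [T.t2, ← map_smul, ← map_sub, norm_T, norm_D]
    rfl
  have hb : lam * ‖ww S f p‖ ^ 2 - en S (ww S f p) +
      2 * (a * M1 S (ww S f p) + b * M2 S (ww S f p)) - (a ^ 2 + b ^ 2) * ‖ww S f p‖ ^ 2 =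
      lam * ‖ww S f p‖ ^ 2 - ‖S.D1 (T.T (ww S f p))‖ ^ 2 - ‖S.D2 (T.T (ww S f p))‖ ^ 2 := by
    rw [d1, d2]
    unfold en
    ring
  rw [hb, Complex.ofReal_mul, Complex.ofReal_sub, Complex.ofReal_sub, Complex.ofReal_mul, n0, n1,
    n2, mul_sub, mul_sub, Finset.mul_sum, Finset.mul_sum, Finset.mul_sum, Finset.mul_sum,
    ← Finset.sum_sub_distrib, ← Finset.sum_sub_distrib]
  refine Finset.sum_congr rfl fun i _ => ?_
  rw [Finset.mul_sum, Finset.mul_sum, Finset.mul_sum, Finset.mul_sum, ← Finset.sum_sub_distrib,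
    ← Finset.sum_sub_distrib]
  refine Finset.sum_congr rfl fun j _ => ?_
  unfold tm
  ring

end ShIX

open ShIX in
theorem p_ShI (h1 : PolP) (h2 : Gen) (h3 : SumsP) (h4 : SymS) : ShI := by
  intro W _ _ ι S a b T lam R hR N f hf θ hθ
  have hg : Orthonormal ℂ (fun i => T.T (f i)) := by
    rw [orthonormal_iff_ite]
    intro i j
    rw [T.iso]
    exact orthonormal_iff_ite.1 hf i j
  have h5 := h2 W ι S lam R hR N (fun i => T.T (f i)) hg (mA S f θ) (psd S f θ hθ)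
    (psd' S f hf θ hθ)
  have h6 := hs S f θ hθ (fun i j => (lam : ℂ) * (if i = j then 1 else 0) -
      (inner ℂ (S.D1 (T.T (f i))) (S.D1 (T.T (f j))) +
        inner ℂ (S.D2 (T.T (f i))) (S.D2 (T.T (f j)))))
  simp only [pt S T lam f hf θ] at h6
  have h7 := Complex.hasSum_re h6
  simp only [Complex.ofReal_re] at h7
  refine ⟨h7.summable, ?_⟩
  rw [h7.tsum_eq]
  have h8 : (∑ i, ∑ j, ((lam : ℂ) * (if i = j then 1 else 0) -
      (inner ℂ (S.D1 (T.T (f i))) (S.D1 (T.T (f j))) +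
        inner ℂ (S.D2 (T.T (f i))) (S.D2 (T.T (f j))))) * ((S.C : ℂ) * mA S f θ i j)) =
      (S.C : ℂ) * ∑ i, ∑ j, mA S f θ i j * ((lam : ℂ) * (if i = j then 1 else 0) -
      (inner ℂ (S.D1 (T.T (f i))) (S.D1 (T.T (f j))) +
        inner ℂ (S.D2 (T.T (f i))) (S.D2 (T.T (f j))))) := by
    rw [Finset.mul_sum]
    refine Finset.sum_congr rfl fun i _ => ?_
    rw [Finset.mul_sum]
    exact Finset.sum_congr rfl fun j _ => by ring
  rw [h8, Complex.re_ofReal_mul]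
  exact mul_le_mul_of_nonneg_left h5 S.hC.le

end Pool.Agent.Work.MP_33c50c_an.SH
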